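import Pool.Agent.Lib.H57O.Defs
import Pool.Agent.Lib.CFT.B03
import Pool.Agent.Lib.H60.UDef.Criterion

/-!
Chunk F0 (M). A reference prime whose valuation ring is Diophantine. Take `p` odd with `Splits p K`
(`exists_splits K 2`), `exists_goodPrime`, an embedding `σ : K → ℚ_p` (there are `finrank ℚ K > 0` of
them) and `dioP_val`. The prime `v = {r ∈ 𝓞 K : ‖σ r‖ < 1}` (kernel of `𝓞 K → ℤ_p → ℤ_p / p`; it is
prime, not zero because it contains `p`). `v.valuation K x ≤ 1 ↔ ‖σ x‖ ≤ 1`: for `r ∈ 𝓞 K`: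
`v r < 1 ↔ r ∈ v ↔ ‖σ r‖ < 1`; for `x` with `v x ≤ 1` write `x = a / b` with `b` outside `v`
(`CFT.frac_prime`, or `valuation_le_one_iff`-lemmas), so `‖σ b‖ = 1`. Conversely if `v x > 1` then
`v x⁻¹ < 1`, `x⁻¹ = a / b` with `b ∉ v`, `a ∈ v`, so `‖σ x⁻¹‖ < 1`.
-/

set_option autoImplicit false

open NumberField IsDedekindDomain CFT Pool.Agent.H60.UDef

namespace Pool.Agent.H57O

section

variable {K : Type} [Field K] [NumberField K] {p : ℕ} [hp : Fact p.Prime]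

theorem f0_int (σ : K →+* ℚ_[p]) (r : 𝓞 K) : ‖σ (r : K)‖ ≤ 1 := by
  have h1 : IsIntegral ℤ (σ (r : K)) := (RingOfIntegers.isIntegral_coe r).map σ.toIntAlgHom
  have h2 : IsIntegral ℤ_[p] (σ (r : K)) := h1.tower_top
  obtain ⟨y, hy⟩ := IsIntegrallyClosed.isIntegral_iff.1 h2
  rw [← hy]
  exact PadicInt.norm_le_one y

/-- The ideal of the elements of norm less than 1. -/
def f0_ideal (σ : K →+* ℚ_[p]) : Ideal (𝓞 K) where
  carrier := {r | ‖σ (r : K)‖ < 1}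
  zero_mem' := by
    show ‖σ ((0 : 𝓞 K) : K)‖ < 1
    have e : ((0 : 𝓞 K) : K) = 0 := map_zero _
    rw [e, map_zero, norm_zero]
    exact one_pos
  add_mem' := by
    intro a b ha hb
    show ‖σ ((a + b : 𝓞 K) : K)‖ < 1
    have e : ((a + b : 𝓞 K) : K) = (a : K) + (b : K) := map_add _ _ _
    rw [e, map_add]
    exact (IsUltrametricDist.norm_add_le_max _ _).trans_lt (max_lt ha hb)
  smul_mem' := by
    intro c a ha
    show ‖σ ((c * a : 𝓞 K) : K)‖ < 1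
    have e : ((c * a : 𝓞 K) : K) = (c : K) * (a : K) := map_mul _ _ _
    rw [e, map_mul, norm_mul]
    calc ‖σ (c : K)‖ * ‖σ (a : K)‖ ≤ 1 * ‖σ (a : K)‖ := mul_le_mul_of_nonneg_right (f0_int σ c) (norm_nonneg _)
      _ = ‖σ (a : K)‖ := one_mul _
      _ < 1 := ha

theorem f0_mem (σ : K →+* ℚ_[p]) (r : 𝓞 K) : r ∈ f0_ideal σ ↔ ‖σ (r : K)‖ < 1 := Iff.rfl

theorem f0_isPrime (σ : K →+* ℚ_[p]) : (f0_ideal σ).IsPrime := by
  refine ⟨?_, ?_⟩
  · intro h
    have h1 : (1 : 𝓞 K) ∈ f0_ideal σ := h ▸ Submodule.mem_top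
    rw [f0_mem] at h1
    have e : ((1 : 𝓞 K) : K) = 1 := map_one _
    rw [e, map_one, norm_one] at h1
    exact lt_irrefl _ h1
  · intro a b hab
    by_contra hcon
    rw [not_or, f0_mem, f0_mem, not_lt, not_lt] at hcon
    rw [f0_mem] at hab
    have e : ((a * b : 𝓞 K) : K) = (a : K) * (b : K) := map_mul _ _ _
    rw [e, map_mul, norm_mul] at hab
    have h1 : 1 * 1 ≤ ‖σ (a : K)‖ * ‖σ (b : K)‖ := mul_le_mul hcon.1 hcon.2 zero_le_one (norm_nonneg _)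
    linarith

theorem f0_ne_bot (σ : K →+* ℚ_[p]) : f0_ideal σ ≠ ⊥ := by
  intro h
  have h1 : ((p : ℕ) : 𝓞 K) ∈ f0_ideal σ := by
    rw [f0_mem]
    have e : (((p : ℕ) : 𝓞 K) : K) = (p : K) := map_natCast _ _
    rw [e, map_natCast]
    exact Padic.norm_p_lt_one
  rw [h, Ideal.mem_bot] at h1
  exact hp.out.ne_zero (by exact_mod_cast h1)

/-- The prime of an embedding into the field of p-adic numbers. -/
theorem f0_prime (σ : K →+* ℚ_[p]) : ∃ v : Pr K, ∀ x : K, v.valuation K x ≤ 1 ↔ ‖σ x‖ ≤ 1 := by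
  obtain ⟨v, hv⟩ : ∃ v : Pr K, v.asIdeal = f0_ideal σ := ⟨⟨f0_ideal σ, f0_isPrime σ, f0_ne_bot σ⟩, rfl⟩
  have hlt : ∀ r : 𝓞 K, v.valuation K (r : K) < 1 ↔ ‖σ (r : K)‖ < 1 := by
    intro r
    have h1 := HeightOneSpectrum.valuation_lt_one_iff_mem (K := K) v r
    rw [hv, f0_mem] at h1
    exact h1
  have hle : ∀ r : 𝓞 K, v.valuation K (r : K) ≤ 1 := fun r => v.valuation_le_one (K := K) r
  have hone : ∀ b : 𝓞 K, b ∉ v.asIdeal → ‖σ (b : K)‖ = 1 ∧ v.valuation K (b : K) = 1 := by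
    intro b hb
    rw [hv, f0_mem, not_lt] at hb
    refine ⟨le_antisymm (f0_int σ b) hb, le_antisymm (hle b) ?_⟩
    by_contra hcon
    rw [not_le, hlt] at hcon
    linarith
  have hfrac : ∀ x : K, v.valuation K x ≤ 1 → ∃ a b : 𝓞 K, b ∉ v.asIdeal ∧ x = (a : K) / (b : K) := by
    intro x hx
    by_cases hx0 : x = 0
    · refine ⟨0, 1, fun h => v.isPrime.ne_top ((Ideal.eq_top_iff_one _).2 h), ?_⟩
      rw [hx0]
      simp
    have h1 : 0 ≤ od v x := by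
      rw [val_eq v hx0, ← WithZero.exp_zero, WithZero.exp_le_exp] at hx
      omega
    obtain ⟨a, b, _, h2, h3⟩ := frac_prime (x := x) {v} (fun w hw => by
      rw [Finset.mem_singleton.1 hw]
      exact h1)
    exact ⟨a, b, h3 v (Finset.mem_singleton_self v), h2⟩
  refine ⟨v, fun x => ⟨fun hx => ?_, fun hx => ?_⟩⟩
  · obtain ⟨a, b, hb, e⟩ := hfrac x hx
    rw [e, map_div₀, norm_div, (hone b hb).1, div_one]
    exact f0_int σ a
  · by_contra hcon
    rw [not_le] at hcon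
    have hx0 : x ≠ 0 := by
      rintro rfl
      rw [map_zero] at hcon
      exact absurd hcon (by simp)
    have h1 : v.valuation K x⁻¹ < 1 := by
      rw [map_inv₀]
      exact inv_lt_one_of_one_lt₀ hcon
    obtain ⟨a, b, hb, e⟩ := hfrac x⁻¹ h1.le
    have h2 : v.valuation K (a : K) < 1 := by
      rw [e, map_div₀, (hone b hb).2, div_one] at h1
      exact h1
    have h3 : ‖σ x⁻¹‖ < 1 := by
      rw [e, map_div₀, norm_div, (hone b hb).1, div_one]
      exact (hlt a).1 h2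
    have h4 : ‖σ x‖ * ‖σ x⁻¹‖ = 1 := by
      rw [← norm_mul, ← map_mul, mul_inv_cancel₀ hx0, map_one, norm_one]
    have h5 : ‖σ x‖ * ‖σ x⁻¹‖ ≤ 1 * ‖σ x⁻¹‖ := mul_le_mul_of_nonneg_right hx (norm_nonneg _)
    linarith

end

section

theorem exists_v0 (K : Type) [Field K] [NumberField K] :
    ∃ v₀ : Pr K, Pool.Agent.H60.UDef.DioP K (fun x => v₀.valuation K x ≤ 1) := by
  obtain ⟨p, hp, h2, hs⟩ := exists_splits K 2
  obtain ⟨l₁, l₂, hg⟩ := exists_goodPrime p hp.out (by omega)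
  have h1 : 0 < Nat.card (K →+* ℚ_[p]) := by
    have h3 : Nat.card (K →+* ℚ_[p]) = Module.finrank ℚ K := hs
    rw [h3]
    exact Module.finrank_pos
  obtain ⟨⟨σ⟩, _⟩ := Nat.card_pos_iff.1 h1
  obtain ⟨v, hv⟩ := f0_prime σ
  exact ⟨v, (dioP_val hs hg σ).congr fun x => (hv x).symm⟩

end

end Pool.Agent.H57O
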