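import Pool.Agent.Lib.H57O.Defs

/-!
Chunk R2 (S/M). The quadratic extension `K(√d)`: `M = AdjoinRoot (X ^ 2 - C d)` with
`Fact (Irreducible (X ^ 2 - C d))` (a root of a reducible quadratic polynomial: `Polynomial.not_irreducible_iff_exists_..`
or `irreducible_of_degree_le_three_of_not_isRoot`), `Field` by `AdjoinRoot.instField`, number field:
`NumberField.of_module_finite K M` (`Module.Finite` from `AdjoinRoot.powerBasis'` or
`Polynomial.Monic.finite_adjoinRoot`), every element is `x₁ + x₂ δ` (`AdjoinRoot.mk_surjective`,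
division with remainder by the monic polynomial, or the power basis of dimension `2`).
-/

set_option autoImplicit false

open NumberField IsDedekindDomain CFT

namespace Pool.Agent.H57O

section

variable {K : Type} [Field K] [NumberField K]

theorem exists_quad (d : K) (hd : ∀ g : K, g ^ 2 ≠ d) :
    ∃ (M : Type) (_ : Field M) (_ : NumberField M) (_ : Algebra K M) (δ : M),
      δ ^ 2 = algebraMap K M d ∧
        ∀ X : M, ∃ x₁ x₂ : K, X = algebraMap K M x₁ + algebraMap K M x₂ * δ := by
  have hirr : Irreducible (Polynomial.X ^ 2 - Polynomial.C d) :=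
    (X_pow_sub_C_irreducible_iff_of_prime Nat.prime_two).mpr hd
  have : Fact (Irreducible (Polynomial.X ^ 2 - Polynomial.C d)) := ⟨hirr⟩
  have hmon : (Polynomial.X ^ 2 - Polynomial.C d).Monic := Polynomial.monic_X_pow_sub_C d two_ne_zero
  have hfin : Module.Finite K (AdjoinRoot (Polynomial.X ^ 2 - Polynomial.C d)) := hmon.finite_adjoinRoot
  have hnf : NumberField (AdjoinRoot (Polynomial.X ^ 2 - Polynomial.C d)) := NumberField.of_module_finite K _
  refine ⟨AdjoinRoot (Polynomial.X ^ 2 - Polynomial.C d), inferInstance, hnf, inferInstance,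
    AdjoinRoot.root _, ?_, ?_⟩
  · have h1 := AdjoinRoot.eval₂_root (Polynomial.X ^ 2 - Polynomial.C d)
    rw [Polynomial.eval₂_sub, Polynomial.eval₂_pow, Polynomial.eval₂_X, Polynomial.eval₂_C] at h1
    exact sub_eq_zero.mp h1
  · intro X
    obtain ⟨P, rfl⟩ := AdjoinRoot.mk_surjective X
    have h1 : AdjoinRoot.mk (Polynomial.X ^ 2 - Polynomial.C d) P =
        AdjoinRoot.mk (Polynomial.X ^ 2 - Polynomial.C d) (P %ₘ (Polynomial.X ^ 2 - Polynomial.C d)) := by
      rw [AdjoinRoot.mk_eq_mk]
      refine ⟨P /ₘ (Polynomial.X ^ 2 - Polynomial.C d), ?_⟩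
      have h2 := Polynomial.modByMonic_add_div P (Polynomial.X ^ 2 - Polynomial.C d)
      linear_combination -h2
    have h3 : (P %ₘ (Polynomial.X ^ 2 - Polynomial.C d)).natDegree ≤ 1 := by
      have h4 := Polynomial.natDegree_modByMonic_lt P hmon (by
        intro h5
        have h6 := congrArg Polynomial.natDegree h5
        rw [Polynomial.natDegree_X_pow_sub_C, Polynomial.natDegree_one] at h6
        omega)
      rw [Polynomial.natDegree_X_pow_sub_C] at h4
      omega
    obtain ⟨a, b, hab⟩ := Polynomial.exists_eq_X_add_C_of_natDegree_le_one h3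
    refine ⟨b, a, ?_⟩
    rw [h1, hab, map_add, map_mul, AdjoinRoot.mk_X, AdjoinRoot.mk_C, AdjoinRoot.mk_C, AdjoinRoot.algebraMap_eq]
    ring

end

end Pool.Agent.H57O
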