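import Pool.Agent.Lib.H57O.Defs

/-!
Chunk F1 (S/M). Two existence statements.
* `exists_pi`: the class number is finite, so some power `v ^ h`, `h > 0`, is principal, generated by `π`;
  order of `π`: `h` at `v`, `0` elsewhere.
* `exists_m`: `od w 2 ≠ 0` for finitely many `w` only (`od_fin`).
-/

set_option autoImplicit false

open NumberField IsDedekindDomain CFT

namespace Pool.Agent.H57O

section

variable {K : Type} [Field K] [NumberField K]

theorem exists_pi (v : Pr K) : ∃ π : K, π ≠ 0 ∧ 0 < od v π ∧ ∀ w : Pr K, w ≠ v → od w π = 0 := by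
  have hmem : v.asIdeal ∈ nonZeroDivisors (Ideal (𝓞 K)) := mem_nonZeroDivisors_of_ne_zero v.ne_bot
  set n : ℕ := Nat.card (ClassGroup (𝓞 K)) with hn
  have hn0 : 0 < n := Nat.card_pos
  have h1 : ClassGroup.mk0 ((⟨v.asIdeal, hmem⟩ : nonZeroDivisors (Ideal (𝓞 K))) ^ n) = 1 := by
    rw [map_pow]
    exact pow_card_eq_one'
  rw [ClassGroup.mk0_eq_one_iff] at h1
  have h2 : ((⟨v.asIdeal, hmem⟩ : nonZeroDivisors (Ideal (𝓞 K))) ^ n : nonZeroDivisors (Ideal (𝓞 K))).1 = v.asIdeal ^ n := rfl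
  rw [h2] at h1
  obtain ⟨g, hg⟩ := h1.principal
  have hg' : v.asIdeal ^ n = Ideal.span {g} := hg
  have hg0 : g ≠ 0 := by
    rintro rfl
    rw [Ideal.span_singleton_eq_bot.2 rfl] at hg'
    exact pow_ne_zero n v.ne_bot hg'
  have hgK : (g : K) ≠ 0 := fun h => hg0 (RingOfIntegers.coe_eq_zero_iff.1 h)
  have hgv : g ∈ v.asIdeal ^ n := by
    rw [hg']
    exact Ideal.mem_span_singleton_self g
  refine ⟨(g : K), hgK, ?_, fun w hw => ?_⟩
  · rw [od_pos_iff v hg0]
    exact Ideal.pow_le_self hn0.ne' hgv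
  · have h3 := od_nonneg w g
    by_contra hcon
    have h4 : 0 < od w (g : K) := lt_of_le_of_ne h3 (Ne.symm hcon)
    rw [od_pos_iff w hg0] at h4
    apply hw
    have h5 : v.asIdeal ^ n ≤ w.asIdeal := by
      rw [hg', Ideal.span_singleton_le_iff_mem]
      exact h4
    have h6 : v.asIdeal ≤ w.asIdeal := w.isPrime.le_of_pow_le h5
    exact (HeightOneSpectrum.ext (v.isMaximal.eq_of_le w.isPrime.ne_top h6)).symm


theorem exists_m (K : Type) [Field K] [NumberField K] :
    ∃ m : ℕ, 0 < m ∧ ∀ w : Pr K, 3 * od w (2 : K) < (m : ℤ) := by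
  obtain ⟨B, hB⟩ := ((od_fin (2 : K)).image (fun w => od w (2 : K))).bddAbove
  refine ⟨(3 * max B 0).toNat + 1, Nat.succ_pos _, fun w => ?_⟩
  have h1 : od w (2 : K) ≤ max B 0 := by
    by_cases hw : od w (2 : K) = 0
    · rw [hw]
      exact le_max_right _ _
    · exact (hB ⟨w, hw, rfl⟩).trans (le_max_left _ _)
  have h2 : 0 ≤ max B 0 := le_max_right _ _
  push_cast
  rw [Int.toNat_of_nonneg (by omega)]
  omega


end

end Pool.Agent.H57O
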