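import Pool.Agent.Lib.H57O.C1
import Pool.Agent.Lib.H60R.D11

set_option autoImplicit false
set_option linter.unusedSectionVars false

/-! C2: a nonzero element is not a local norm everywhere except at one inert place, where its order is odd. -/

open NumberField IsDedekindDomain CFT
open Pool.Agent.H60R

namespace Pool.Agent.H57O

section

variable {F : Type} [Field F] [NumberField F]

/-- If `v` is inert then `1 + 4 s²` is a unit at `v`. -/
theorem c2_unit {v : Pr F} {s : F} (h : Inr v s) : v.valuation F (1 + 4 * s ^ 2) = 1 := by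
  obtain ⟨hs, hu⟩ := h
  have h4le : v.valuation F (4 : F) ≤ 1 := by
    have e : (4 : F) = algebraMap (𝓞 F) F 4 := (map_ofNat _ 4).symm
    rw [e]
    exact v.valuation_le_one 4
  have h2le : v.valuation F (2 : F) ≤ 1 := by
    have e : (2 : F) = algebraMap (𝓞 F) F 2 := (map_ofNat _ 2).symm
    rw [e]
    exact v.valuation_le_one 2
  have hs2 : v.valuation F (s ^ 2) ≤ 1 := by
    rw [map_pow]
    exact pow_le_one₀ zero_le hs
  have hle : v.valuation F (1 + 4 * s ^ 2) ≤ 1 := by
    refine (Valuation.map_add _ _ _).trans (max_le ?_ ?_)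
    · rw [map_one]
    · rw [map_mul]
      exact mul_le_one' h4le hs2
  by_cases h2 : v.valuation F (2 : F) = 1
  · -- `v` does not divide `2`
    have h3 := hu (1 / 2) (by rw [map_div₀, map_one, h2, div_one])
    have e : ((1 : F) / 2) ^ 2 - 1 / 2 - s ^ 2 = -((1 + 4 * s ^ 2) / 2 ^ 2) := by ring
    rw [e, Valuation.map_neg, map_div₀, map_pow, h2, one_pow, div_one] at h3
    exact h3
  · have h2lt : v.valuation F (2 : F) < 1 := lt_of_le_of_ne h2le h2
    refine Valuation.map_one_add_of_lt _ ?_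
    have e : (4 : F) * s ^ 2 = 2 * (2 * s ^ 2) := by ring
    rw [e, map_mul]
    refine (mul_le_mul_of_nonneg_left (?_ : v.valuation F (2 * s ^ 2) ≤ 1) zero_le).trans_lt (by rw [mul_one]; exact h2lt)
    rw [map_mul]
    exact mul_le_one' h2le hs2

/-- If `v` is inert then `1 + 4 s²` is not a square. -/
theorem c2_ns {v : Pr F} {s : F} (h : Inr v s) : ¬ IsSquare (1 + 4 * s ^ 2) := by
  rintro ⟨b, hb⟩
  have h2 := h.2 ((1 + b) / 2) (by
    -- `(1 + b) / 2` is a root of a monic polynomial with integral coefficients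
    by_contra hcon
    rw [not_le] at hcon
    have e : ((1 + b) / 2) ^ 2 = (1 + b) / 2 + s ^ 2 := by
      have : b * b = 1 + 4 * s ^ 2 := hb.symm
      field_simp
      linear_combination this
    have h3 : v.valuation F (((1 + b) / 2) ^ 2) ≤ v.valuation F ((1 + b) / 2) := by
      rw [e]
      refine (Valuation.map_add _ _ _).trans (max_le le_rfl ?_)
      rw [map_pow]
      exact (pow_le_one₀ zero_le h.1).trans hcon.le
    rw [map_pow, pow_two] at h3
    have h4 : (0 : WithZero (Multiplicative ℤ)) < v.valuation F ((1 + b) / 2) := zero_lt_one.trans hcon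
    have h5 : v.valuation F ((1 + b) / 2) * v.valuation F ((1 + b) / 2) ≤ v.valuation F ((1 + b) / 2) * 1 := by
      rwa [mul_one]
    have h6 := le_of_mul_le_mul_left h5 h4
    exact absurd h6 (not_le.2 hcon))
  have e : ((1 + b) / 2) ^ 2 - (1 + b) / 2 - s ^ 2 = 0 := by
    have : b * b = 1 + 4 * s ^ 2 := hb.symm
    field_simp
    linear_combination this
  rw [e, map_zero] at h2
  exact zero_ne_one h2

end

variable {F : Type} [Field F] [NumberField F] {L : Type} [Field L] [NumberField L] [Algebra F L] {δ : L} {s : F} {v : Pr F}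

theorem c2_val_le {w : Pr L} (hw : below F w = v) {x : F} (hx : v.valuation F x ≤ 1) : w.valuation L (algebraMap F L x) ≤ 1 := by
  by_cases h0 : x = 0
  · rw [h0, map_zero, map_zero]
    exact zero_le
  have h1 : (0 : ℤ) ≤ od v x := by
    rw [val_eq v h0, ← WithZero.exp_zero, WithZero.exp_le_exp] at hx
    omega
  rw [val_eq w ((map_ne_zero _).2 h0), ← WithZero.exp_zero, WithZero.exp_le_exp, od_alg, hw]
  have h2 : (0 : ℤ) ≤ (w.asIdeal.ramificationIdx (𝓞 F) : ℤ) * od v x := by positivity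
  omega

theorem c2_val_lt {w : Pr L} (hw : below F w = v) {x : F} (hx : w.valuation L (algebraMap F L x) < 1) : v.valuation F x < 1 := by
  by_cases h0 : x = 0
  · rw [h0, map_zero]
    exact zero_lt_one
  rw [val_eq w ((map_ne_zero _).2 h0), ← WithZero.exp_zero, WithZero.exp_lt_exp, od_alg, hw] at hx
  rw [val_eq v h0, ← WithZero.exp_zero, WithZero.exp_lt_exp]
  have h2 : (0 : ℤ) < (w.asIdeal.ramificationIdx (𝓞 F) : ℤ) * od v x := by omega
  have h3 : (0 : ℤ) < (w.asIdeal.ramificationIdx (𝓞 F) : ℤ) := by exact_mod_cast e_pos w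
  have := (pos_iff_pos_of_mul_pos h2).1 h3
  omega

/-- The residue degree is not one. -/
theorem c2_f (hδ : δ ^ 2 = algebraMap F L (1 + 4 * s ^ 2)) (h : Inr v s) {w : Pr L} (hw : below F w = v) :
    w.asIdeal.inertiaDeg (𝓞 F) ≠ 1 := by
  intro hf
  have hN : Nm w = Nm v := by
    rw [Nm_below (K := F) w, hf, pow_one, hw]
  -- the map of residue fields is onto
  have hsurj : ∀ t : 𝓞 L, ∃ r : 𝓞 F, t - algebraMap (𝓞 F) (𝓞 L) r ∈ w.asIdeal := by
    have hle : v.asIdeal ≤ w.asIdeal.comap (algebraMap (𝓞 F) (𝓞 L)) := by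
      rw [← hw]
      exact le_rfl
    let f : 𝓞 F ⧸ v.asIdeal →+* 𝓞 L ⧸ w.asIdeal := Ideal.quotientMap w.asIdeal (algebraMap (𝓞 F) (𝓞 L)) hle
    have hinj : Function.Injective f := Ideal.quotientMap_injective' (by
      rw [← hw]
      exact le_rfl)
    have hfin : Finite (𝓞 F ⧸ v.asIdeal) := Ring.HasFiniteQuotients.finiteQuotient v.ne_bot
    have hfin' : Finite (𝓞 L ⧸ w.asIdeal) := Ring.HasFiniteQuotients.finiteQuotient w.ne_bot
    have hcard : Nat.card (𝓞 L ⧸ w.asIdeal) ≤ Nat.card (𝓞 F ⧸ v.asIdeal) := by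
      have h1 : Nat.card (𝓞 L ⧸ w.asIdeal) = Nm w := (Submodule.cardQuot_apply _).symm.trans rfl
      have h2 : Nat.card (𝓞 F ⧸ v.asIdeal) = Nm v := (Submodule.cardQuot_apply _).symm.trans rfl
      rw [h1, h2, hN]
    have hbij := Function.Injective.bijective_of_nat_card_le hinj hcard
    intro t
    obtain ⟨q, hq⟩ := hbij.2 (Ideal.Quotient.mk w.asIdeal t)
    obtain ⟨r, rfl⟩ := Ideal.Quotient.mk_surjective q
    refine ⟨r, ?_⟩
    rw [← Ideal.Quotient.eq]
    exact hq.symm
  -- the integral element `θ = (1 + δ) / 2`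
  obtain ⟨θ, hθ⟩ : ∃ θ : L, θ = (1 + δ) / 2 := ⟨_, rfl⟩
  have hθ2 : θ ^ 2 - θ - (algebraMap F L s) ^ 2 = 0 := by
    rw [hθ]
    rw [map_add, map_one, map_mul, map_pow, map_ofNat] at hδ
    field_simp
    linear_combination hδ
  have hs' : w.valuation L (algebraMap F L s) ≤ 1 := c2_val_le hw h.1
  have hθle : w.valuation L θ ≤ 1 := by
    by_contra hcon
    rw [not_le] at hcon
    have e : θ ^ 2 = θ + (algebraMap F L s) ^ 2 := by linear_combination hθ2
    have h3 : w.valuation L (θ ^ 2) ≤ w.valuation L θ := by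
      rw [e]
      refine (Valuation.map_add _ _ _).trans (max_le le_rfl ?_)
      rw [map_pow]
      exact (pow_le_one₀ zero_le hs').trans hcon.le
    rw [map_pow, pow_two] at h3
    have h4 : (0 : WithZero (Multiplicative ℤ)) < w.valuation L θ := zero_lt_one.trans hcon
    have h5 : w.valuation L θ * w.valuation L θ ≤ w.valuation L θ * 1 := by
      rwa [mul_one]
    exact absurd (le_of_mul_le_mul_left h5 h4) (not_le.2 hcon)
  obtain ⟨t, ht'⟩ := w.exists_valuation_sub_lt_of_integer (K := L) hθle 1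
  have ht : w.valuation L (θ - (t : L)) < 1 := by
    rw [Valuation.map_sub_swap]
    exact ht'
  obtain ⟨r, hr⟩ := hsurj t
  have h6 : w.valuation L (θ - algebraMap F L (r : F)) < 1 := by
    have h7 : w.valuation L ((t : L) - algebraMap F L (r : F)) < 1 := by
      have h8 := (w.valuation_lt_one_iff_mem (K := L) (t - algebraMap (𝓞 F) (𝓞 L) r)).2 hr
      exact h8
    have e : θ - algebraMap F L (r : F) = (θ - (t : L)) + ((t : L) - algebraMap F L (r : F)) := by ring
    rw [e]
    exact Valuation.map_add_lt _ ht h7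
  have hrle : v.valuation F (r : F) ≤ 1 := v.valuation_le_one r
  have h9 : w.valuation L (algebraMap F L ((r : F) ^ 2 - (r : F) - s ^ 2)) < 1 := by
    have e : algebraMap F L ((r : F) ^ 2 - (r : F) - s ^ 2) =
        -((θ - algebraMap F L (r : F)) * (θ + algebraMap F L (r : F) - 1)) := by
      rw [map_sub, map_sub, map_pow, map_pow]
      linear_combination hθ2
    rw [e, Valuation.map_neg, map_mul]
    have h10 : w.valuation L (θ + algebraMap F L (r : F) - 1) ≤ 1 := by
      refine (Valuation.map_sub _ _ _).trans (max_le ((Valuation.map_add _ _ _).trans (max_le hθle (c2_val_le hw hrle))) ?_)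
      rw [map_one]
    refine (mul_le_mul_of_nonneg_left h10 zero_le).trans_lt ?_
    rw [mul_one]
    exact h6
  have h11 := c2_val_lt hw h9
  rw [h.2 _ hrle] at h11
  exact lt_irrefl _ h11

/-- An inert place is unramified with residue degree 2. -/
theorem c2_ef (h2 : Module.finrank F L = 2) (hδ : δ ^ 2 = algebraMap F L (1 + 4 * s ^ 2)) (h : Inr v s) {w : Pr L}
    (hw : below F w = v) : w.asIdeal.ramificationIdx (𝓞 F) = 1 ∧ w.asIdeal.inertiaDeg (𝓞 F) = 2 := by
  classical
  have h3 := congrArg (fun D : Dv F => D v) (Nd_Cn (L := L) (Finsupp.single v (1 : ℤ)))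
  rw [h2] at h3
  simp only [Nd_apply, Finsupp.smul_apply, Finsupp.single_eq_same, Cn_apply] at h3
  have h4 : ∀ w' ∈ abv L v, (w'.asIdeal.inertiaDeg (𝓞 F) : ℤ) *
      ((w'.asIdeal.ramificationIdx (𝓞 F) : ℤ) * (Finsupp.single v (1 : ℤ)) (below F w')) =
      (w'.asIdeal.inertiaDeg (𝓞 F) : ℤ) * (w'.asIdeal.ramificationIdx (𝓞 F) : ℤ) := by
    intro w' hw'
    rw [(mem_abv v w').1 hw', Finsupp.single_eq_same, mul_one]
  rw [Finset.sum_congr rfl h4] at h3
  have hwm : w ∈ abv L v := (mem_abv v w).2 hw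
  have h5 : (w.asIdeal.inertiaDeg (𝓞 F) : ℤ) * (w.asIdeal.ramificationIdx (𝓞 F) : ℤ) ≤ 2 := by
    have h6 := Finset.single_le_sum (f := fun w' : Pr L => (w'.asIdeal.inertiaDeg (𝓞 F) : ℤ) * (w'.asIdeal.ramificationIdx (𝓞 F) : ℤ))
      (fun w' _ => by positivity) hwm
    rw [h3] at h6
    simpa using h6
  have h7 : w.asIdeal.inertiaDeg (𝓞 F) * w.asIdeal.ramificationIdx (𝓞 F) ≤ 2 := by exact_mod_cast h5
  have he := e_pos (K := F) w
  have hf := f_pos (K := F) w
  have hf1 := c2_f hδ h hw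
  have hf2 : 2 ≤ w.asIdeal.inertiaDeg (𝓞 F) := by omega
  constructor <;> nlinarith

/-- C2. -/
theorem no_single {F : Type} [Field F] [NumberField F] (s c : F) (hc : c ≠ 0) (v₀ : Pr F) (hv : Inr v₀ s)
    (hodd : Odd (od v₀ c)) (h : ∀ u : Pr F, u ≠ v₀ → LN u (1 + 4 * s ^ 2) c) : False := by
  classical
  have hsq := c2_ns hv
  obtain ⟨L, iL1, iL2, iL3, δ, hδ, h2⟩ := quad_exists hsq
  have hg : IsGalois F L := quad_galois h2
  have hun : Unr F L v₀ := fun w hw => (c2_ef h2 hδ hv hw).1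
  obtain ⟨S, hS⟩ : ∃ S : Finset (Pr F), S = ((unr_fin (K := F) (L := L)).toFinset ∪ (dv c).support).erase v₀ := ⟨_, rfl⟩
  have hSr : ∀ v : Pr F, ¬ Unr F L v → v ∈ S := fun v hv' => by
    rw [hS, Finset.mem_erase, Finset.mem_union, Set.Finite.mem_toFinset]
    refine ⟨?_, Or.inl hv'⟩
    rintro rfl
    exact hv' hun
  have hSv : v₀ ∉ S := by
    rw [hS]
    exact Finset.notMem_erase _ _
  obtain ⟨χ, hχ, _⟩ := sgn_exists hsq hδ h2
  obtain ⟨w, hw⟩ := below_surj (K := F) (L := L) v₀
  have hfr : frob F L v₀ ≠ 1 := by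
    intro h1
    have h3 := order_frob (quad_ab h2) hun w hw
    rw [h1, orderOf_one, (c2_ef h2 hδ hv hw).2] at h3
    exact absurd h3 (by norm_num)
  refine art_odd χ hχ S hSv hfr hodd (fun v hvS hne => ?_)
    (prod_formula (quad_ab h2) S hSr hc (fun v hvS => c1_locN hsq hδ h2 (h v fun h0 => hSv (h0 ▸ hvS)))
      (fun φ => c1_locR hsq hδ h2 φ c (c1_pos φ s)) χ)
  have h3 : od v c = 0 := by
    by_contra h0
    apply hvS
    rw [hS, Finset.mem_erase, Finset.mem_union]
    exact ⟨hne, Or.inr (Finsupp.mem_support_iff.2 h0)⟩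
  rw [h3]
  exact Even.zero

end Pool.Agent.H57O
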