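import Pool.Agent.Lib.H57O.Q2

/-!
Chunk Q3 (M).
* `ln_of_ls_left`: if `a` is a local square, everything is a local norm. Given `N` take `M` large and
  `u` with `v (a / u² - 1) < exp (-M)`; `x = (c + 1) / 2`, `y = (c - 1) / (2 u)`:
  `x² - a y² = c + (1 - a / u²) ((c - 1) / 2)²`, so `(x² - a y²) / c - 1` is small; invert.
* `ln_symm`: if `c` is a local norm from `K(√a)` then `a` is one from `K(√c)`. Take `N` with
  `exp (-N) < v 16` (`exists_exp_lt`) and `x, y` with `c / n = 1 + ε`, `n = x² - a y²`,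
  `v ε < exp (-N)`.
  Case A: `y ≠ 0` and `v (4 n) ≤ v (a y²)`. `(x / y)² - c (1 / y)² = a - n ε / y²`, and
  `v (n ε / (a y²)) ≤ v ε / v 4 < v 4`: so this is `a (1 + small)`, nonzero, and `ln_open` applies.
  Case B: `y = 0` or `v (a y²) < v (4 n)`. Then `v (x²) = v n` (`v (a y²) < v n`), `x ≠ 0`,
  `n / x² = 1 - a y² / x²` and `v (a y² / x²) < v 4`, so `n` is a local square (`ls_one_add`,
  `ls_sq`), so is `c = n (1 + ε)`; use `ln_of_ls_left`.
-/

set_option autoImplicit false

open NumberField IsDedekindDomain CFT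

namespace Pool.Agent.H57O

section

variable {K : Type} [Field K] [NumberField K]

theorem q3_exp_pos (N : ℕ) : (0 : WithZero (Multiplicative ℤ)) < WithZero.exp (-(N : ℤ)) :=
  WithZero.zero_lt_coe _

/-- A bound for a product with a fixed factor. -/
theorem q3_small (v : Pr K) (e : K) (N : ℕ) : ∃ M : ℕ, ∀ t : K, v.valuation K t < WithZero.exp (-(M : ℤ)) →
    v.valuation K (t * e) < WithZero.exp (-(N : ℤ)) := by
  by_cases he : e = 0
  · refine ⟨0, fun t _ => ?_⟩
    rw [he, mul_zero, map_zero]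
    exact q3_exp_pos N
  obtain ⟨m, hm⟩ := exists_exp_lt v (x := e⁻¹) (inv_ne_zero he)
  refine ⟨N + m, fun t ht => ?_⟩
  have hve : 0 < v.valuation K e := zero_lt_iff.2 ((Valuation.ne_zero_iff _).2 he)
  have h1 : WithZero.exp (-((N + m : ℕ) : ℤ)) = WithZero.exp (-(N : ℤ)) * WithZero.exp (-(m : ℤ)) := by
    rw [← WithZero.exp_add]
    congr 1
    push_cast
    ring
  have h2 : WithZero.exp (-(m : ℤ)) * v.valuation K e < 1 := by
    rw [map_inv₀] at hm
    calc WithZero.exp (-(m : ℤ)) * v.valuation K e < (v.valuation K e)⁻¹ * v.valuation K e :=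
          mul_lt_mul_of_pos_right hm hve
      _ = 1 := inv_mul_cancel₀ hve.ne'
  rw [map_mul]
  calc v.valuation K t * v.valuation K e < WithZero.exp (-((N + m : ℕ) : ℤ)) * v.valuation K e :=
        mul_lt_mul_of_pos_right ht hve
    _ = WithZero.exp (-(N : ℤ)) * (WithZero.exp (-(m : ℤ)) * v.valuation K e) := by rw [h1, mul_assoc]
    _ < WithZero.exp (-(N : ℤ)) * 1 := mul_lt_mul_of_pos_left h2 (q3_exp_pos N)
    _ = WithZero.exp (-(N : ℤ)) := mul_one _

theorem ln_of_ls_left {v : Pr K} {a c : K} (ha : LS v a) (hc : c ≠ 0) : LN v a c := by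
  intro N
  obtain ⟨M, hM⟩ := q3_small v (((c - 1) / 2) ^ 2 / c) N
  obtain ⟨u, hu, h1⟩ := ha M
  have h2 : v.valuation K (1 - a / u ^ 2) < WithZero.exp (-(M : ℤ)) := by
    rw [Valuation.map_sub_swap]
    exact h1
  have h3 := hM _ h2
  set δ : K := (1 - a / u ^ 2) * (((c - 1) / 2) ^ 2 / c) with hδ
  have h4 : v.valuation K δ < 1 := h3.trans_le (exp_le_one N)
  have h5 : v.valuation K (1 + δ) = 1 := Valuation.map_one_add_of_lt _ h4
  have h6 : 1 + δ ≠ 0 := by
    intro h
    rw [h, map_zero] at h5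
    exact zero_ne_one h5
  have e1 : ((c + 1) / 2) ^ 2 - a * ((c - 1) / (2 * u)) ^ 2 = c * (1 + δ) := by
    rw [hδ]
    field_simp
    ring
  refine ⟨(c + 1) / 2, (c - 1) / (2 * u), ?_, ?_⟩
  · rw [e1]
    exact mul_ne_zero hc h6
  · have e2 : c / (((c + 1) / 2) ^ 2 - a * ((c - 1) / (2 * u)) ^ 2) = (1 + δ)⁻¹ := by
      rw [e1, div_mul_eq_div_div, div_self hc, one_div]
    rw [e2]
    refine val_near_inv v ?_
    rw [add_sub_cancel_left]
    exact h3

theorem ln_symm {v : Pr K} {a c : K} (ha : a ≠ 0) (h : LN v a c) : LN v c a := by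
  have h16 : (16 : K) ≠ 0 := by norm_num
  have h40 : (4 : K) ≠ 0 := by norm_num
  have h4v : 0 < v.valuation K (4 : K) := zero_lt_iff.2 ((Valuation.ne_zero_iff _).2 h40)
  have h4le : v.valuation K (4 : K) ≤ 1 := by
    have e : (4 : K) = 2 * 2 := by norm_num
    rw [e, map_mul]
    exact mul_le_one' (q1_val_two_le v) (q1_val_two_le v)
  have h16e : v.valuation K (16 : K) = v.valuation K (4 : K) * v.valuation K (4 : K) := by
    rw [← map_mul]
    norm_num
  obtain ⟨N, hN⟩ := exists_exp_lt v h16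
  obtain ⟨x, y, hn, h1⟩ := h N
  obtain ⟨n, hnd⟩ : ∃ n : K, n = x ^ 2 - a * y ^ 2 := ⟨_, rfl⟩
  rw [← hnd] at hn h1
  obtain ⟨ε, hε⟩ : ∃ ε : K, ε = c / n - 1 := ⟨_, rfl⟩
  rw [← hε] at h1
  have hε16 : v.valuation K ε < v.valuation K (4 : K) * v.valuation K (4 : K) := by
    rw [← h16e]
    exact h1.trans hN
  have hc : c = n * (1 + ε) := by
    rw [hε, add_sub_cancel, mul_div_cancel₀ _ hn]
  have hvn : 0 < v.valuation K n := zero_lt_iff.2 ((Valuation.ne_zero_iff _).2 hn)
  by_cases hA : y ≠ 0 ∧ v.valuation K (4 * n) ≤ v.valuation K (a * y ^ 2)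
  · obtain ⟨hy, hA⟩ := hA
    have hay : a * y ^ 2 ≠ 0 := mul_ne_zero ha (pow_ne_zero _ hy)
    have hvay : 0 < v.valuation K (a * y ^ 2) := zero_lt_iff.2 ((Valuation.ne_zero_iff _).2 hay)
    obtain ⟨η, hη⟩ : ∃ η : K, η = n * ε / (a * y ^ 2) := ⟨_, rfl⟩
    have hvη : v.valuation K η < v.valuation K 4 := by
      rw [hη, map_div₀, div_lt_iff₀ hvay, map_mul]
      calc v.valuation K n * v.valuation K ε < v.valuation K n * (v.valuation K (4 : K) * v.valuation K (4 : K)) :=
            mul_lt_mul_of_pos_left hε16 hvn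
        _ = v.valuation K 4 * v.valuation K (4 * n) := by
            rw [map_mul, mul_comm, mul_assoc]
        _ ≤ v.valuation K 4 * v.valuation K (a * y ^ 2) := mul_le_mul_right hA _
    have hvη1 : v.valuation K (1 - η) = 1 := by
      rw [sub_eq_add_neg]
      refine Valuation.map_one_add_of_lt _ ?_
      rw [Valuation.map_neg]
      exact hvη.trans_le h4le
    have hη1 : 1 - η ≠ 0 := by
      intro h
      rw [h, map_zero] at hvη1
      exact zero_ne_one hvη1
    have e1 : (x / y) ^ 2 - c * (1 / y) ^ 2 = a * (1 - η) := by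
      have hx : x ^ 2 = n + a * y ^ 2 := by
        rw [hnd]
        ring
      rw [hc, hη, div_pow, hx]
      field_simp
      ring
    refine ln_open v (x := x / y) (y := 1 / y) ?_ ?_
    · rw [e1]
      exact mul_ne_zero ha hη1
    · have e2 : a / ((x / y) ^ 2 - c * (1 / y) ^ 2) - 1 = η * (1 - η)⁻¹ := by
        rw [e1, div_mul_eq_div_div, div_self ha]
        field_simp
        ring
      rw [e2, map_mul, map_inv₀, hvη1, inv_one, mul_one]
      exact hvη
  · have hB : v.valuation K (a * y ^ 2) < v.valuation K (4 * n) := by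
      by_cases hy : y = 0
      · rw [hy]
        simp only [ne_eq, OfNat.ofNat_ne_zero, not_false_eq_true, zero_pow, mul_zero, map_zero]
        rw [map_mul]
        exact mul_pos h4v hvn
      · by_contra hcon
        exact hA ⟨hy, not_lt.1 hcon⟩
    have hx2 : v.valuation K (x ^ 2) = v.valuation K n := by
      have e : x ^ 2 = n + a * y ^ 2 := by
        rw [hnd]
        ring
      rw [e]
      refine Valuation.map_add_eq_of_lt_left _ (hB.trans_le ?_)
      rw [map_mul]
      calc v.valuation K 4 * v.valuation K n ≤ 1 * v.valuation K n := mul_le_mul_left h4le _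
        _ = v.valuation K n := one_mul _
    have hx0 : x ≠ 0 := by
      intro h
      rw [h] at hx2
      simp only [ne_eq, OfNat.ofNat_ne_zero, not_false_eq_true, zero_pow, map_zero] at hx2
      exact hvn.ne hx2
    have hLSn : LS v n := by
      refine ls_open v hx0 ?_
      have e : n / x ^ 2 - 1 = -(a * y ^ 2 / x ^ 2) := by
        rw [hnd]
        field_simp
        ring
      rw [e, Valuation.map_neg, map_div₀, hx2, div_lt_iff₀ hvn, ← map_mul]
      exact hB
    have hLSε : LS v (1 + ε) := by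
      refine ls_one_add v (hε16.trans_le ?_)
      calc v.valuation K (4 : K) * v.valuation K (4 : K) ≤ v.valuation K (4 : K) * 1 := mul_le_mul_right h4le _
        _ = v.valuation K 4 := mul_one _
    refine ln_of_ls_left ?_ ha
    rw [hc]
    exact hLSn.mul hLSε

end

end Pool.Agent.H57O
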