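import Pool.Agent.Lib.H57O.Q3

/-!
Chunk Q4 (M). Soundness at one prime. Suppose `v (4 c t²) > 1`; then `t ≠ 0`, `z = 1 / (c t²)` has
`v z < v 4`, so `1 + z` is a local square and nonzero (`ls_one_add`, `LS.ne_zero`), and
`1 + c t² = c t² (1 + z)`. From `RR`: `r² - a x² = 1 + c t² - a c w² = c D`, `D = t² (1 + z) - a w²`.
* `D = 0`: `w ≠ 0` and `a = (t / w)² (1 + z)` is a local square, so `LN v a c`.
* `D ≠ 0`: `c D = r² - a x²` is a norm. `LN v a D`: for `M` large take `u` with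
  `(1 + z) / u² = 1 + ε`, `v ε < exp (-M)`; `(t u)² - a w² = D - t² u² ε`, and
  `v (t² u² ε) = v (t² (1 + z)) v(ε)` (`v (1 + ε) = 1`) is small against `v D`; so `D / ((t u)² - a w²)`
  is near `1`. Then `c = (c D) D⁻¹` is a local norm (`LN.mul`, `LN.inv`, `ln_norm`).
Both contradict the hypothesis.
-/

set_option autoImplicit false

open NumberField IsDedekindDomain CFT

namespace Pool.Agent.H57O

section

variable {K : Type} [Field K] [NumberField K]

theorem q4_exp_add (M N : ℕ) : WithZero.exp (-((M + N : ℕ) : ℤ)) = WithZero.exp (-(M : ℤ)) * WithZero.exp (-(N : ℤ)) := by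
  rw [← WithZero.exp_add]
  congr 1
  push_cast
  ring

theorem q4_ln {v : Pr K} {a t w z : K} (ht : t ≠ 0) (hz : LS v (1 + z)) (hD : t ^ 2 * (1 + z) - a * w ^ 2 ≠ 0) :
    LN v a (t ^ 2 * (1 + z) - a * w ^ 2) := by
  intro N
  have hz0 : 1 + z ≠ 0 := hz.ne_zero
  set D := t ^ 2 * (1 + z) - a * w ^ 2 with hDdef
  have hX : D / (t ^ 2 * (1 + z)) ≠ 0 := div_ne_zero hD (mul_ne_zero (pow_ne_zero 2 ht) hz0)
  obtain ⟨N', hN'⟩ := exists_exp_lt v hX
  obtain ⟨u, hu, h1⟩ := hz (N + N')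
  set ε : K := (1 + z) / u ^ 2 - 1 with hε
  have h2 : v.valuation K ε < 1 := by
    refine lt_of_lt_of_le h1 ?_
    exact exp_le_one _
  have h3 : v.valuation K (1 + ε) = 1 := by
    apply val_eq_one_of_near
    rw [add_sub_cancel_left]
    exact h2
  have hu2 : u ^ 2 ≠ 0 := pow_ne_zero 2 hu
  have h4 : 1 + z = u ^ 2 * (1 + ε) := by
    rw [hε]
    field_simp
    ring
  set δ : K := t ^ 2 * u ^ 2 * ε / D with hδ
  have h5 : (t * u) ^ 2 - a * w ^ 2 = D * (1 - δ) := by
    rw [hδ, mul_sub, mul_div_cancel₀ _ hD, hDdef, h4]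
    ring
  have h6 : v.valuation K δ < WithZero.exp (-(N : ℤ)) := by
    have e1 : v.valuation K δ = v.valuation K ε * (v.valuation K (D / (t ^ 2 * (1 + z))))⁻¹ := by
      have e2 : δ = ε * (D / (t ^ 2 * (1 + z)))⁻¹ * (1 + ε)⁻¹ := by
        have h7 : (1 + ε) ≠ 0 := by
          intro h0
          rw [h0, map_zero] at h3
          exact zero_ne_one h3
        rw [hδ, h4]
        field_simp
      rw [e2, map_mul, map_mul, map_inv₀, map_inv₀, h3, inv_one, mul_one]
    have hX' : v.valuation K (D / (t ^ 2 * (1 + z))) ≠ 0 := (Valuation.ne_zero_iff _).2 hX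
    have hpos : (0 : WithZero (Multiplicative ℤ)) < v.valuation K (D / (t ^ 2 * (1 + z))) := zero_lt_iff.2 hX'
    rw [e1, mul_inv_lt_iff₀ hpos]
    refine h1.trans ?_
    rw [q4_exp_add]
    exact mul_lt_mul_of_pos_left hN' (WithZero.zero_lt_coe _)
  have h8 : v.valuation K (1 - δ - 1) < WithZero.exp (-(N : ℤ)) := by
    have e : (1 : K) - δ - 1 = -δ := by ring
    rw [e, Valuation.map_neg]
    exact h6
  have h9 : (1 : K) - δ ≠ 0 := by
    intro h0
    have h10 : v.valuation K (1 - δ) = 1 := val_eq_one_of_near v (h8.trans_le (exp_le_one N))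
    rw [h0, map_zero] at h10
    exact zero_ne_one h10
  refine ⟨t * u, w, ?_, ?_⟩
  · rw [h5]
    exact mul_ne_zero hD h9
  · rw [h5, div_mul_eq_div_div, div_self hD, one_div]
    exact val_near_inv v h8

theorem rr_sound {v : Pr K} {a c t : K} (ha : a ≠ 0) (hc : c ≠ 0) (h : RR a c t)
    (hn : ¬ LN v a c) : v.valuation K (4 * c * t ^ 2) ≤ 1 := by
  by_contra hcon
  push Not at hcon
  apply hn
  obtain ⟨r, x, w, hr⟩ := h
  have ht : t ≠ 0 := by
    rintro rfl
    simp at hcon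
  have hct : c * t ^ 2 ≠ 0 := mul_ne_zero hc (pow_ne_zero 2 ht)
  have hz : v.valuation K (1 / (c * t ^ 2)) < v.valuation K 4 := by
    have hpos : (0 : WithZero (Multiplicative ℤ)) < v.valuation K (c * t ^ 2) := zero_lt_iff.2 ((Valuation.ne_zero_iff _).2 hct)
    rw [one_div, map_inv₀, inv_lt_iff_one_lt_mul₀ hpos, ← map_mul]
    have e : c * t ^ 2 * 4 = 4 * c * t ^ 2 := by ring
    first
      | (rw [e]; exact hcon)
      | (rw [mul_comm, e]; exact hcon)
      | (have e2 : (4 : K) * (c * t ^ 2) = 4 * c * t ^ 2 := by ring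
         rw [e2]; exact hcon)
  have hls := ls_one_add v hz
  set z : K := 1 / (c * t ^ 2) with hzdef
  have hcz : c * t ^ 2 * z = 1 := by
    rw [hzdef]
    field_simp
  have hcD : c * (t ^ 2 * (1 + z) - a * w ^ 2) = r ^ 2 - a * x ^ 2 := by
    have e : c * (t ^ 2 * (1 + z) - a * w ^ 2) = c * t ^ 2 + c * t ^ 2 * z - a * c * w ^ 2 := by ring
    rw [e, hcz]
    linear_combination hr
  by_cases hD : t ^ 2 * (1 + z) - a * w ^ 2 = 0
  · have h1 : t ^ 2 * (1 + z) = a * w ^ 2 := sub_eq_zero.1 hD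
    have hw : w ≠ 0 := by
      rintro rfl
      apply mul_ne_zero (pow_ne_zero 2 ht) hls.ne_zero
      rw [h1]
      ring
    have h2 : a = (t / w) ^ 2 * (1 + z) := by
      rw [div_pow, div_mul_eq_mul_div, h1]
      field_simp
    have h3 : LS v a := by
      rw [h2]
      exact (ls_sq v (div_ne_zero ht hw)).mul hls
    exact ln_of_ls_left h3 hc
  · have h1 := q4_ln ht hls hD
    have h2 : LN v a (c * (t ^ 2 * (1 + z) - a * w ^ 2)) := by
      have h3 : r ^ 2 - a * x ^ 2 ≠ 0 := by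
        rw [← hcD]
        exact mul_ne_zero hc hD
      rw [hcD]
      exact ln_norm v h3
    have h4 := h2.mul h1.inv
    rwa [mul_assoc, mul_inv_cancel₀ hD, mul_one] at h4

end

end Pool.Agent.H57O
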