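import Pool.Agent.Lib.H57O.Q2

/-!
Chunk Q5 (M). At a prime `v` not above `2` units are norms from `K(√unit)`.
Multiply `a` and `c` by squares (`b15_ex`: elements of every order; `ln_left_sq`, `LN.mul`,
`ln_of_ls_right`, `ls_sq`) to get `od v a = od v c = 0`. By `exists_int_cong` there are `a', c' ∈ 𝓞 K`
with `v (a - a') < 1`, `v (c - c') < 1`. In the finite field `𝓞 K / v` of odd order the equation
`X² - a' Y² = c'` is solvable (`FiniteField.exists_root_sum_quadratic` for `X²` and `-a' Y² - c'`).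
Lift `X, Y` to `𝓞 K`: `v (X² - a Y² - c) < 1 = v 4`, `v c = 1`, so `X² - a Y² ≠ 0` and
`c / (X² - a Y²) - 1` has valuation `< 1`: `ln_open`.
-/

set_option autoImplicit false

open NumberField IsDedekindDomain CFT Polynomial

namespace Pool.Agent.H57O

section

variable {K : Type} [Field K] [NumberField K]

/-- The equation modulo `v`. -/
theorem q5_mod (v : Pr K) (h2 : (2 : 𝓞 K) ∉ v.asIdeal) {a₀ c₀ : 𝓞 K} (ha : a₀ ∉ v.asIdeal) :
    ∃ X Y : 𝓞 K, X ^ 2 - a₀ * Y ^ 2 - c₀ ∈ v.asIdeal := by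
  classical
  haveI := v.isMaximal
  letI : Field (𝓞 K ⧸ v.asIdeal) := Ideal.Quotient.field v.asIdeal
  haveI : Finite (𝓞 K ⧸ v.asIdeal) := Ideal.finiteQuotientOfFreeOfNeBot v.asIdeal v.ne_bot
  letI : Fintype (𝓞 K ⧸ v.asIdeal) := Fintype.ofFinite _
  have hch : ringChar (𝓞 K ⧸ v.asIdeal) ≠ 2 := by
    intro h
    have h3 : ((ringChar (𝓞 K ⧸ v.asIdeal) : ℕ) : 𝓞 K ⧸ v.asIdeal) = 0 := ringChar.Nat.cast_ringChar
    rw [h] at h3
    have h4 : Ideal.Quotient.mk v.asIdeal (2 : 𝓞 K) = 0 := by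
      rw [map_ofNat]
      exact_mod_cast h3
    exact h2 (Ideal.Quotient.eq_zero_iff_mem.1 h4)
  have hodd := FiniteField.odd_card_of_char_ne_two hch
  have ha1 : Ideal.Quotient.mk v.asIdeal a₀ ≠ 0 := fun h => ha (Ideal.Quotient.eq_zero_iff_mem.1 h)
  have hf : (X ^ 2 : (𝓞 K ⧸ v.asIdeal)[X]).degree = 2 := degree_X_pow 2
  have hg : (C (-Ideal.Quotient.mk v.asIdeal a₀) * X ^ 2 - C (Ideal.Quotient.mk v.asIdeal c₀) : (𝓞 K ⧸ v.asIdeal)[X]).degree = 2 := by
    have h1 : (C (-Ideal.Quotient.mk v.asIdeal a₀) * X ^ 2 : (𝓞 K ⧸ v.asIdeal)[X]).degree = 2 :=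
      degree_C_mul_X_pow 2 (neg_ne_zero.2 ha1)
    rw [degree_sub_eq_left_of_degree_lt, h1]
    rw [h1]
    exact (degree_C_le).trans_lt (by norm_num)
  obtain ⟨x, y, hxy⟩ := FiniteField.exists_root_sum_quadratic hf hg hodd
  obtain ⟨X', hX⟩ := Ideal.Quotient.mk_surjective x
  obtain ⟨Y', hY⟩ := Ideal.Quotient.mk_surjective y
  refine ⟨X', Y', ?_⟩
  rw [← Ideal.Quotient.eq_zero_iff_mem]
  simp only [eval_pow, eval_X, eval_sub, eval_mul, eval_C] at hxy
  rw [map_sub, map_sub, map_mul, map_pow, map_pow, hX, hY]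
  rw [← hxy]
  ring

theorem q5_unit {v : Pr K} (h2 : v.valuation K 2 = 1) {a c : K} (ha : v.valuation K a = 1) (hc : v.valuation K c = 1) :
    LN v a c := by
  have h2' : (2 : 𝓞 K) ∉ v.asIdeal := by
    intro h
    have h3 := (HeightOneSpectrum.valuation_lt_one_iff_mem (K := K) v (2 : 𝓞 K)).2 h
    have e : algebraMap (𝓞 K) K 2 = 2 := map_ofNat (algebraMap (𝓞 K) K) 2
    have h4 : v.valuation K (algebraMap (𝓞 K) K 2) = 1 := by
      rw [e]
      exact h2
    exact h3.ne h4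
  obtain ⟨a₀, ha₀⟩ := exists_int_cong v ha.le
  obtain ⟨c₀, hc₀⟩ := exists_int_cong v hc.le
  have ha1 : a₀ ∉ v.asIdeal := by
    intro h
    have h3 : v.valuation K (a₀ : K) < 1 := (HeightOneSpectrum.valuation_lt_one_iff_mem (K := K) v a₀).2 h
    have h4 : v.valuation K a < 1 := by
      have e : a = (a - (a₀ : K)) + (a₀ : K) := by ring
      rw [e]
      exact Valuation.map_add_lt _ ha₀ h3
    exact h4.ne ha
  obtain ⟨X', Y', hXY⟩ := q5_mod v h2' (c₀ := c₀) ha1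
  have h5 : v.valuation K (((X' ^ 2 - a₀ * Y' ^ 2 - c₀ : 𝓞 K)) : K) < 1 :=
    (HeightOneSpectrum.valuation_lt_one_iff_mem (K := K) v _).2 hXY
  have hY1 : v.valuation K ((Y' : K) ^ 2) ≤ 1 := by
    have h := v.valuation_le_one (K := K) (Y' ^ 2)
    have e : algebraMap (𝓞 K) K (Y' ^ 2) = (Y' : K) ^ 2 := map_pow _ _ _
    rw [← e]
    exact h
  have h6 : v.valuation K ((X' : K) ^ 2 - a * (Y' : K) ^ 2 - c) < 1 := by
    have e : (X' : K) ^ 2 - a * (Y' : K) ^ 2 - c =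
        (((X' ^ 2 - a₀ * Y' ^ 2 - c₀ : 𝓞 K)) : K) + (-((a - (a₀ : K)) * (Y' : K) ^ 2) + -(c - (c₀ : K))) := by
      push_cast
      ring
    rw [e]
    refine Valuation.map_add_lt _ h5 (Valuation.map_add_lt _ ?_ ?_)
    · rw [Valuation.map_neg, map_mul]
      calc v.valuation K (a - (a₀ : K)) * v.valuation K ((Y' : K) ^ 2) ≤ v.valuation K (a - (a₀ : K)) * 1 :=
            mul_le_mul_right hY1 _
        _ = v.valuation K (a - (a₀ : K)) := mul_one _
        _ < 1 := ha₀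
    · rw [Valuation.map_neg]
      exact hc₀
  obtain ⟨n, hn⟩ : ∃ n : K, n = (X' : K) ^ 2 - a * (Y' : K) ^ 2 := ⟨_, rfl⟩
  rw [← hn] at h6
  have hvn : v.valuation K n = 1 := by
    have e : n = c + (n - c) := by ring
    rw [e, Valuation.map_add_eq_of_lt_left _ (by rw [hc]; exact h6)]
    exact hc
  have hn0 : n ≠ 0 := by
    intro h
    rw [h, map_zero] at hvn
    exact zero_ne_one hvn
  have h4 : v.valuation K (4 : K) = 1 := by
    have e : (4 : K) = 2 * 2 := by norm_num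
    rw [e, map_mul, h2, mul_one]
  refine ln_open v (x := (X' : K)) (y := (Y' : K)) ?_ ?_
  · rw [← hn]
    exact hn0
  · rw [← hn, h4]
    have e : c / n - 1 = -(n - c) * n⁻¹ := by
      field_simp
      ring
    rw [e, map_mul, map_inv₀, hvn, inv_one, mul_one, Valuation.map_neg]
    exact h6

theorem q5_val_one {v : Pr K} {x : K} (hx : x ≠ 0) (h : od v x = 0) : v.valuation K x = 1 := by
  rw [val_eq v hx, h, neg_zero, WithZero.exp_zero]

theorem ln_even_even {v : Pr K} (h2 : v.valuation K 2 = 1) {a c : K} (ha : a ≠ 0) (hc : c ≠ 0)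
    (hea : Even (od v a)) (hec : Even (od v c)) : LN v a c := by
  obtain ⟨k, hk⟩ := hea
  obtain ⟨m, hm⟩ := hec
  obtain ⟨g, hg, hg1⟩ := b15_ex v (-k)
  obtain ⟨h, hh, hh1⟩ := b15_ex v m
  rw [← ln_left_sq (g := g) hg]
  have hag : a * g ^ 2 ≠ 0 := mul_ne_zero ha (pow_ne_zero _ hg)
  have h3 : v.valuation K (a * g ^ 2) = 1 := by
    refine q5_val_one hag ?_
    rw [pow_two, od_mul v ha (mul_ne_zero hg hg), od_mul v hg hg, hg1, hk]
    ring
  have hi : c * (h⁻¹) ^ 2 ≠ 0 := mul_ne_zero hc (pow_ne_zero _ (inv_ne_zero hh))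
  have h4 : v.valuation K (c * (h⁻¹) ^ 2) = 1 := by
    refine q5_val_one hi ?_
    rw [pow_two, od_mul v hc (mul_ne_zero (inv_ne_zero hh) (inv_ne_zero hh)), od_mul v (inv_ne_zero hh) (inv_ne_zero hh), od_inv, hh1, hm]
    ring
  have e : c = c * (h⁻¹) ^ 2 * h ^ 2 := by
    field_simp
  rw [e]
  exact (q5_unit h2 h3 h4).mul (ln_of_ls_right _ (ls_sq v hh))

end

end Pool.Agent.H57O
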