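import Pool.Agent.Lib.H57O.Q2

/-!
Chunk Q7 (M). Facts on `Inr`.
* `Inr.unit`: `v (1 + 4 s²) = 1`. If `v 2 = 1` take `u = 1 / 2`: `u² - u - s² = -(1 + 4 s²) / 4`. If
  `v 2 < 1`: `v (4 s²) < 1`.
* `Inr.congr`: `s'² - s² = (s' - s)(s' + s)` has valuation `< 1`.
* `Inr.not_ls`: suppose `g² = (1 + 4 s²) / (1 + ε)`, `v ε < v 4` (`LS` with `exp (-N) < v 4`). Then
  `(g - 1)(g + 1) = g² - 1` has valuation `≤ v 4` (`g² - 1 = (4 s² - ε) / (1 + ε)`) and
  `(g + 1) - (g - 1) = 2`; if `v (g - 1) > v 2` then `v (g + 1) = v (g - 1) > v 2` and the product has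
  valuation `> v 4`, a contradiction; so `u = (1 + g) / 2 = 1 + (g - 1) / 2` is integral, and
  `u² - u - s² = (g² - (1 + 4 s²)) / 4` has valuation `v ε / v 4 < 1` (up to a unit), a contradiction.
-/

set_option autoImplicit false

open NumberField IsDedekindDomain CFT

namespace Pool.Agent.H57O

section

variable {K : Type} [Field K] [NumberField K]

theorem q7_two (v : Pr K) : v.valuation K (2 : K) ≤ 1 := by
  have h : v.valuation K (algebraMap (𝓞 K) K 2) ≤ 1 := v.valuation_le_one (K := K) (2 : 𝓞 K)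
  rwa [map_ofNat] at h

theorem q7_two_ne (v : Pr K) : v.valuation K (2 : K) ≠ 0 :=
  (Valuation.ne_zero_iff _).2 two_ne_zero

theorem q7_four (v : Pr K) : v.valuation K (4 : K) = v.valuation K 2 ^ 2 := by
  rw [← map_pow]
  norm_num

theorem Inr.unit {v : Pr K} {s : K} (h : Inr v s) : v.valuation K (1 + 4 * s ^ 2) = 1 := by
  rcases (q7_two v).lt_or_eq with h2 | h2
  · apply Valuation.map_one_add_of_lt
    rw [map_mul, q7_four, map_pow]
    have h3 : v.valuation K 2 ^ 2 < 1 := pow_lt_one₀ zero_le h2 two_ne_zero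
    have h4 : v.valuation K s ^ 2 ≤ 1 := pow_le_one₀ zero_le h.1
    calc v.valuation K 2 ^ 2 * v.valuation K s ^ 2 ≤ v.valuation K 2 ^ 2 * 1 := by gcongr
      _ < 1 := by rw [mul_one]; exact h3
  · have h3 : v.valuation K ((2 : K)⁻¹) ≤ 1 := by
      rw [map_inv₀, h2, inv_one]
    have h4 := h.2 _ h3
    have e : ((2 : K)⁻¹) ^ 2 - 2⁻¹ - s ^ 2 = -((1 + 4 * s ^ 2) / 4) := by
      field_simp
      ring
    rw [e, Valuation.map_neg, map_div₀, q7_four, h2, one_pow, div_one] at h4
    exact h4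

theorem Inr.congr {v : Pr K} {s s' : K} (h : Inr v s) (hs : v.valuation K (s' - s) < 1) :
    Inr v s' := by
  have h1 : v.valuation K s' ≤ 1 := by
    have e : s' = (s' - s) + s := by ring
    rw [e]
    exact Valuation.map_add_le _ hs.le h.1
  refine ⟨h1, fun u hu => ?_⟩
  have h2 := h.2 u hu
  have e : u ^ 2 - u - s' ^ 2 = (u ^ 2 - u - s ^ 2) + -((s' - s) * (s' + s)) := by ring
  have h3 : v.valuation K (-((s' - s) * (s' + s))) < v.valuation K (u ^ 2 - u - s ^ 2) := by
    rw [h2, Valuation.map_neg, map_mul]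
    calc v.valuation K (s' - s) * v.valuation K (s' + s) ≤ v.valuation K (s' - s) * 1 := by
          gcongr
          exact Valuation.map_add_le _ h1 h.1
      _ < 1 := by rw [mul_one]; exact hs
  rw [e, Valuation.map_add_eq_of_lt_left _ h3, h2]

theorem Inr.not_ls {v : Pr K} {s : K} (h : Inr v s) : ¬ LS v (1 + 4 * s ^ 2) := by
  intro hls
  have h4ne : (4 : K) ≠ 0 := by norm_num
  obtain ⟨N, hN⟩ := exists_exp_lt v h4ne
  obtain ⟨g, hg, h1⟩ := hls N
  set ε : K := (1 + 4 * s ^ 2) / g ^ 2 - 1 with hε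
  have hε4 : v.valuation K ε < v.valuation K 4 := h1.trans hN
  have h41 : v.valuation K (4 : K) ≤ 1 := by
    rw [q7_four]
    exact pow_le_one₀ zero_le (q7_two v)
  have hε1 : v.valuation K (1 + ε) = 1 := by
    apply val_eq_one_of_near
    rw [add_sub_cancel_left]
    exact hε4.trans_le h41
  have hg2 : g ^ 2 ≠ 0 := pow_ne_zero 2 hg
  have e1 : 1 + 4 * s ^ 2 = g ^ 2 * (1 + ε) := by
    rw [hε]
    field_simp
    ring
  have hvg : v.valuation K (g ^ 2) = 1 := by
    have h2 := h.unit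
    rw [e1, map_mul, hε1, mul_one] at h2
    exact h2
  have hge : v.valuation K (g ^ 2 * ε) < v.valuation K 4 := by
    rw [map_mul, hvg, one_mul]
    exact hε4
  have hpq : v.valuation K (g ^ 2 - 1) ≤ v.valuation K 4 := by
    have e2 : g ^ 2 - 1 = 4 * s ^ 2 + -(g ^ 2 * ε) := by linear_combination (-1 : K) * e1
    rw [e2]
    apply Valuation.map_add_le
    · rw [map_mul, map_pow]
      calc v.valuation K 4 * v.valuation K s ^ 2 ≤ v.valuation K 4 * 1 := by
            gcongr
            exact pow_le_one₀ zero_le h.1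
        _ = v.valuation K 4 := mul_one _
    · rw [Valuation.map_neg]
      exact hge.le
  have hp : v.valuation K (g - 1) ≤ v.valuation K 2 := by
    by_contra hcon
    push Not at hcon
    have h2 : v.valuation K (g + 1) = v.valuation K (g - 1) := by
      have e3 : g + 1 = (g - 1) + 2 := by ring
      rw [e3]
      exact Valuation.map_add_eq_of_lt_left _ hcon
    have e4 : g ^ 2 - 1 = (g - 1) * (g + 1) := by ring
    rw [e4, map_mul, h2, q7_four, pow_two] at hpq
    have h3 : v.valuation K 2 * v.valuation K 2 < v.valuation K (g - 1) * v.valuation K (g - 1) :=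
      mul_lt_mul'' hcon hcon zero_le zero_le
    exact absurd h3 (not_lt.2 hpq)
  have hu : v.valuation K ((1 + g) / 2) ≤ 1 := by
    have e5 : (1 + g) / 2 = 1 + (g - 1) / 2 := by ring
    rw [e5]
    apply Valuation.map_add_le
    · rw [map_one]
    · rw [map_div₀]
      exact div_le_one_of_le₀ hp zero_le
  have h5 := h.2 _ hu
  have e6 : ((1 + g) / 2) ^ 2 - (1 + g) / 2 - s ^ 2 = -(g ^ 2 * ε) / 4 := by
    linear_combination (-1 / 4 : K) * e1
  rw [e6, map_div₀, Valuation.map_neg] at h5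
  have hv4 : v.valuation K (4 : K) ≠ 0 := (Valuation.ne_zero_iff _).2 h4ne
  have h6 : v.valuation K (g ^ 2 * ε) / v.valuation K 4 < 1 := by
    rw [div_lt_one₀ (zero_lt_iff.2 hv4)]
    exact hge
  rw [h5] at h6
  exact lt_irrefl _ h6

end

end Pool.Agent.H57O
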