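import Pool.Agent.Lib.H57O.Cert
import Pool.Agent.Lib.H57O.Q3
import Pool.Agent.Lib.H57O.Q4
import Pool.Agent.Lib.H57O.Q5
import Pool.Agent.Lib.H57O.Q7
import Pool.Agent.Lib.H57O.C2

/-!
Chunk F2 (M). Soundness. `a = 1 + 4 s²`. `Inr v₀ s` by `Inr.congr` (`v₀ (s - s₀) ≤ v₀ ϖ < 1`),
`od v₀ c = 1`. By `no_single` there is `w ≠ v₀` with `¬ LN w a c`, and then `¬ LN w c a` (`ln_symm`).
`rr_sound` for the four conditions (`Y = y ^ m`, orders at `w`, `e = od w 2 ≥ 0`, `od 4 = 2 e`; `y ≠ 0`):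
`t = Y / 4`: `4 c t² = c Y² / 4`, so `od c + 2 od Y ≥ 2 e`; `t = Y / (4 c)`: `4 c t² = Y² / (4 c)`, so
`2 od Y ≥ 2 e + od c`; the same for `a`. If `e > 0` (`w` above `2`): adding the first two, `2 od Y ≥ 2 e > 0`. If
`e = 0`, that is `w.valuation 2 = 1`: by `ln_even_even` one of `od a`, `od c` is odd, so
`2 od Y ≥ |od|  ≥ 1`. So `od w Y = m od w y > 0`, `od w y > 0`, `od w x < 0`, `w.valuation x > 1`.
-/

set_option autoImplicit false

open NumberField IsDedekindDomain CFT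

namespace Pool.Agent.H57O

section

variable {K : Type} [Field K] [NumberField K]

theorem f2_od_nonneg {v : Pr K} {x : K} (h : v.valuation K x ≤ 1) : 0 ≤ od v x := by
  by_cases h0 : x = 0
  · rw [h0, od_zero]
  rw [val_eq v h0, ← WithZero.exp_zero, WithZero.exp_le_exp] at h
  omega

theorem f2_od_pow (v : Pr K) {x : K} (hx : x ≠ 0) (n : ℕ) : od v (x ^ n) = n * od v x := by
  induction n with
  | zero => rw [pow_zero, od_one, Nat.cast_zero, zero_mul]
  | succ n ih =>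
    rw [pow_succ, od_mul v (pow_ne_zero n hx) hx, ih]
    push_cast
    ring

theorem f2_od_div (v : Pr K) {x y : K} (hx : x ≠ 0) (hy : y ≠ 0) : od v (x / y) = od v x - od v y := by
  rw [div_eq_mul_inv, od_mul v hx (inv_ne_zero hy), od_inv]
  ring

theorem f2_od_four (v : Pr K) : od v (4 : K) = 2 * od v (2 : K) := by
  have e : (4 : K) = 2 ^ 2 := by norm_num
  rw [e, f2_od_pow v two_ne_zero]
  norm_num

theorem f2_od_two (v : Pr K) : 0 ≤ od v (2 : K) := by
  have e : (2 : K) = ((2 : 𝓞 K) : K) := (map_ofNat (algebraMap (𝓞 K) K) 2).symm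
  rw [e]
  exact od_nonneg v _

theorem f2_bound {v : Pr K} {a c Y : K} (ha : a ≠ 0) (hc : c ≠ 0) (hY : Y ≠ 0) (hn : ¬ LN v a c)
    (h1 : RR a c (Y / 4)) (h2 : RR a c (Y / (4 * c))) :
    2 * od v (2 : K) ≤ 2 * od v Y + od v c ∧ 2 * od v (2 : K) ≤ 2 * od v Y - od v c := by
  have h4 : (4 : K) ≠ 0 := by norm_num
  have e1 := f2_od_nonneg (rr_sound ha hc h1 hn)
  have e2 := f2_od_nonneg (rr_sound ha hc h2 hn)
  have r1 : 4 * c * (Y / 4) ^ 2 = c * Y ^ 2 / 4 := by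
    field_simp
  have r2 : 4 * c * (Y / (4 * c)) ^ 2 = Y ^ 2 / (4 * c) := by
    field_simp
  rw [r1, f2_od_div v (mul_ne_zero hc (pow_ne_zero 2 hY)) h4, od_mul v hc (pow_ne_zero 2 hY), f2_od_pow v hY, f2_od_four] at e1
  rw [r2, f2_od_div v (pow_ne_zero 2 hY) (mul_ne_zero h4 hc), od_mul v h4 hc, f2_od_pow v hY, f2_od_four] at e2
  push_cast at e1 e2
  constructor <;> linarith

theorem cert_sound {v₀ : Pr K} {s₀ ϖ x : K} {m : ℕ} (hs₀ : Inr v₀ s₀) (hϖ : od v₀ ϖ = 1)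
    (h : Cert v₀ s₀ ϖ m x) : ∃ w : Pr K, w ≠ v₀ ∧ 1 < w.valuation K x := by
  obtain ⟨y, s, c, hxy, hc, ha, h1, h2, h3, r1, r2, r3, r4⟩ := h
  have hϖ0 : ϖ ≠ 0 := by
    rintro rfl
    rw [od_zero] at hϖ
    exact zero_ne_one hϖ
  have hx : x ≠ 0 := left_ne_zero_of_mul_eq_one hxy
  have hy : y ≠ 0 := right_ne_zero_of_mul_eq_one hxy
  have hvϖ : v₀.valuation K ϖ < 1 := by
    rw [val_eq v₀ hϖ0, hϖ, ← WithZero.exp_zero, WithZero.exp_lt_exp]
    norm_num
  have hss : v₀.valuation K (s - s₀) < 1 := by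
    have e : s - s₀ = (s - s₀) / ϖ * ϖ := (div_mul_cancel₀ _ hϖ0).symm
    rw [e, map_mul]
    exact (mul_le_of_le_one_left' h1).trans_lt hvϖ
  have hs : Inr v₀ s := hs₀.congr hss
  have hodc : od v₀ c = 1 := by
    have e2 := f2_od_nonneg h2
    have e3 := f2_od_nonneg h3
    rw [f2_od_div v₀ hc hϖ0] at e2
    rw [f2_od_div v₀ hϖ0 hc] at e3
    omega
  obtain ⟨w, hw, hn⟩ : ∃ w : Pr K, w ≠ v₀ ∧ ¬ LN w (1 + 4 * s ^ 2) c := by
    by_contra hcon
    push Not at hcon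
    exact no_single s c hc v₀ hs (by rw [hodc]; exact odd_one) hcon
  refine ⟨w, hw, ?_⟩
  have hn' : ¬ LN w c (1 + 4 * s ^ 2) := fun h => hn (ln_symm hc h)
  have hY : y ^ m ≠ 0 := pow_ne_zero m hy
  obtain ⟨b1, b2⟩ := f2_bound ha hc hY hn r1 r2
  obtain ⟨b3, b4⟩ := f2_bound hc ha hY hn' r3 r4
  have he := f2_od_two w
  have hYpos : 0 < od w (y ^ m) := by
    rcases he.lt_or_eq with he' | he'
    · omega
    · have h2u : w.valuation K (2 : K) = 1 := by
        rw [val_eq w two_ne_zero, ← he', neg_zero, WithZero.exp_zero]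
      have hodd : ¬ (Even (od w (1 + 4 * s ^ 2)) ∧ Even (od w c)) := fun h => hn (ln_even_even h2u ha hc h.1 h.2)
      by_contra hneg
      push Not at hneg
      apply hodd
      constructor
      · have : od w (1 + 4 * s ^ 2) = 0 := by omega
        rw [this]
        exact Even.zero
      · have : od w c = 0 := by omega
        rw [this]
        exact Even.zero
  have hypos : 0 < od w y := by
    rw [f2_od_pow w hy] at hYpos
    by_contra hneg
    have h9 : (m : ℤ) * od w y ≤ 0 := mul_nonpos_of_nonneg_of_nonpos (Nat.cast_nonneg m) (not_lt.1 hneg)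
    omega
  have hxw : od w x + od w y = 0 := by
    rw [← od_mul w hx hy, hxy, od_one]
  rw [val_eq w hx, ← WithZero.exp_zero, WithZero.exp_lt_exp]
  omega

end

end Pool.Agent.H57O
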