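import Pool.Agent.Lib.H57O.Q5

/-!
Chunk Q6 (M). Units are norms from `K(√(1 + 4 s²))`, `s` integral at `v`, `1 + 4 s²` a unit.
* `v 2 = 1`: `ln_even_even` (both orders are even).
* `v 2 < 1`: first `ln_one_add`: if `v ε < 1` then `LN v (1 + 4 s²) (1 + ε)` (any `v`). The norm of
  `1 + ε θ`, `θ² = θ + s²`, is `n = 1 + ε - s² ε²`, and `n = (1 + ε / 2)² - (1 + 4 s²) (ε / 2)²`.
  `(1 + ε) / n = 1 + ε'`, `ε' = s² ε² / n`, `v ε' ≤ v(ε)²` (`v n = 1`), so the order at least doubles: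
  iterate (induction as in Q1).
  If `c` has even order multiply by a square to get `v c = 1`; take `c' ∈ 𝓞 K` with `v (c - c') < 1`;
  in the finite field `𝓞 K / v` of characteristic `2` every element is a square
  (`FiniteField.isSquare_of_char_two`), so there is `X ∈ 𝓞 K` with `v (X² - c) < 1`; `v X = 1`,
  `c = X² (1 + ε)`.
-/

set_option autoImplicit false

open NumberField IsDedekindDomain CFT

namespace Pool.Agent.H57O

section

variable {K : Type} [Field K] [NumberField K]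

theorem q6_sq_lt (a : WithZero (Multiplicative ℤ)) (k : ℕ) (h : a < WithZero.exp (-(k : ℤ))) :
    a ^ 2 < WithZero.exp (-((k + 1 : ℕ) : ℤ)) := by
  by_cases ha : a = 0
  · subst ha
    rw [zero_pow two_ne_zero]
    exact WithZero.zero_lt_coe _
  · have e : a = WithZero.exp (WithZero.log a) := (WithZero.exp_log ha).symm
    rw [e] at h ⊢
    rw [WithZero.exp_lt_exp] at h
    rw [← WithZero.exp_nsmul, WithZero.exp_lt_exp]
    simp only [nsmul_eq_mul]
    push_cast
    linarith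

theorem q6_ind {v : Pr K} {s : K} (hs : v.valuation K s ≤ 1) (j : ℕ) : ∀ (k : ℕ) (ε : K),
    v.valuation K ε < WithZero.exp (-(k : ℤ)) → ∃ x y : K, x ^ 2 - (1 + 4 * s ^ 2) * y ^ 2 ≠ 0 ∧
      v.valuation K ((1 + ε) / (x ^ 2 - (1 + 4 * s ^ 2) * y ^ 2) - 1) < WithZero.exp (-((k + j : ℕ) : ℤ)) := by
  induction j with
  | zero =>
    intro k ε hε
    refine ⟨1, 0, ?_, ?_⟩
    · norm_num
    · have e : (1 + ε) / (1 ^ 2 - (1 + 4 * s ^ 2) * 0 ^ 2) - 1 = ε := by
        norm_num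
      rw [e]
      simpa using hε
  | succ j ih =>
    intro k ε hε
    have hε1 : v.valuation K ε < 1 := hε.trans_le (exp_le_one k)
    set n : K := (1 + ε / 2) ^ 2 - (1 + 4 * s ^ 2) * (ε / 2) ^ 2 with hn
    have e1 : n = 1 + (ε - s ^ 2 * ε ^ 2) := by
      rw [hn]
      ring
    have hse : v.valuation K (s ^ 2 * ε ^ 2) ≤ v.valuation K ε ^ 2 := by
      rw [map_mul, map_pow, map_pow]
      calc v.valuation K s ^ 2 * v.valuation K ε ^ 2 ≤ 1 * v.valuation K ε ^ 2 := by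
            gcongr
            exact pow_le_one₀ zero_le hs
        _ = v.valuation K ε ^ 2 := one_mul _
    have hε2 : v.valuation K ε ^ 2 < WithZero.exp (-((k + 1 : ℕ) : ℤ)) := q6_sq_lt _ k hε
    have hlt : v.valuation K (ε - s ^ 2 * ε ^ 2) < 1 :=
      Valuation.map_sub_lt _ hε1 (hse.trans_lt (hε2.trans_le (exp_le_one _)))
    have hvn : v.valuation K n = 1 := by
      rw [e1]
      exact Valuation.map_one_add_of_lt _ hlt
    have hn0 : n ≠ 0 := by
      intro h0
      rw [h0, map_zero] at hvn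
      exact zero_ne_one hvn
    set ε' : K := s ^ 2 * ε ^ 2 / n with hε'
    have e2 : (1 + ε) / n = 1 + ε' := by
      rw [hε', div_eq_iff hn0, add_mul, one_mul, div_mul_cancel₀ _ hn0, e1]
      ring
    have h1 : v.valuation K ε' < WithZero.exp (-((k + 1 : ℕ) : ℤ)) := by
      rw [hε', map_div₀, hvn, div_one]
      exact hse.trans_lt hε2
    obtain ⟨x', y', hn', h2⟩ := ih (k + 1) ε' h1
    have e0 : ((1 + ε / 2) * x' + (1 + 4 * s ^ 2) * (ε / 2) * y') ^ 2 -
        (1 + 4 * s ^ 2) * ((1 + ε / 2) * y' + x' * (ε / 2)) ^ 2 =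
        n * (x' ^ 2 - (1 + 4 * s ^ 2) * y' ^ 2) := by
      rw [hn]
      ring
    refine ⟨(1 + ε / 2) * x' + (1 + 4 * s ^ 2) * (ε / 2) * y', (1 + ε / 2) * y' + x' * (ε / 2), ?_, ?_⟩
    · rw [e0]
      exact mul_ne_zero hn0 hn'
    · rw [e0, div_mul_eq_div_div, e2]
      have e3 : k + (j + 1) = k + 1 + j := by ring
      rw [e3]
      exact h2

theorem ln_one_add {v : Pr K} {s ε : K} (hs : v.valuation K s ≤ 1) (hε : v.valuation K ε < 1) :
    LN v (1 + 4 * s ^ 2) (1 + ε) := by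
  intro N
  have h0 : v.valuation K ε < WithZero.exp (-((0 : ℕ) : ℤ)) := by
    simpa using hε
  have h1 := q6_ind hs N 0 ε h0
  rwa [zero_add] at h1

theorem q6_sqrt {v : Pr K} (h2 : v.valuation K 2 < 1) (r : 𝓞 K) :
    ∃ X : 𝓞 K, v.valuation K ((X : K) ^ 2 - (r : K)) < 1 := by
  classical
  have hmax : v.asIdeal.IsMaximal := v.isMaximal
  have hfin : Finite (𝓞 K ⧸ v.asIdeal) := Ideal.finiteQuotientOfFreeOfNeBot _ v.ne_bot
  let _ : Field (𝓞 K ⧸ v.asIdeal) := Ideal.Quotient.field _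
  have hmem : (2 : 𝓞 K) ∈ v.asIdeal := by
    refine (HeightOneSpectrum.valuation_lt_one_iff_mem (K := K) v (2 : 𝓞 K)).1 ?_
    show v.valuation K (algebraMap (𝓞 K) K 2) < 1
    rw [map_ofNat]
    exact h2
  have h0 : ((2 : ℕ) : 𝓞 K ⧸ v.asIdeal) = 0 := by
    have := Ideal.Quotient.eq_zero_iff_mem.2 hmem
    rw [map_ofNat] at this
    exact_mod_cast this
  have hchar : CharP (𝓞 K ⧸ v.asIdeal) 2 := (CharP.charP_iff_prime_eq_zero Nat.prime_two).2 h0
  have hring : ringChar (𝓞 K ⧸ v.asIdeal) = 2 := ringChar.eq _ 2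
  obtain ⟨y, hy⟩ := FiniteField.isSquare_of_char_two hring (Ideal.Quotient.mk v.asIdeal r)
  obtain ⟨X, rfl⟩ := Ideal.Quotient.mk_surjective y
  refine ⟨X, ?_⟩
  have h3 : X ^ 2 - r ∈ v.asIdeal := by
    rw [← Ideal.Quotient.eq, map_pow, hy, pow_two]
  have h4 : v.valuation K (algebraMap (𝓞 K) K (X ^ 2 - r)) < 1 :=
    (HeightOneSpectrum.valuation_lt_one_iff_mem (K := K) v (X ^ 2 - r)).2 h3
  rw [map_sub, map_pow] at h4
  exact h4

theorem q6_od_zero {v : Pr K} {x : K} (h : v.valuation K x = 1) : od v x = 0 := by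
  unfold od
  rw [h, WithZero.log_one, neg_zero]

theorem ln_even {v : Pr K} {s c : K} (hs : v.valuation K s ≤ 1)
    (ha : v.valuation K (1 + 4 * s ^ 2) = 1) (hc : c ≠ 0) (he : Even (od v c)) :
    LN v (1 + 4 * s ^ 2) c := by
  have ha0 : 1 + 4 * s ^ 2 ≠ 0 := by
    intro h0
    rw [h0, map_zero] at ha
    exact zero_ne_one ha
  have h2le : v.valuation K (2 : K) ≤ 1 := by
    have h : v.valuation K (algebraMap (𝓞 K) K 2) ≤ 1 := v.valuation_le_one (K := K) (2 : 𝓞 K)
    rwa [map_ofNat] at h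
  rcases h2le.lt_or_eq with h2 | h2
  · obtain ⟨m, hm⟩ := he
    obtain ⟨g, hg, hgm⟩ := b15_ex v m
    have hd : c / g ^ 2 ≠ 0 := div_ne_zero hc (pow_ne_zero 2 hg)
    have hod : od v (c / g ^ 2) = 0 := by
      rw [div_eq_mul_inv, od_mul v hc (inv_ne_zero (pow_ne_zero 2 hg)), od_inv, pow_two, od_mul v hg hg, hgm, hm]
      ring
    have hvd : v.valuation K (c / g ^ 2) = 1 := by
      rw [val_eq v hd, hod, neg_zero, WithZero.exp_zero]
    have key : LN v (1 + 4 * s ^ 2) (c / g ^ 2) := by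
      obtain ⟨r, hr⟩ := exists_int_cong v hvd.le
      obtain ⟨X, hX⟩ := q6_sqrt h2 r
      have h3 : v.valuation K ((X : K) ^ 2 - c / g ^ 2) < 1 := by
        have e : (X : K) ^ 2 - c / g ^ 2 = ((X : K) ^ 2 - (r : K)) - (c / g ^ 2 - (r : K)) := by ring
        rw [e]
        exact Valuation.map_sub_lt _ hX hr
      have h4 : v.valuation K ((X : K) ^ 2) = 1 := by
        have e : (X : K) ^ 2 = ((X : K) ^ 2 - c / g ^ 2) + c / g ^ 2 := by ring
        rw [e, Valuation.map_add_eq_of_lt_right _ (by rw [hvd]; exact h3), hvd]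
      have hX0 : (X : K) ≠ 0 := by
        intro h0
        rw [h0] at h4
        simp at h4
      have h5 : v.valuation K (c / g ^ 2 / (X : K) ^ 2 - 1) < 1 := by
        have e : c / g ^ 2 / (X : K) ^ 2 - 1 = -((X : K) ^ 2 - c / g ^ 2) / (X : K) ^ 2 := by
          field_simp
          ring
        rw [e, map_div₀, h4, div_one, Valuation.map_neg]
        exact h3
      have h6 := ln_one_add hs h5
      rw [add_sub_cancel] at h6
      have h7 := (ln_of_ls_right (1 + 4 * s ^ 2) (ls_sq v hX0)).mul h6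
      rwa [mul_div_cancel₀ _ (pow_ne_zero 2 hX0)] at h7
    have h8 := (ln_of_ls_right (1 + 4 * s ^ 2) (ls_sq v hg)).mul key
    rwa [mul_div_cancel₀ _ (pow_ne_zero 2 hg)] at h8
  · exact ln_even_even h2 ha0 hc (by rw [q6_od_zero ha]; exact Even.zero) he

end

end Pool.Agent.H57O
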