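import Pool.Agent.Lib.H57O.C2
import Pool.Agent.Lib.H57O.Q3
import Pool.Agent.Lib.H57O.Q6
import Pool.Agent.Lib.H57O.Q7

set_option autoImplicit false
set_option linter.unusedSectionVars false

/-! C3: elements which are local norms everywhere except at two given inert places. -/

open NumberField IsDedekindDomain CFT
open Pool.Agent.H60R
open scoped Pointwise

namespace Pool.Agent.H57O

section

variable {F : Type} [Field F] [NumberField F]

theorem c3_split {v : Pr F} {s c : F} (ha : v.valuation F (1 + 4 * s ^ 2) = 1) (hc : c ≠ 0)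
    (hs : v.valuation F s ≤ 1) (h : ¬ Inr v s) : LN v (1 + 4 * s ^ 2) c := by
  -- an approximate root of `u² - u - s²`
  obtain ⟨u, hu, hu1⟩ : ∃ u : F, v.valuation F u ≤ 1 ∧ v.valuation F (u ^ 2 - u - s ^ 2) < 1 := by
    by_contra hcon
    push Not at hcon
    apply h
    refine ⟨hs, fun u hu => le_antisymm ?_ (hcon u hu)⟩
    have e : u ^ 2 - u - s ^ 2 = u * (u - 1) - s ^ 2 := by ring
    rw [e]
    refine (Valuation.map_sub _ _ _).trans (max_le ?_ ?_)
    · rw [map_mul]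
      refine mul_le_one' hu ((Valuation.map_sub _ _ _).trans (max_le hu ?_))
      rw [map_one]
    · rw [map_pow]
      exact pow_le_one₀ zero_le hs
  have h4le : v.valuation F (4 : F) ≤ 1 := by
    have e : (4 : F) = algebraMap (𝓞 F) F 4 := (map_ofNat _ 4).symm
    rw [e]
    exact v.valuation_le_one 4
  have h4pos : (0 : WithZero (Multiplicative ℤ)) < v.valuation F (4 : F) := (Valuation.pos_iff _).2 (by norm_num)
  have e : (2 * u - 1) ^ 2 = (1 + 4 * s ^ 2) + 4 * (u ^ 2 - u - s ^ 2) := by ring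
  have h3 : v.valuation F ((2 * u - 1) ^ 2) = 1 := by
    rw [e, Valuation.map_add_eq_of_lt_left, ha]
    rw [ha, map_mul]
    exact (mul_le_of_le_one_left' h4le).trans_lt hu1
  have hb0 : 2 * u - 1 ≠ 0 := by
    intro h0
    rw [h0, zero_pow two_ne_zero, map_zero] at h3
    exact zero_ne_one h3
  refine ln_of_ls_left (ls_open v hb0 ?_) hc
  have e2 : (1 + 4 * s ^ 2) / (2 * u - 1) ^ 2 - 1 = -(4 * (u ^ 2 - u - s ^ 2)) / (2 * u - 1) ^ 2 := by
    rw [div_sub_one (pow_ne_zero 2 hb0)]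
    congr 1
    rw [e]
    ring
  rw [e2, map_div₀, h3, div_one, Valuation.map_neg, map_mul]
  calc v.valuation F (4 : F) * v.valuation F (u ^ 2 - u - s ^ 2) < v.valuation F (4 : F) * 1 :=
        mul_lt_mul_of_pos_left hu1 h4pos
    _ = v.valuation F (4 : F) := mul_one _

theorem c3_one {v : Pr F} {a c : F} (h2 : v.valuation F (2 : F) = 1) (hc : v.valuation F (c - 1) < 1) : LN v a c := by
  have h4 : v.valuation F (4 : F) = 1 := by
    have e : (4 : F) = 2 * 2 := by norm_num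
    rw [e, map_mul, h2, one_mul]
  have e : c = 1 + (c - 1) := by ring
  rw [e]
  exact ln_of_ls_right a (ls_one_add v (by rw [h4]; exact hc))

theorem c3_mul_sq {v : Pr F} {a c g : F} (hg : g ≠ 0) (h : LN v a c) : LN v a (c * g ^ 2) := by
  intro N
  obtain ⟨x, y, hxy, hv⟩ := h N
  refine ⟨x * g, y * g, ?_, ?_⟩
  · have e : (x * g) ^ 2 - a * (y * g) ^ 2 = (x ^ 2 - a * y ^ 2) * g ^ 2 := by ring
    rw [e]
    exact mul_ne_zero hxy (pow_ne_zero 2 hg)
  · have e : c * g ^ 2 / ((x * g) ^ 2 - a * (y * g) ^ 2) = c / (x ^ 2 - a * y ^ 2) := by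
      have e1 : (x * g) ^ 2 - a * (y * g) ^ 2 = (x ^ 2 - a * y ^ 2) * g ^ 2 := by ring
      rw [e1, mul_div_mul_right _ _ (pow_ne_zero 2 hg)]
    rw [e]
    exact hv

end

variable {F : Type} [Field F] [NumberField F] {L : Type} [Field L] [NumberField L] [Algebra F L] {δ : L}

/-- Outside the primes dividing `1 + 4 s²` the extension is unramified. -/
theorem c3_unr {s : 𝓞 F} (hsq : ¬ IsSquare (1 + 4 * (s : F) ^ 2)) (h2 : Module.finrank F L = 2)
    (hδ : δ ^ 2 = algebraMap F L (1 + 4 * (s : F) ^ 2)) {v : Pr F}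
    (hv : (1 + 4 * s ^ 2 : 𝓞 F) ∉ v.asIdeal) : Unr F L v := by
  have hg : IsGalois F L := quad_galois h2
  intro w hw
  refine unr_of_inertia w fun g hg' => ?_
  by_contra hne
  obtain ⟨χ, hχ, hχs⟩ := sgn_exists hsq hδ h2
  have hg1 : g δ = -δ := by
    rcases Int.units_eq_one_or (χ g) with h | h
    · exact absurd (hχ (h.trans (map_one χ).symm)) hne
    · rw [hχs g, h]
      simp
  obtain ⟨θ, hθ⟩ : ∃ θ : L, θ = (1 + δ) / 2 := ⟨_, rfl⟩
  have hθ2 : θ ^ 2 - θ - algebraMap F L (s : F) ^ 2 = 0 := by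
    rw [hθ]
    rw [map_add, map_one, map_mul, map_pow, map_ofNat] at hδ
    field_simp
    linear_combination hδ
  have hint : IsIntegral (𝓞 F) θ := by
    refine ⟨Polynomial.X ^ 2 - Polynomial.X - Polynomial.C (s ^ 2), ?_, ?_⟩
    · have : (Polynomial.X ^ 2 - Polynomial.X - Polynomial.C (s ^ 2) : Polynomial (𝓞 F)) =
          Polynomial.X ^ 2 + (-Polynomial.X - Polynomial.C (s ^ 2)) := by ring
      rw [this]
      refine Polynomial.monic_X_pow_add ?_
      refine (Polynomial.degree_sub_le _ _).trans_lt ?_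
      rw [max_lt_iff]
      constructor
      · rw [Polynomial.degree_neg, Polynomial.degree_X]
        norm_num
      · exact (Polynomial.degree_C_le).trans_lt (by norm_num)
    · rw [Polynomial.eval₂_sub, Polynomial.eval₂_sub, Polynomial.eval₂_pow, Polynomial.eval₂_X, Polynomial.eval₂_C, map_pow]
      exact hθ2
  have hint' : IsIntegral ℤ θ := isIntegral_trans θ hint
  obtain ⟨t, ht⟩ : ∃ t : 𝓞 L, (t : L) = θ := ⟨⟨θ, hint'⟩, rfl⟩
  have h3 := hg' t
  have h4 : ((g • t - t : 𝓞 L) : L) = -δ := by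
    have h5 : ((g • t - t : 𝓞 L) : L) = g (t : L) - (t : L) := rfl
    rw [h5, ht, hθ, map_div₀, map_add, map_one, map_ofNat, hg1]
    ring
  have h6 : ((g • t - t) ^ 2 : 𝓞 L) = algebraMap (𝓞 F) (𝓞 L) (1 + 4 * s ^ 2) := by
    apply RingOfIntegers.ext
    have h7 : (((g • t - t) ^ 2 : 𝓞 L) : L) = ((g • t - t : 𝓞 L) : L) ^ 2 := rfl
    rw [h7, h4, neg_sq, hδ]
    have h8 : ((algebraMap (𝓞 F) (𝓞 L) (1 + 4 * s ^ 2) : 𝓞 L) : L) = algebraMap F L ((1 + 4 * s ^ 2 : 𝓞 F) : F) := rfl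
    rw [h8]
    congr 1
  have h10 : algebraMap (𝓞 F) (𝓞 L) (1 + 4 * s ^ 2) ∈ w.asIdeal := by
    rw [← h6]
    exact Ideal.pow_mem_of_mem _ h3 2 (by norm_num)
  apply hv
  rw [← hw]
  exact h10

/-- C3. -/
theorem exists_two {F : Type} [Field F] [NumberField F] (s : 𝓞 F) {v w : Pr F} (hvw : v ≠ w) (hv : Inr v (s : F))
    (hw : Inr w (s : F)) :
    ∃ c : F, c ≠ 0 ∧ od v c = 1 ∧ od w c = 1 ∧ ∀ u : Pr F, u ≠ v → u ≠ w → LN u (1 + 4 * (s : F) ^ 2) c := by
  classical
  have hsq := c2_ns hv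
  obtain ⟨L, iL1, iL2, iL3, δ, hδ, h2⟩ := quad_exists hsq
  have hg : IsGalois F L := quad_galois h2
  have hunv : Unr F L v := fun w hw => (c2_ef h2 hδ hv hw).1
  have hunw : Unr F L w := fun w' hw' => (c2_ef h2 hδ hw hw').1
  have ha0 : (1 + 4 * (s : F) ^ 2) ≠ 0 := by
    intro h0
    apply hsq
    rw [h0]
    exact ⟨0, by ring⟩
  have hcoe : ((1 + 4 * s ^ 2 : 𝓞 F) : F) = 1 + 4 * (s : F) ^ 2 := by
    have h9 : ((1 + 4 * s ^ 2 : 𝓞 F) : F) = algebraMap (𝓞 F) F (1 + 4 * s ^ 2) := rfl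
    rw [h9, map_add, map_one, map_mul, map_pow, map_ofNat]
  have ha0' : (1 + 4 * s ^ 2 : 𝓞 F) ≠ 0 := by
    intro h0
    rw [h0] at hcoe
    exact ha0 (by rw [← hcoe]; exact map_zero _)
  obtain ⟨S, hS⟩ : ∃ S : Finset (Pr F), S = (dv (1 + 4 * (s : F) ^ 2)).support := ⟨_, rfl⟩
  have hSmem : ∀ u : Pr F, u ∉ S → (1 + 4 * s ^ 2 : 𝓞 F) ∉ u.asIdeal := by
    intro u hu h1
    apply hu
    rw [hS, Finsupp.mem_support_iff, dv_apply, ← hcoe]
    exact ((od_pos_iff u ha0').2 h1).ne'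
  have hSmem' : ∀ u : Pr F, u ∈ S → (1 + 4 * s ^ 2 : 𝓞 F) ∈ u.asIdeal := by
    intro u hu
    rw [hS, Finsupp.mem_support_iff, dv_apply, ← hcoe] at hu
    exact (od_pos_iff u ha0').1 (lt_of_le_of_ne (od_nonneg u _) (Ne.symm hu))
  have hSval : ∀ u : Pr F, u ∉ S → u.valuation F (1 + 4 * (s : F) ^ 2) = 1 := by
    intro u hu
    have h3 : od u (1 + 4 * (s : F) ^ 2) = 0 := by
      by_contra h0
      apply hu
      rw [hS]
      exact Finsupp.mem_support_iff.2 h0
    rw [val_eq u ha0, h3, neg_zero, WithZero.exp_zero]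
  have hvS : v ∉ S := by
    intro h0
    rw [hS, Finsupp.mem_support_iff, dv_apply] at h0
    apply h0
    unfold od
    rw [c2_unit hv, WithZero.log_one, neg_zero]
  have hwS : w ∉ S := by
    intro h0
    rw [hS, Finsupp.mem_support_iff, dv_apply] at h0
    apply h0
    unfold od
    rw [c2_unit hw, WithZero.log_one, neg_zero]
  have hSr : ∀ u : Pr F, ¬ Unr F L u → u ∈ S := fun u hu => by
    by_contra h0
    exact hu (c3_unr hsq h2 hδ (hSmem u h0))
  have hab := quad_ab (F := F) (L := L) h2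
  let _inst : CommGroup (L ≃ₐ[F] L) := { (inferInstance : Group (L ≃ₐ[F] L)) with mul_comm := hab }
  obtain ⟨N, hN⟩ := artin_ker F L (c1_cyc h2) 2 1 Nat.prime_two (by rw [h2]; norm_num) S hSr hab
  -- the divisor is in the kernel
  have hcard : Nat.card (L ≃ₐ[F] L) = 2 := by
    rw [IsGalois.card_aut_eq_finrank, h2]
  have hfr : ∀ u : Pr F, Inr u (s : F) → Unr F L u → frob F L u ≠ 1 := by
    intro u hu hun h1
    obtain ⟨w', hw'⟩ := below_surj (K := F) (L := L) u
    have h3 := order_frob hab hun w' hw'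
    rw [h1, orderOf_one, (c2_ef h2 hδ hu hw').2] at h3
    exact absurd h3 (by norm_num)
  have hprod : frob F L v * frob F L w = 1 := by
    have h3 := hfr v hv hunv
    have h4 := hfr w hw hunw
    obtain ⟨χ, hχ, _⟩ := sgn_exists hsq hδ h2
    apply hχ
    have h5 : ∀ g : L ≃ₐ[F] L, g ≠ 1 → χ g = -1 := fun g hg1 => by
      rcases Int.units_eq_one_or (χ g) with h | h
      · exact absurd (hχ (h.trans (map_one χ).symm)) hg1
      · exact h
    rw [map_mul, h5 _ h3, h5 _ h4, map_one]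
    rfl
  have hker : (Finsupp.single v (1 : ℤ) + Finsupp.single w (1 : ℤ) : Dv F) ∈ Pray S N ⊔ (Nd F L).range := by
    rw [← hN, AddMonoidHom.mem_ker, map_add, art_single_of_notMem _ hvS, art_single_of_notMem _ hwS, one_smul, one_smul,
      ← ofMul_mul]
    show Additive.ofMul (frob F L v * frob F L w) = 0
    rw [hprod]
    rfl
  obtain ⟨P, ⟨x, hx, hP⟩, _, ⟨E, rfl⟩, hPE⟩ := AddSubgroup.mem_sup.1 hker
  have hodx : ∀ u : Pr F, u ∉ S → od u x = (Finsupp.single v (1 : ℤ) + Finsupp.single w (1 : ℤ) : Dv F) u - Nd F L E u := by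
    intro u hu
    rw [← hPE, Finsupp.add_apply, hP u hu]
    ring
  have hNdE : ∀ u : Pr F, Inr u (s : F) → Even (Nd F L E u) := by
    intro u hu
    obtain ⟨w', hw'⟩ := below_surj (K := F) (L := L) u
    have h3 := f_dvd_Nd (K := F) E w'
    rw [(c2_ef h2 hδ hu hw').2, hw'] at h3
    exact even_iff_two_dvd.2 (by exact_mod_cast h3)
  -- the correcting element
  obtain ⟨a, ha⟩ := hNdE v hv
  obtain ⟨b, hb⟩ := hNdE w hw
  have hodv : od v x = 1 - (a + a) := by
    rw [hodx v hvS, Finsupp.add_apply, Finsupp.single_eq_same, Finsupp.single_eq_of_ne hvw, ha, add_zero]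
  have hodw : od w x = 1 - (b + b) := by
    rw [hodx w hwS, Finsupp.add_apply, Finsupp.single_eq_same, Finsupp.single_eq_of_ne (Ne.symm hvw), hb, zero_add]
  obtain ⟨g, hg0, hgv, hgw⟩ : ∃ g : F, g ≠ 0 ∧ od v g = a ∧ od w g = b := by
    obtain ⟨z, hz, h3⟩ := moving (K := F) ∅ {v, w} 0 (Finsupp.single v (-a) + Finsupp.single w (-b))
    refine ⟨z, hz.ne, ?_, ?_⟩
    · have h4 := h3 v (by simp) (Finset.notMem_empty _)
      rw [Finsupp.add_apply, Finsupp.add_apply, Finsupp.single_eq_same, Finsupp.single_eq_of_ne hvw, dv_apply] at h4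
      omega
    · have h4 := h3 w (by simp) (Finset.notMem_empty _)
      rw [Finsupp.add_apply, Finsupp.add_apply, Finsupp.single_eq_same, Finsupp.single_eq_of_ne (Ne.symm hvw), dv_apply] at h4
      omega
  refine ⟨x * g ^ 2, mul_ne_zero hx.ne (pow_ne_zero 2 hg0), ?_, ?_, fun u huv huw => c3_mul_sq hg0 ?_⟩
  · rw [pow_two, od_mul v hx.ne (mul_ne_zero hg0 hg0), od_mul v hg0 hg0, hodv, hgv]
    ring
  · rw [pow_two, od_mul w hx.ne (mul_ne_zero hg0 hg0), od_mul w hg0 hg0, hodw, hgw]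
    ring
  · by_cases huS : u ∈ S
    · refine c3_one ?_ ((hx.cong u huS).trans_le (exp_le_one N))
      -- `u` does not divide `2`
      have h3 := hSmem' u huS
      have h4 : (2 : 𝓞 F) ∉ u.asIdeal := by
        intro h5
        apply u.isPrime.ne_top
        rw [Ideal.eq_top_iff_one]
        have e : (1 : 𝓞 F) = (1 + 4 * s ^ 2) - 2 * (2 * s ^ 2) := by ring
        rw [e]
        exact u.asIdeal.sub_mem h3 (u.asIdeal.mul_mem_right _ h5)
      have h5 := (u.valuation_eq_one_iff_notMem (K := F) (r := (2 : 𝓞 F))).2 h4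
      rwa [map_ofNat] at h5
    · by_cases hu : Inr u (s : F)
      · refine ln_even hu.1 (hSval u huS) hx.ne ?_
        rw [hodx u huS, Finsupp.add_apply, Finsupp.single_eq_of_ne huv, Finsupp.single_eq_of_ne huw, add_zero,
          zero_sub]
        exact (hNdE u hu).neg
      · exact c3_split (hSval u huS) hx.ne (u.valuation_le_one s) hu

end Pool.Agent.H57O
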