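import Pool.Agent.Lib.H57O.Q7

/-!
Chunk Q8 (M). Existence of `s` with `Inr v s`; two primes.
* `exists_inr`: in the finite field `F = 𝓞 K / v` there is `σ` such that `X² - X - σ²` has no root.
  Characteristic `2`: `u ↦ u² - u` is not injective (`0, 1 ↦ 0`), so not surjective; every element is
  a square. Odd characteristic: a nonsquare `ν` (`FiniteField.exists_nonsquare`) is a sum of two
  squares `α² + β²` (`FiniteField.exists_root_sum_quadratic`), `α ≠ 0`; `1 + (β / α)²` is a nonsquare;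
  `σ = β / (2 α)`; a root `u` would give `(2 u - 1)² = 1 + 4 σ²`. Lift `σ` to `s ∈ 𝓞 K`. For `u ∈ K`
  integral at `v` take `r ∈ 𝓞 K` with `v (u - r) < 1` (`exists_int_cong`); `r² - r - s²` is not in `v`,
  so has valuation `1`, and differs from `u² - u - s²` by an element of valuation `< 1`.
* `exists_inr_two`: Chinese remainder theorem in `𝓞 K` for the two different maximal ideals `v`, `w`
  (`Ideal.quotientInfRingEquivPiQuotient`, `IsCoprime`, or `1 = i + j`), `Inr.congr`.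
-/

set_option autoImplicit false

open NumberField IsDedekindDomain CFT

namespace Pool.Agent.H57O

section

variable {K : Type} [Field K] [NumberField K]

theorem q8_fin (F : Type) [Field F] [Finite F] : ∃ σ : F, ∀ u : F, u ^ 2 - u - σ ^ 2 ≠ 0 := by
  classical
  haveI : Fintype F := Fintype.ofFinite F
  by_cases h2 : ringChar F = 2
  · have hns : ¬ Function.Surjective (fun u : F => u ^ 2 - u) := by
      intro hs
      have hi := Finite.injective_iff_surjective.2 hs
      have h01 : (fun u : F => u ^ 2 - u) 0 = (fun u : F => u ^ 2 - u) 1 := by simp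
      exact zero_ne_one (hi h01)
    rw [Function.Surjective] at hns
    push Not at hns
    obtain ⟨c, hc⟩ := hns
    obtain ⟨σ, hσ⟩ := FiniteField.isSquare_of_char_two h2 c
    refine ⟨σ, fun u hu => hc u ?_⟩
    rw [hσ]
    linear_combination hu
  · obtain ⟨ν, hν⟩ := FiniteField.exists_nonsquare h2
    have hcard : Fintype.card F % 2 = 1 := FiniteField.odd_card_of_char_ne_two h2
    obtain ⟨α, β, hαβ⟩ := FiniteField.exists_root_sum_quadratic (R := F) (f := Polynomial.X ^ 2) (g := Polynomial.X ^ 2 - Polynomial.C ν)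
      (by rw [Polynomial.degree_X_pow]; rfl) (Polynomial.degree_X_pow_sub_C (by norm_num) ν) hcard
    simp only [Polynomial.eval_pow, Polynomial.eval_X, Polynomial.eval_sub, Polynomial.eval_C] at hαβ
    have h20 : (2 : F) ≠ 0 := Ring.two_ne_zero h2
    have hα : α ≠ 0 := by
      rintro rfl
      apply hν
      exact ⟨β, by linear_combination -hαβ⟩
    refine ⟨β / (2 * α), fun u hu => hν ⟨(2 * u - 1) * α, ?_⟩⟩
    have h3 : (β / (2 * α)) * (2 * α) = β := div_mul_cancel₀ _ (mul_ne_zero h20 hα)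
    generalize β / (2 * α) = σ at hu h3
    rw [← h3] at hαβ
    linear_combination -hαβ - 4 * α ^ 2 * hu

theorem exists_inr (v : Pr K) : ∃ s : 𝓞 K, Inr v (s : K) := by
  haveI : v.asIdeal.IsMaximal := v.isMaximal
  letI : Field (𝓞 K ⧸ v.asIdeal) := Ideal.Quotient.field v.asIdeal
  haveI : Finite (𝓞 K ⧸ v.asIdeal) := Ideal.finiteQuotientOfFreeOfNeBot _ v.ne_bot
  obtain ⟨σ, hσ⟩ := q8_fin (𝓞 K ⧸ v.asIdeal)
  obtain ⟨s, rfl⟩ := Ideal.Quotient.mk_surjective σ
  refine ⟨s, v.valuation_le_one (K := K) s, fun u hu => ?_⟩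
  obtain ⟨r, hr⟩ := exists_int_cong v hu
  have h1 : r ^ 2 - r - s ^ 2 ∉ v.asIdeal := by
    intro h
    apply hσ (Ideal.Quotient.mk v.asIdeal r)
    rw [← map_pow, ← map_pow, ← map_sub, ← map_sub]
    exact Ideal.Quotient.eq_zero_iff_mem.2 h
  have h2 : v.valuation K (((r ^ 2 - r - s ^ 2 : 𝓞 K) : 𝓞 K) : K) = 1 := by
    refine le_antisymm (v.valuation_le_one (K := K) _) ?_
    rw [← not_lt]
    intro h
    exact h1 ((HeightOneSpectrum.valuation_lt_one_iff_mem (K := K) v _).1 h)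
  have e1 : (((r ^ 2 - r - s ^ 2 : 𝓞 K) : 𝓞 K) : K) = (r : K) ^ 2 - (r : K) - (s : K) ^ 2 := by
    show algebraMap (𝓞 K) K (r ^ 2 - r - s ^ 2) = algebraMap (𝓞 K) K r ^ 2 - algebraMap (𝓞 K) K r - algebraMap (𝓞 K) K s ^ 2
    rw [map_sub, map_sub, map_pow, map_pow]
  have e2 : u ^ 2 - u - (s : K) ^ 2 = (((r ^ 2 - r - s ^ 2 : 𝓞 K) : 𝓞 K) : K) + (u - r) * (u + r - 1) := by
    rw [e1]
    ring
  have h3 : v.valuation K ((u - r) * (u + r - 1)) < 1 := by
    rw [map_mul]
    have h4 : v.valuation K (u + r - 1) ≤ 1 := by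
      exact Valuation.map_sub_le _ (Valuation.map_add_le _ hu (v.valuation_le_one (K := K) r)) (map_one _).le
    calc v.valuation K (u - r) * v.valuation K (u + r - 1) ≤ v.valuation K (u - r) * 1 := by
          exact mul_le_mul_right h4 _
      _ = v.valuation K (u - r) := mul_one _
      _ < 1 := hr
  rw [e2, Valuation.map_add_eq_of_lt_left _ (by rw [h2]; exact h3), h2]


theorem exists_inr_two {v w : Pr K} (hvw : v ≠ w) {s₀ : 𝓞 K} (h : Inr v (s₀ : K)) :
    ∃ s : 𝓞 K, v.valuation K ((s : K) - (s₀ : K)) < 1 ∧ Inr v (s : K) ∧ Inr w (s : K) := by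
  obtain ⟨s₁, hs₁⟩ := exists_inr w
  have hne : v.asIdeal ≠ w.asIdeal := fun h => hvw (HeightOneSpectrum.ext h)
  haveI : v.asIdeal.IsMaximal := v.isMaximal
  haveI : w.asIdeal.IsMaximal := w.isMaximal
  obtain ⟨i, hi, j, hj, hij⟩ := Ideal.isCoprime_iff_exists.1 (Ideal.isCoprime_of_isMaximal hne)
  have e0 : ((s₀ * j + s₁ * i : 𝓞 K) : K) - (s₀ : K) = (((s₁ - s₀) * i : 𝓞 K) : K) := by
    show algebraMap (𝓞 K) K (s₀ * j + s₁ * i) - algebraMap (𝓞 K) K s₀ = algebraMap (𝓞 K) K ((s₁ - s₀) * i)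
    rw [← map_sub]
    congr 1
    linear_combination s₀ * hij
  have e1 : ((s₀ * j + s₁ * i : 𝓞 K) : K) - (s₁ : K) = (((s₀ - s₁) * j : 𝓞 K) : K) := by
    show algebraMap (𝓞 K) K (s₀ * j + s₁ * i) - algebraMap (𝓞 K) K s₁ = algebraMap (𝓞 K) K ((s₀ - s₁) * j)
    rw [← map_sub]
    congr 1
    linear_combination s₁ * hij
  have h0 : v.valuation K (((s₀ * j + s₁ * i : 𝓞 K) : K) - (s₀ : K)) < 1 := by
    rw [e0]
    exact (HeightOneSpectrum.valuation_lt_one_iff_mem (K := K) v _).2 (v.asIdeal.mul_mem_left _ hi)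
  have h1 : w.valuation K (((s₀ * j + s₁ * i : 𝓞 K) : K) - (s₁ : K)) < 1 := by
    rw [e1]
    exact (HeightOneSpectrum.valuation_lt_one_iff_mem (K := K) w _).2 (w.asIdeal.mul_mem_left _ hj)
  exact ⟨s₀ * j + s₁ * i, h0, h.congr h0, hs₁.congr h1⟩


end

end Pool.Agent.H57O
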