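import Pool.Agent.Lib.H57O.Q2

/-!
Chunk Q9 (S/M). Passage to an extension `M / K`, `W` a prime of `M`, `v = below K W`:
`od_alg` (B06): `od W x = e · od v x`, `e > 0` (`e_pos`). So inequalities of valuations are preserved:
for `x, y ≠ 0`, `v x < v y` iff `od v y < od v x` (`val_eq`, `WithZero.exp_lt_exp`). For `LN`, `LS` use
`v (…) < exp (-N)` implies `W (…) < exp (-N)`: the order is `> N ≥ 0` and is multiplied by `e ≥ 1`
(or the element is `0`).
-/

set_option autoImplicit false

open NumberField IsDedekindDomain CFT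

namespace Pool.Agent.H57O

section

variable {K : Type} [Field K] [NumberField K] {M : Type} [Field M] [NumberField M] [Algebra K M]

theorem q9_exp (W : Pr M) {x : K} {N : ℕ} (h : (below K W).valuation K x < WithZero.exp (-(N : ℤ))) :
    W.valuation M (algebraMap K M x) < WithZero.exp (-(N : ℤ)) := by
  by_cases hx : x = 0
  · rw [hx, map_zero, map_zero]
    exact WithZero.zero_lt_coe _
  · have hx' : algebraMap K M x ≠ 0 := (map_ne_zero (algebraMap K M)).2 hx
    rw [val_lt_iff _ hx] at h
    rw [val_lt_iff _ hx', od_alg]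
    have he : (1 : ℤ) ≤ (W.asIdeal.ramificationIdx (𝓞 K) : ℤ) := by exact_mod_cast e_pos (K := K) W
    nlinarith [Int.natCast_nonneg N]

theorem val_lt_ext (W : Pr M) {x y : K} (h : (below K W).valuation K x < (below K W).valuation K y) :
    W.valuation M (algebraMap K M x) < W.valuation M (algebraMap K M y) := by
  have hy : y ≠ 0 := by
    rintro rfl
    rw [map_zero] at h
    exact not_lt_zero h
  have hy' : algebraMap K M y ≠ 0 := (map_ne_zero (algebraMap K M)).2 hy
  by_cases hx : x = 0
  · rw [hx, map_zero, map_zero]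
    exact zero_lt_iff.2 ((Valuation.ne_zero_iff _).2 hy')
  · have hx' : algebraMap K M x ≠ 0 := (map_ne_zero (algebraMap K M)).2 hx
    rw [val_eq _ hx, val_eq _ hy, WithZero.exp_lt_exp] at h
    rw [val_eq _ hx', val_eq _ hy', WithZero.exp_lt_exp, od_alg, od_alg]
    have he : (1 : ℤ) ≤ (W.asIdeal.ramificationIdx (𝓞 K) : ℤ) := by exact_mod_cast e_pos (K := K) W
    nlinarith


theorem val_le_one_ext (W : Pr M) {x : K} (h : (below K W).valuation K x ≤ 1) :
    W.valuation M (algebraMap K M x) ≤ 1 := by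
  by_cases hx : x = 0
  · rw [hx, map_zero, map_zero]
    exact zero_le_one
  · have hx' : algebraMap K M x ≠ 0 := (map_ne_zero (algebraMap K M)).2 hx
    rw [val_eq _ hx, ← WithZero.exp_zero, WithZero.exp_le_exp] at h
    rw [val_eq _ hx', ← WithZero.exp_zero, WithZero.exp_le_exp, od_alg]
    have he : (1 : ℤ) ≤ (W.asIdeal.ramificationIdx (𝓞 K) : ℤ) := by exact_mod_cast e_pos (K := K) W
    nlinarith


theorem val_eq_one_ext (W : Pr M) {x : K} (h : (below K W).valuation K x = 1) :
    W.valuation M (algebraMap K M x) = 1 := by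
  have hx : x ≠ 0 := by
    rintro rfl
    rw [map_zero] at h
    exact zero_ne_one h
  refine le_antisymm (val_le_one_ext W h.le) ?_
  have h2 : (below K W).valuation K x⁻¹ ≤ 1 := by
    rw [map_inv₀, h, inv_one]
  have h3 := val_le_one_ext W h2
  have hx' : algebraMap K M x ≠ 0 := (map_ne_zero (algebraMap K M)).2 hx
  rw [map_inv₀, map_inv₀] at h3
  exact (inv_le_one₀ (zero_lt_iff.2 ((Valuation.ne_zero_iff _).2 hx'))).1 h3


theorem LS.ext (W : Pr M) {g : K} (h : LS (below K W) g) : LS W (algebraMap K M g) := by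
  intro N
  obtain ⟨u, hu, h1⟩ := h N
  refine ⟨algebraMap K M u, (map_ne_zero (algebraMap K M)).2 hu, ?_⟩
  rw [← map_pow, ← map_div₀, ← map_one (algebraMap K M), ← map_sub]
  exact q9_exp W h1


theorem LN.ext (W : Pr M) {a c : K} (h : LN (below K W) a c) :
    LN W (algebraMap K M a) (algebraMap K M c) := by
  intro N
  obtain ⟨x, y, hxy, h1⟩ := h N
  refine ⟨algebraMap K M x, algebraMap K M y, ?_, ?_⟩
  · rw [← map_pow, ← map_pow, ← map_mul, ← map_sub]
    exact (map_ne_zero (algebraMap K M)).2 hxy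
  · rw [← map_pow, ← map_pow, ← map_mul, ← map_sub, ← map_div₀, ← map_one (algebraMap K M), ← map_sub]
    exact q9_exp W h1


end

end Pool.Agent.H57O
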