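import Pool.Agent.Lib.H57O.R3
import Pool.Agent.Lib.H57O.Q6
import Pool.Agent.Lib.H57O.Q7
import Pool.Agent.Lib.H57O.Q9

/-!
Chunk R4 (M). Completeness, first form. `a = 1 + 4 s²`, `δ₀ = 1 + c t²`, `d = c δ₀`. `δ₀` is a unit at
`v` and `w` (`val_eq_one_of_near`), so `od v d = 1` is odd and `d ≠ 0` is not a square. Take `M = K(√d)`
(`exists_quad`). For every prime `W` of `M` and `u = below K W`: if `u ≠ v, w` use `LN.ext`. If
`u = v` or `w`: `c δ₀ = δ²` in `M`, so `od W c = 2 od W δ - od W δ₀ = 2 od W δ` is even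
(`val_eq_one_ext`), `s` is integral and `a` a unit at `W` (`Inr.unit`, `val_eq_one_ext`,
`val_le_one_ext`), so `ln_even` applies at `W`. Then `descent` with `rr_of_rep` or `rr_of_norm`.
-/

set_option autoImplicit false

open NumberField IsDedekindDomain CFT

namespace Pool.Agent.H57O

section

variable {K : Type} [Field K] [NumberField K]

theorem r4_even {M : Type} [Field M] [NumberField M] [Algebra K M] {δ : M} {c δ₀ : K} (hc : c ≠ 0) (hδ : δ ^ 2 = algebraMap K M (c * δ₀))
    (W : Pr M) (h1 : (below K W).valuation K δ₀ = 1) : Even (od W (algebraMap K M c)) := by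
  have h0 : δ₀ ≠ 0 := by
    rintro rfl
    rw [map_zero] at h1
    exact zero_ne_one h1
  have hδ0 : δ ≠ 0 := by
    rintro rfl
    rw [zero_pow two_ne_zero] at hδ
    exact (mul_ne_zero hc h0) ((map_eq_zero (algebraMap K M)).1 hδ.symm)
  have hc' : algebraMap K M c ≠ 0 := (map_ne_zero _).2 hc
  have h0' : algebraMap K M δ₀ ≠ 0 := (map_ne_zero _).2 h0
  have h2 : od W (algebraMap K M δ₀) = 0 := by
    unfold od
    rw [val_eq_one_ext W h1, WithZero.log_one, neg_zero]
  have h3 : od W (δ ^ 2) = od W (algebraMap K M c) + od W (algebraMap K M δ₀) := by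
    rw [hδ, map_mul, od_mul W hc' h0']
  rw [pow_two, od_mul W hδ0 hδ0, h2, add_zero] at h3
  exact ⟨od W δ, h3.symm⟩

theorem rr_complete {s c t : K} {v w : Pr K} (hv : Inr v s) (hw : Inr w s) (hc : c ≠ 0)
    (hcv : od v c = 1) (hcw : od w c = 1)
    (h : ∀ u : Pr K, u ≠ v → u ≠ w → LN u (1 + 4 * s ^ 2) c)
    (htv : v.valuation K (c * t ^ 2) < 1) (htw : w.valuation K (c * t ^ 2) < 1) :
    RR (1 + 4 * s ^ 2) c t := by
  have ha : 1 + 4 * s ^ 2 ≠ 0 := by
    intro h0
    have h1 := hv.unit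
    rw [h0, map_zero] at h1
    exact zero_ne_one h1
  have h2 : (2 : K) ≠ 0 := two_ne_zero
  have hδv : v.valuation K (1 + c * t ^ 2) = 1 := val_eq_one_of_near v (by rw [add_sub_cancel_left]; exact htv)
  have hδw : w.valuation K (1 + c * t ^ 2) = 1 := val_eq_one_of_near w (by rw [add_sub_cancel_left]; exact htw)
  have hδ0 : 1 + c * t ^ 2 ≠ 0 := by
    intro h0
    rw [h0, map_zero] at hδv
    exact zero_ne_one hδv
  have hodd : od v (c * (1 + c * t ^ 2)) = 1 := by
    rw [od_mul v hc hδ0, hcv]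
    unfold od
    rw [hδv, WithZero.log_one, neg_zero, add_zero]
  have hd : ∀ g : K, g ^ 2 ≠ c * (1 + c * t ^ 2) := by
    intro g hg
    have hg0 : g ≠ 0 := by
      rintro rfl
      rw [zero_pow two_ne_zero] at hg
      exact mul_ne_zero hc hδ0 hg.symm
    rw [← hg, pow_two, od_mul v hg0 hg0] at hodd
    omega
  obtain ⟨M, iM1, iM2, iM3, δ, hδ, hM⟩ := exists_quad (c * (1 + c * t ^ 2)) hd
  have key : ∀ W : Pr M, LN W (1 + 4 * (algebraMap K M s) ^ 2) (algebraMap K M c) := by
    intro W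
    have e : (1 + 4 * (algebraMap K M s) ^ 2 : M) = algebraMap K M (1 + 4 * s ^ 2) := by
      rw [map_add, map_one, map_mul, map_pow, map_ofNat]
    have hc' : algebraMap K M c ≠ 0 := (map_ne_zero _).2 hc
    have hin : ∀ u : Pr K, below K W = u → Inr u s → u.valuation K (1 + c * t ^ 2) = 1 →
        LN W (1 + 4 * (algebraMap K M s) ^ 2) (algebraMap K M c) := by
      intro u hu hi hδu
      subst hu
      refine ln_even (val_le_one_ext W hi.1) ?_ hc' (r4_even hc hδ W hδu)
      rw [e]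
      exact val_eq_one_ext W hi.unit
    by_cases hWv : below K W = v
    · exact hin v hWv hv hδv
    · by_cases hWw : below K W = w
      · exact hin w hWw hw hδw
      · rw [e]
        exact (h _ hWv hWw).ext W
  rcases descent hd ha hc hδ hM key with ⟨α, β, γ, h5⟩ | ⟨x, y, h5⟩
  · exact rr_of_rep hc h5
  · exact rr_of_norm h2 ha hc h5 _

end

end Pool.Agent.H57O
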