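import Pool.Agent.Lib.H57O.R3
import Pool.Agent.Lib.H57O.Q3
import Pool.Agent.Lib.H57O.Q7
import Pool.Agent.Lib.H57O.Q9

/-!
Chunk R5 (M). Completeness, second form (roles of `a = 1 + 4 s²` and `c` exchanged).
`δ₀ = 1 + a t²`, `d = a δ₀`. `a` is a unit at `v`, `w` (`Inr.unit`), `δ₀` is a local square at `v`, `w`
(`ls_one_add`: `v (a t²) = v (t²) < v 4`). `d` is not a square in `K`: otherwise `a = d / δ₀` would be
a local square at `v` (`ls_sq`, `LS.inv`, `LS.mul`), against `Inr.not_ls`; also `d ≠ 0`. `M = K(√d)`,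
`W`, `u = below K W`: for `u ≠ v, w` use `LN.ext`; for `u = v, w`: `a = δ² δ₀⁻¹` is a local square at `W`
(`LS.ext`), so `ln_of_ls_left`. Then `descent` with `rr_of_rep'` or `rr_of_norm'`.
-/

set_option autoImplicit false

open NumberField IsDedekindDomain CFT

namespace Pool.Agent.H57O

section

variable {K : Type} [Field K] [NumberField K]

theorem r5_ls {s t : K} {v : Pr K} (hv : Inr v s) (htv : v.valuation K (t ^ 2) < v.valuation K 4) :
    LS v (1 + (1 + 4 * s ^ 2) * t ^ 2) := by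
  refine ls_one_add v ?_
  rw [map_mul, hv.unit, one_mul]
  exact htv

theorem rr_complete' {s c t : K} {v w : Pr K} (hv : Inr v s) (hw : Inr w s) (hc : c ≠ 0)
    (h : ∀ u : Pr K, u ≠ v → u ≠ w → LN u (1 + 4 * s ^ 2) c)
    (htv : v.valuation K (t ^ 2) < v.valuation K 4) (htw : w.valuation K (t ^ 2) < w.valuation K 4) :
    RR c (1 + 4 * s ^ 2) t := by
  have ha : 1 + 4 * s ^ 2 ≠ 0 := by
    intro h0
    have h1 := hv.unit
    rw [h0, map_zero] at h1
    exact zero_ne_one h1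
  have h2 : (2 : K) ≠ 0 := two_ne_zero
  have hδv := r5_ls hv htv
  have hδw := r5_ls hw htw
  have hδ0 : 1 + (1 + 4 * s ^ 2) * t ^ 2 ≠ 0 := hδv.ne_zero
  have hd : ∀ g : K, g ^ 2 ≠ (1 + 4 * s ^ 2) * (1 + (1 + 4 * s ^ 2) * t ^ 2) := by
    intro g hg
    have hg0 : g ≠ 0 := by
      rintro rfl
      rw [zero_pow two_ne_zero] at hg
      exact mul_ne_zero ha hδ0 hg.symm
    apply hv.not_ls
    have e : 1 + 4 * s ^ 2 = g ^ 2 * (1 + (1 + 4 * s ^ 2) * t ^ 2)⁻¹ := by
      rw [hg, mul_assoc, mul_inv_cancel₀ hδ0, mul_one]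
    rw [e]
    exact (ls_sq v hg0).mul hδv.inv
  obtain ⟨M, iM1, iM2, iM3, δ, hδ, hM⟩ := exists_quad ((1 + 4 * s ^ 2) * (1 + (1 + 4 * s ^ 2) * t ^ 2)) hd
  have key : ∀ W : Pr M, LN W (1 + 4 * (algebraMap K M s) ^ 2) (algebraMap K M c) := by
    intro W
    have e : (1 + 4 * (algebraMap K M s) ^ 2 : M) = algebraMap K M (1 + 4 * s ^ 2) := by
      rw [map_add, map_one, map_mul, map_pow, map_ofNat]
    have hc' : algebraMap K M c ≠ 0 := (map_ne_zero _).2 hc
    have hδ0' : algebraMap K M (1 + (1 + 4 * s ^ 2) * t ^ 2) ≠ 0 := (map_ne_zero _).2 hδ0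
    have hδM : δ ≠ 0 := by
      rintro rfl
      rw [zero_pow two_ne_zero] at hδ
      exact (mul_ne_zero ha hδ0) ((map_eq_zero (algebraMap K M)).1 hδ.symm)
    have hin : LS (below K W) (1 + (1 + 4 * s ^ 2) * t ^ 2) →
        LN W (1 + 4 * (algebraMap K M s) ^ 2) (algebraMap K M c) := by
      intro hl
      have hl' := hl.ext W
      refine ln_of_ls_left ?_ hc'
      have e2 : (1 + 4 * (algebraMap K M s) ^ 2 : M) = δ ^ 2 * (algebraMap K M (1 + (1 + 4 * s ^ 2) * t ^ 2))⁻¹ := by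
        rw [hδ, e, map_mul, mul_assoc, mul_inv_cancel₀ hδ0', mul_one]
      rw [e2]
      exact (ls_sq W hδM).mul hl'.inv
    by_cases hWv : below K W = v
    · exact hin (by rw [hWv]; exact hδv)
    · by_cases hWw : below K W = w
      · exact hin (by rw [hWw]; exact hδw)
      · rw [e]
        exact (h _ hWv hWw).ext W
  rcases descent hd ha hc hδ hM key with ⟨α, β, γ, h5⟩ | ⟨x, y, h5⟩
  · exact rr_of_rep' ha h5
  · exact rr_of_norm' h2 hc h5 _

end

end Pool.Agent.H57O
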