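import Pool.Agent.Lib.H57O.Cert
import Pool.Agent.Lib.H57O.Q8
import Pool.Agent.Lib.H57O.R4
import Pool.Agent.Lib.H57O.R5
import Pool.Agent.Lib.H57O.C3
import Pool.Agent.Lib.H57O.F2

/-!
Chunk F3 (M). Completeness. `y = x⁻¹`, `Y = y ^ m`. `exists_inr_two` gives `s ∈ 𝓞 K` with
`v₀ (s - s₀) < 1`, `Inr v₀ s`, `Inr w s`; `a = 1 + 4 s² ≠ 0` (`Inr.unit`); `exists_two` gives `c` of
order `1` at `v₀`, `w`. The conditions at `v₀`: `v₀ (s - s₀) < 1` means order `≥ 1 = od ϖ` (or `s = s₀`).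
The four `RR`: `rr_complete` for `t = Y / 4`, `Y / (4 c)`, `rr_complete'` for `t = Y / 4`, `Y / (4 a)`;
orders at `u = v₀, w` (`e = od u 2`, `od y ≥ 1`, `3 e < m`): `od (c t²) = 1 + 2 m od y - 4 e > 0`,
resp. `2 m od y - 4 e - 1 > 0` (`2 m > 6 e ≥ 4 e + …`; note `m ≥ 3 e + 1`), and
`od (t²) = 2 m od y - 4 e > 2 e = od 4`.
-/

set_option autoImplicit false

open NumberField IsDedekindDomain CFT

namespace Pool.Agent.H57O

section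

variable {K : Type} [Field K] [NumberField K]

theorem f3_lt_one {u : Pr K} {x : K} (hx : x ≠ 0) (h : 0 < od u x) : u.valuation K x < 1 := by
  rw [val_eq u hx, ← WithZero.exp_zero, WithZero.exp_lt_exp]
  omega

theorem f3_vals {u : Pr K} {x a c : K} {m : ℕ} (hx : x ≠ 0) (h : 1 < u.valuation K x) (hc : c ≠ 0) (hcu : od u c = 1)
    (ha : a ≠ 0) (hau : od u a = 0) (hm : 3 * od u (2 : K) < (m : ℤ)) :
    u.valuation K (c * (x⁻¹ ^ m / 4) ^ 2) < 1 ∧ u.valuation K (c * (x⁻¹ ^ m / (4 * c)) ^ 2) < 1 ∧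
      u.valuation K ((x⁻¹ ^ m / 4) ^ 2) < u.valuation K 4 ∧ u.valuation K ((x⁻¹ ^ m / (4 * a)) ^ 2) < u.valuation K 4 := by
  have h4 : (4 : K) ≠ 0 := by norm_num
  have hy : x⁻¹ ≠ 0 := inv_ne_zero hx
  have hY : x⁻¹ ^ m ≠ 0 := pow_ne_zero m hy
  have he := f2_od_two u
  have hxo : od u x < 0 := by
    rw [val_eq u hx, ← WithZero.exp_zero, WithZero.exp_lt_exp] at h
    omega
  have hYo : (m : ℤ) ≤ od u (x⁻¹ ^ m) := by
    rw [f2_od_pow u hy, od_inv]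
    have h1 : (1 : ℤ) ≤ -od u x := by omega
    calc (m : ℤ) = m * 1 := (mul_one _).symm
      _ ≤ m * -od u x := mul_le_mul_of_nonneg_left h1 (Nat.cast_nonneg m)
  have hp : ∀ {z : K}, z ≠ 0 → od u (z ^ 2) = 2 * od u z := fun hz => by
    rw [f2_od_pow u hz]
    norm_num
  have ht1 : x⁻¹ ^ m / 4 ≠ 0 := div_ne_zero hY h4
  have ht2 : x⁻¹ ^ m / (4 * c) ≠ 0 := div_ne_zero hY (mul_ne_zero h4 hc)
  have ht3 : x⁻¹ ^ m / (4 * a) ≠ 0 := div_ne_zero hY (mul_ne_zero h4 ha)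
  have o1 : od u (x⁻¹ ^ m / 4) = od u (x⁻¹ ^ m) - 2 * od u (2 : K) := by
    rw [f2_od_div u hY h4, f2_od_four]
  have o2 : od u (x⁻¹ ^ m / (4 * c)) = od u (x⁻¹ ^ m) - (2 * od u (2 : K) + 1) := by
    rw [f2_od_div u hY (mul_ne_zero h4 hc), od_mul u h4 hc, f2_od_four, hcu]
  have o3 : od u (x⁻¹ ^ m / (4 * a)) = od u (x⁻¹ ^ m) - (2 * od u (2 : K) + 0) := by
    rw [f2_od_div u hY (mul_ne_zero h4 ha), od_mul u h4 ha, f2_od_four, hau]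
  refine ⟨f3_lt_one (mul_ne_zero hc (pow_ne_zero 2 ht1)) ?_, f3_lt_one (mul_ne_zero hc (pow_ne_zero 2 ht2)) ?_, ?_, ?_⟩
  · rw [od_mul u hc (pow_ne_zero 2 ht1), hp ht1, hcu, o1]
    omega
  · rw [od_mul u hc (pow_ne_zero 2 ht2), hp ht2, hcu, o2]
    omega
  · rw [val_eq u (pow_ne_zero 2 ht1), val_eq u h4, WithZero.exp_lt_exp, hp ht1, o1, f2_od_four]
    omega
  · rw [val_eq u (pow_ne_zero 2 ht3), val_eq u h4, WithZero.exp_lt_exp, hp ht3, o3, f2_od_four]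
    omega

theorem f3_div {v : Pr K} {z ϖ : K} (hϖ : od v ϖ = 1) (hϖ0 : ϖ ≠ 0) (h : v.valuation K z < 1) : v.valuation K (z / ϖ) ≤ 1 := by
  by_cases hz : z = 0
  · rw [hz, zero_div, map_zero]
    exact zero_le
  rw [val_eq v hz, ← WithZero.exp_zero, WithZero.exp_lt_exp] at h
  rw [val_eq v (div_ne_zero hz hϖ0), ← WithZero.exp_zero, WithZero.exp_le_exp, f2_od_div v hz hϖ0]
  omega

theorem cert_complete {v₀ w : Pr K} (hw : w ≠ v₀) {s₀ : 𝓞 K} {ϖ x : K} {m : ℕ}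
    (hs₀ : Inr v₀ (s₀ : K)) (hϖ : od v₀ ϖ = 1) (hϖ0 : ϖ ≠ 0)
    (hm : ∀ u : Pr K, 3 * od u (2 : K) < (m : ℤ)) (h0 : 1 < v₀.valuation K x)
    (h1 : 1 < w.valuation K x) : Cert v₀ (s₀ : K) ϖ m x := by
  have hx : x ≠ 0 := by
    rintro rfl
    rw [map_zero] at h0
    exact absurd h0 (not_lt.2 zero_le)
  obtain ⟨s, hs1, hs2, hs3⟩ := exists_inr_two (Ne.symm hw) hs₀
  obtain ⟨c, hc, hcv, hcw, hLN⟩ := exists_two s (Ne.symm hw) hs2 hs3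
  have ha : 1 + 4 * (s : K) ^ 2 ≠ 0 := by
    intro h0
    have h1 := hs2.unit
    rw [h0, map_zero] at h1
    exact zero_ne_one h1
  have hav : od v₀ (1 + 4 * (s : K) ^ 2) = 0 := by
    unfold od
    rw [hs2.unit, WithZero.log_one, neg_zero]
  have haw : od w (1 + 4 * (s : K) ^ 2) = 0 := by
    unfold od
    rw [hs3.unit, WithZero.log_one, neg_zero]
  obtain ⟨p1, p2, p3, p4⟩ := f3_vals hx h0 hc hcv ha hav (hm v₀)
  obtain ⟨q1, q2, q3, q4⟩ := f3_vals hx h1 hc hcw ha haw (hm w)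
  have hone : ∀ {z : K}, z ≠ 0 → od v₀ z = 0 → v₀.valuation K z ≤ 1 := fun hz h => by
    rw [val_eq v₀ hz, h, neg_zero, WithZero.exp_zero]
  exact ⟨x⁻¹, s, c, mul_inv_cancel₀ hx, hc, ha, f3_div hϖ hϖ0 hs1,
    hone (div_ne_zero hc hϖ0) (by rw [f2_od_div v₀ hc hϖ0, hcv, hϖ, sub_self]),
    hone (div_ne_zero hϖ0 hc) (by rw [f2_od_div v₀ hϖ0 hc, hcv, hϖ, sub_self]),
    rr_complete hs2 hs3 hc hcv hcw hLN p1 q1, rr_complete hs2 hs3 hc hcv hcw hLN p2 q2,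
    rr_complete' hs2 hs3 hc hLN p3 q3, rr_complete' hs2 hs3 hc hLN p4 q4⟩

end

end Pool.Agent.H57O
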