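import Pool.Agent.Lib.H57O.Cert
import Pool.Agent.Lib.H60.UDef.Criterion

/-!
Chunk F4 (S/M). The certificate is Diophantine (with parameters). `dioR_rr`: `RR` at polynomial functions:
`DioR.eq` for the ternary form with three more variables, `DioR.ex` (model: `dioP_rSet` in
H60.UDef.Subfield). `dioP_cert`: variables `y, s, c, c'` with `c c' = 1`, `a'` with
`(1 + 4 s²) a' = 1`; `y ^ m / (4 c) = y ^ m * (1/4) * c'`; `v₀` conditions by `DioR.app`
(`(s - s₀) * ϖ⁻¹`, `c * ϖ⁻¹`, `ϖ * c'`).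
-/

set_option autoImplicit false

open NumberField IsDedekindDomain CFT Pool.Agent.H60.UDef

namespace Pool.Agent.H57O

section

variable {K : Type} [Field K] [NumberField K]

theorem dioR_rr {α : Type} {A C T : (α → K) → K} (hA : PF A) (hC : PF C) (hT : PF T) :
    DioR K (fun v => RR (A v) (C v) (T v)) := by
  have h1 : DioR K (fun v : α ⊕ Fin 3 → K =>
      1 + C (v ∘ Sum.inl) * T (v ∘ Sum.inl) ^ 2 = v (Sum.inr 0) ^ 2
        - A (v ∘ Sum.inl) * v (Sum.inr 1) ^ 2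
        + A (v ∘ Sum.inl) * C (v ∘ Sum.inl) * v (Sum.inr 2) ^ 2) :=
    DioR.eq ((PF.const 1).add ((hC.comp _).mul ((hT.comp _).pow 2)))
      ((((PF.var _).pow 2).sub ((hA.comp _).mul ((PF.var _).pow 2))).add
        (((hA.comp _).mul (hC.comp _)).mul ((PF.var _).pow 2)))
  refine h1.ex.congr fun v => ?_
  simp only [Sum.elim_comp_inl, Sum.elim_inr]
  constructor
  · rintro ⟨w, hw⟩
    exact ⟨w 0, w 1, w 2, hw⟩
  · rintro ⟨r, z, w, h⟩
    exact ⟨![r, z, w], h⟩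

theorem dioP_cert {v₀ : Pr K} (hv : DioP K (fun x => v₀.valuation K x ≤ 1)) (s₀ ϖ : K) (m : ℕ) :
    DioP K (Cert v₀ s₀ ϖ m) := by
  -- variables `y, s, c, c', a'`
  let V := Fin 1 ⊕ Fin 5
  have pa : PF (fun v : V → K => 1 + 4 * v (Sum.inr 1) ^ 2) :=
    (PF.const 1).add ((PF.const 4).mul ((PF.var _).pow 2))
  have pc : PF (fun v : V → K => v (Sum.inr 2)) := PF.var _
  have py : PF (fun v : V → K => v (Sum.inr 0) ^ m * (1 / 4)) := ((PF.var _).pow m).mul (PF.const _)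
  have pyc : PF (fun v : V → K => v (Sum.inr 0) ^ m * (1 / 4) * v (Sum.inr 3)) := py.mul (PF.var _)
  have pya : PF (fun v : V → K => v (Sum.inr 0) ^ m * (1 / 4) * v (Sum.inr 4)) := py.mul (PF.var _)
  have b1 : DioR K (fun v : V → K => v (Sum.inl 0) * v (Sum.inr 0) = 1) :=
    DioR.eq ((PF.var _).mul (PF.var _)) (PF.const _)
  have b2 : DioR K (fun v : V → K => v (Sum.inr 2) * v (Sum.inr 3) = 1) :=
    DioR.eq ((PF.var _).mul (PF.var _)) (PF.const _)
  have b3 : DioR K (fun v : V → K => (1 + 4 * v (Sum.inr 1) ^ 2) * v (Sum.inr 4) = 1) :=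
    DioR.eq (pa.mul (PF.var _)) (PF.const _)
  have b4 : DioR K (fun v : V → K => v₀.valuation K ((v (Sum.inr 1) - s₀) * ϖ⁻¹) ≤ 1) :=
    DioR.app hv (((PF.var _).sub (PF.const _)).mul (PF.const _))
  have b5 : DioR K (fun v : V → K => v₀.valuation K (v (Sum.inr 2) * ϖ⁻¹) ≤ 1) :=
    DioR.app hv ((PF.var _).mul (PF.const _))
  have b6 : DioR K (fun v : V → K => v₀.valuation K (ϖ * v (Sum.inr 3)) ≤ 1) :=
    DioR.app hv ((PF.const _).mul (PF.var _))
  have b7 := dioR_rr pa pc py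
  have b8 := dioR_rr pa pc pyc
  have b9 := dioR_rr pc pa py
  have b10 := dioR_rr pc pa pya
  refine (b1.and (b2.and (b3.and (b4.and (b5.and (b6.and (b7.and (b8.and
    (b9.and b10))))))))).ex.dioP.congr fun x => ?_
  simp only [Sum.elim_inl, Sum.elim_inr]
  constructor
  · rintro ⟨w, h1, h2, h3, h4, h5, h6, h7, h8, h9, h10⟩
    have hc : w 2 ≠ 0 := left_ne_zero_of_mul_eq_one h2
    have ha : 1 + 4 * w 1 ^ 2 ≠ 0 := left_ne_zero_of_mul_eq_one h3
    have ec : w 3 = (w 2)⁻¹ := eq_inv_of_mul_eq_one_right h2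
    have ea : w 4 = (1 + 4 * w 1 ^ 2)⁻¹ := eq_inv_of_mul_eq_one_right h3
    refine ⟨w 0, w 1, w 2, h1, hc, ha, ?_, ?_, ?_, ?_, ?_, ?_, ?_⟩
    · rw [div_eq_mul_inv]
      exact h4
    · rw [div_eq_mul_inv]
      exact h5
    · rw [div_eq_mul_inv, ← ec]
      exact h6
    · have e : w 0 ^ m / 4 = w 0 ^ m * (1 / 4) := by ring
      rw [e]
      exact h7
    · have e : w 0 ^ m / (4 * w 2) = w 0 ^ m * (1 / 4) * w 3 := by
        rw [ec]
        field_simp
      rw [e]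
      exact h8
    · have e : w 0 ^ m / 4 = w 0 ^ m * (1 / 4) := by ring
      rw [e]
      exact h9
    · have e : w 0 ^ m / (4 * (1 + 4 * w 1 ^ 2)) = w 0 ^ m * (1 / 4) * w 4 := by
        rw [ea]
        field_simp
      rw [e]
      exact h10
  · rintro ⟨y, s, c, h1, hc, ha, h4, h5, h6, h7, h8, h9, h10⟩
    refine ⟨![y, s, c, c⁻¹, (1 + 4 * s ^ 2)⁻¹], ?_⟩
    have e1 : y ^ m / 4 = y ^ m * (1 / 4) := by ring
    have e2 : y ^ m / (4 * c) = y ^ m * (1 / 4) * c⁻¹ := by field_simp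
    have e3 : y ^ m / (4 * (1 + 4 * s ^ 2)) = y ^ m * (1 / 4) * (1 + 4 * s ^ 2)⁻¹ := by
      field_simp
    rw [e1] at h7 h9
    rw [e2] at h8
    rw [e3] at h10
    rw [div_eq_mul_inv] at h4 h5 h6
    exact ⟨h1, mul_inv_cancel₀ hc, mul_inv_cancel₀ ha, h4, h5, h6, h7, h8, h9, h10⟩

end

end Pool.Agent.H57O
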