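import Pool.Agent.Lib.H57O.F0
import Pool.Agent.Lib.H57O.F1
import Pool.Agent.Lib.H57O.F2
import Pool.Agent.Lib.H57O.F3
import Pool.Agent.Lib.H57O.F4

/-!
Chunk F5 (M). Assembly. `v₀` from `exists_v0`, `s₀` from `exists_inr v₀`, `ϖ` of order `1` (`b15_ex`), `π` from
`exists_pi v₀`, `m` from `exists_m`. For `x ∈ K`:
`¬ IsIntegral ℤ x ↔ 1 < v₀.valuation x ∨ Cert v₀ s₀ ϖ m (x + π⁻¹)`.
* left to right: some `w` has `w.valuation x > 1` (`int_of_od` in B02, or
  `HeightOneSpectrum.mem_integers_of_valuation_le_one`). If `v₀.valuation x ≤ 1` then `w ≠ v₀`,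
  `v₀ (π⁻¹) > 1` so `v₀ (x + π⁻¹) > 1`, and `w (π⁻¹) = 1` so `w (x + π⁻¹) > 1`: `cert_complete`.
* right to left: integral elements have all valuations `≤ 1` (`valuation_le_one`); `cert_sound` gives
  `w ≠ v₀` with `w (x + π⁻¹) > 1`, so `w x > 1`.
`1 < v₀.valuation x` is Diophantine: `∃ y, x y = 1 ∧ v₀ (y / ϖ) ≤ 1`. So the set is `DioP`; parameters
are removed by `DioP.elim` (integrality is invariant under automorphisms), `univDef_of_dio`.
-/

set_option autoImplicit false

open NumberField IsDedekindDomain CFT Pool.Agent.H60.UDef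

namespace Pool.Agent.H57O

section

theorem f5_exists (K : Type) [Field K] [NumberField K] {x : K} (hx : ¬ IsIntegral ℤ x) :
    ∃ w : Pr K, 1 < w.valuation K x := by
  by_contra hcon
  push Not at hcon
  obtain ⟨r, hr⟩ := HeightOneSpectrum.mem_integers_of_valuation_le_one K x hcon
  exact hx (by
    rw [← hr]
    exact r.2)

theorem not_int_iff (K : Type) [Field K] [NumberField K] :
    DioP K (fun x => ¬ IsIntegral ℤ x) := by
  obtain ⟨v₀, hv⟩ := exists_v0 K
  obtain ⟨s₀, hs₀⟩ := exists_inr v₀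
  obtain ⟨ϖ, hϖ0, hϖ⟩ := b15_ex v₀ 1
  obtain ⟨π, hπ0, hπ, hπ'⟩ := exists_pi v₀
  obtain ⟨m, -, hm⟩ := exists_m K
  have h1 : DioR K (fun v : Fin 1 ⊕ Fin 1 → K => v (Sum.inl 0) * v (Sum.inr 0) = 1) :=
    DioR.eq ((PF.var _).mul (PF.var _)) (PF.const _)
  have h2 : DioR K (fun v : Fin 1 ⊕ Fin 1 → K => v₀.valuation K (v (Sum.inr 0) * ϖ⁻¹) ≤ 1) :=
    DioR.app hv ((PF.var _).mul (PF.const _))
  have h3 : DioR K (fun v : Fin 1 → K => Cert v₀ (s₀ : K) ϖ m (v 0 + π⁻¹)) :=
    DioR.app (dioP_cert hv _ ϖ m) ((PF.var _).add (PF.const _))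
  refine ((h1.and h2).ex.or h3).dioP.congr fun x => ?_
  simp only [Sum.elim_inl, Sum.elim_inr]
  have hexp : v₀.valuation K ϖ = WithZero.exp (-(1 : ℤ)) := by
    rw [val_eq v₀ hϖ0, hϖ]
  constructor
  · rintro (⟨w, h4, h5⟩ | h4) hint
    · -- `v₀ x ≤ 1` and `v₀ y < 1`
      have h6 : v₀.valuation K x ≤ 1 := by
        have := v₀.valuation_le_one (K := K) (⟨x, hint⟩ : 𝓞 K)
        exact this
      have h7 : v₀.valuation K (w 0) < 1 := by
        rw [map_mul, map_inv₀, hexp] at h5
        have h8 : v₀.valuation K (w 0) ≤ WithZero.exp (-(1 : ℤ)) := by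
          rwa [mul_inv_le_iff₀ (WithZero.exp_pos), one_mul] at h5
        refine h8.trans_lt ?_
        rw [← WithZero.exp_zero, WithZero.exp_lt_exp]
        norm_num
      have h8 : v₀.valuation K x * v₀.valuation K (w 0) = 1 := by
        rw [← map_mul, h4, map_one]
      have h9 : v₀.valuation K x * v₀.valuation K (w 0) < 1 := by
        calc v₀.valuation K x * v₀.valuation K (w 0) ≤ 1 * v₀.valuation K (w 0) := by
              gcongr
          _ < 1 := by rwa [one_mul]
      exact absurd h8 h9.ne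
    · obtain ⟨w, hw, h5⟩ := cert_sound hs₀ hϖ h4
      have h6 : w.valuation K x ≤ 1 := by
        have := w.valuation_le_one (K := K) (⟨x, hint⟩ : 𝓞 K)
        exact this
      have h7 : w.valuation K π⁻¹ = 1 := by
        rw [val_eq w (inv_ne_zero hπ0), od_inv, hπ' w hw]
        simp
      have h8 : w.valuation K (x + π⁻¹) ≤ 1 :=
        (Valuation.map_add _ _ _).trans (max_le h6 h7.le)
      exact absurd h5 (not_lt.mpr h8)
  · intro hx
    by_cases h4 : v₀.valuation K x ≤ 1
    · right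
      obtain ⟨w, hw⟩ := f5_exists K hx
      have hwv : w ≠ v₀ := by
        rintro rfl
        exact absurd hw (not_lt.mpr h4)
      have h5 : 1 < v₀.valuation K π⁻¹ := by
        rw [val_eq v₀ (inv_ne_zero hπ0), od_inv, ← WithZero.exp_zero, WithZero.exp_lt_exp]
        omega
      have h6 : w.valuation K π⁻¹ = 1 := by
        rw [val_eq w (inv_ne_zero hπ0), od_inv, hπ' w hwv]
        simp
      refine cert_complete hwv hs₀ hϖ hϖ0 hm ?_ ?_
      · rw [Valuation.map_add_eq_of_lt_right _ (h4.trans_lt h5)]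
        exact h5
      · rw [Valuation.map_add_eq_of_lt_left _ (by rw [h6]; exact hw)]
        exact hw
    · left
      push Not at h4
      have hx0 : x ≠ 0 := by
        rintro rfl
        rw [map_zero] at h4
        exact absurd h4 (not_lt.mpr zero_le_one)
      refine ⟨fun _ => x⁻¹, mul_inv_cancel₀ hx0, ?_⟩
      have h5 : od v₀ x ≤ -1 := by
        have h6 := h4
        rw [val_eq v₀ hx0, ← WithZero.exp_zero, WithZero.exp_lt_exp] at h6
        omega
      rw [val_eq v₀ (mul_ne_zero (inv_ne_zero hx0) (inv_ne_zero hϖ0)),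
        od_mul v₀ (inv_ne_zero hx0) (inv_ne_zero hϖ0), od_inv, od_inv, hϖ, ← WithZero.exp_zero,
        WithZero.exp_le_exp]
      omega

/-- The ring of integers of a number field is universally definable. -/
theorem univDef_int (K : Type) [Field K] [NumberField K] [FirstOrder.Ring.CompatibleRing K] :
    UnivDef K (fun a => IsIntegral ℤ a) := by
  refine univDef_of_dio (X := fun a : K => IsIntegral ℤ a) ?_
  refine (not_int_iff K).elim fun σ x hx hint => hx ?_
  have h := hint.map (σ.symm : K →+* K).toIntAlgHom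
  simpa using h

end

end Pool.Agent.H57O
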