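import Pool.Agent.Lib.H57O.Defs
import Pool.Agent.Lib.H60R.D07
import Pool.Agent.Lib.CFT.N2
import Pool.Agent.Lib.CFT.B19

set_option autoImplicit false
set_option linter.unusedSectionVars false

/-! C1: Hasse norm theorem for the quadratic extensions `K(√(1 + 4 s²))`, explicit form. -/

open NumberField IsDedekindDomain CFT
open Pool.Agent.H60R

namespace Pool.Agent.H57O

variable {F : Type} [Field F] [NumberField F] {L : Type} [Field L] [NumberField L] [Algebra F L] {d : F} {δ : L}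

/-- Local norms: `LN` and `LocN`. -/
theorem c1_locN (hd : ¬ IsSquare d) (hδ : δ ^ 2 = algebraMap F L d) (h2 : Module.finrank F L = 2) {v : Pr F} {c : F}
    (h : LN v d c) : LocN F L v c := by
  intro N
  obtain ⟨x, y, hxy, hv⟩ := h N
  have hn := quad_norm hd hδ h2 x y
  refine ⟨algebraMap F L x + algebraMap F L y * δ, ?_, ?_⟩
  · intro h0
    have hfin : Module.Finite F L := Module.finite_of_finrank_pos (by rw [h2]; norm_num)
    rw [h0, Algebra.norm_zero] at hn
    exact hxy hn.symm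
  · rw [hn]
    exact hv

/-- Real places: if `d` is positive there, a real embedding extends. -/
theorem c1_locR (hd : ¬ IsSquare d) (hδ : δ ^ 2 = algebraMap F L d) (h2 : Module.finrank F L = 2) (φ : F →+* ℝ) (c : F)
    (hpos : 0 < φ d) : LocR L φ c := by
  right
  have hfin : FiniteDimensional F L := Module.finite_of_finrank_pos (by rw [h2]; norm_num)
  let alg : Algebra F ℂ := (Complex.ofRealHom.comp φ).toAlgebra
  have halg : ∀ r : F, algebraMap F ℂ r = ((φ r : ℝ) : ℂ) := fun r => rfl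
  have s : L →ₐ[F] ℂ := IsAlgClosed.lift
  have hs : (s δ) ^ 2 = ((φ d : ℝ) : ℂ) := by
    rw [← map_pow, hδ, s.commutes, halg]
  have hsq : (s δ) ^ 2 = ((Real.sqrt (φ d) : ℝ) : ℂ) ^ 2 := by
    rw [hs, ← Complex.ofReal_pow, Real.sq_sqrt hpos.le]
  have hreal : (starRingEnd ℂ) (s δ) = s δ := by
    rcases sq_eq_sq_iff_eq_or_eq_neg.1 hsq with h | h
    · rw [h, Complex.conj_ofReal]
    · rw [h, map_neg, Complex.conj_ofReal]
  obtain ⟨ψ, hψ, _⟩ := n1_real alg halg s (fun z => by
    obtain ⟨a, b, rfl⟩ := d07_rep hd hδ h2 z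
    rw [map_add, map_mul, s.commutes, s.commutes, halg, halg, map_add, map_mul, Complex.conj_ofReal, Complex.conj_ofReal, hreal])
  exact ⟨ψ, hψ⟩

theorem c1_cyc (h2 : Module.finrank F L = 2) : IsCyclic (L ≃ₐ[F] L) := by
  have hg : IsGalois F L := quad_galois h2
  have hfin : FiniteDimensional F L := Module.finite_of_finrank_pos (by rw [h2]; norm_num)
  have h3 : Nat.card (L ≃ₐ[F] L) = 2 := by
    rw [IsGalois.card_aut_eq_finrank, h2]
  have hp : Fact (Nat.Prime 2) := ⟨Nat.prime_two⟩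
  exact isCyclic_of_prime_card h3

theorem c1_pos (φ : F →+* ℝ) (s : F) : 0 < φ (1 + 4 * s ^ 2) := by
  rw [map_add, map_one, map_mul, map_pow]
  have : φ 4 = 4 := map_ofNat φ 4
  rw [this]
  positivity

/-- C1. A nonzero `c` which is a local norm everywhere is a norm. -/
theorem hasse_quad (s c : F) (ha : 1 + 4 * s ^ 2 ≠ 0) (hc : c ≠ 0) (h : ∀ v : Pr F, LN v (1 + 4 * s ^ 2) c) :
    ∃ x y : F, c = x ^ 2 - (1 + 4 * s ^ 2) * y ^ 2 := by
  classical
  by_cases hsq : IsSquare (1 + 4 * s ^ 2)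
  · obtain ⟨b, hb⟩ := hsq
    have hb0 : b ≠ 0 := by
      rintro rfl
      rw [mul_zero] at hb
      exact ha hb
    refine ⟨(c + 1) / 2, (c - 1) / (2 * b), ?_⟩
    rw [hb]
    field_simp
    ring
  · obtain ⟨L, iL1, iL2, iL3, δ, hδ, h2⟩ := quad_exists hsq
    have hg : IsGalois F L := quad_galois h2
    obtain ⟨S, hS⟩ : ∃ S : Finset (Pr F), S = (unr_fin (K := F) (L := L)).toFinset ∪ (dv c).support := ⟨_, rfl⟩
    obtain ⟨y, hy, hyc⟩ := hasse_gen (L := L) (c1_cyc h2) S (fun v hv => by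
      rw [hS, Finset.mem_union, Set.Finite.mem_toFinset]
      exact Or.inl hv) hc (fun v _ => c1_locN hsq hδ h2 (h v)) (fun φ => c1_locR hsq hδ h2 φ c (c1_pos φ s)) (fun w hw => by
      have h3 : od (below F w) c = 0 := by
        by_contra h0
        apply hw
        rw [hS, Finset.mem_union]
        exact Or.inr (Finsupp.mem_support_iff.2 h0)
      rw [h3]
      exact dvd_zero _)
    obtain ⟨a, b, hab⟩ := d07_rep hsq hδ h2 y
    refine ⟨a, b, ?_⟩
    rw [← hyc, hab, quad_norm hsq hδ h2]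

end Pool.Agent.H57O
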