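import Pool.Agent.Lib.H57O.Defs

/-!
The certificate for `x` not being integral. `v₀` a fixed prime, `s₀` with `Inr v₀ s₀`, `ϖ` of order `1`
at `v₀`, `m` large.
-/

set_option autoImplicit false

open NumberField IsDedekindDomain CFT

namespace Pool.Agent.H57O

section

variable {K : Type} [Field K] [NumberField K]

/-- The certificate. -/
def Cert (v₀ : Pr K) (s₀ ϖ : K) (m : ℕ) (x : K) : Prop :=
  ∃ y s c : K, x * y = 1 ∧ c ≠ 0 ∧ 1 + 4 * s ^ 2 ≠ 0 ∧ v₀.valuation K ((s - s₀) / ϖ) ≤ 1 ∧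
    v₀.valuation K (c / ϖ) ≤ 1 ∧ v₀.valuation K (ϖ / c) ≤ 1 ∧
    RR (1 + 4 * s ^ 2) c (y ^ m / 4) ∧ RR (1 + 4 * s ^ 2) c (y ^ m / (4 * c)) ∧
    RR c (1 + 4 * s ^ 2) (y ^ m / 4) ∧
    RR c (1 + 4 * s ^ 2) (y ^ m / (4 * (1 + 4 * s ^ 2)))

end

end Pool.Agent.H57O
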