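import Pool.Agent.Lib.CFT.B01
import Pool.Agent.Lib.CFT.B06
import Pool.Agent.Lib.CFT.B14
import Pool.Agent.Lib.CFT.B15

/-!
H57O (S14399, the ring of integers of a number field is universally definable): DEFINITIONS.

`LN v a c`: `c` is, up to factors arbitrarily near `1` at `v`, a norm from `K(√a)` (local norm at `v`).
`LS v g`: `g` is, up to factors arbitrarily near `1` at `v`, a square (local square at `v`).
`Inr v s`: `s` is integral at `v` and `X² - X - s²` has no root modulo `v`; so `v` is inert in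
`K(√(1 + 4 s²))` (also if `v` divides `2`).
`RR a c t`: `1 + c t²` is represented by the ternary form `⟨1, -a, a c⟩`.
Valuations: `v.valuation K x` (values in `ℤᵐ⁰`, large = many poles), order `CFT.od v x`.
-/

set_option autoImplicit false

open NumberField IsDedekindDomain CFT

namespace Pool.Agent.H57O

section

variable {K : Type} [Field K] [NumberField K]

/-- `c` is a norm at `v` from `K(√a)`. -/
def LN (v : Pr K) (a c : K) : Prop :=
  ∀ N : ℕ, ∃ x y : K, x ^ 2 - a * y ^ 2 ≠ 0 ∧
    v.valuation K (c / (x ^ 2 - a * y ^ 2) - 1) < WithZero.exp (-(N : ℤ))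

/-- `g` is a square at `v`. -/
def LS (v : Pr K) (g : K) : Prop :=
  ∀ N : ℕ, ∃ u : K, u ≠ 0 ∧ v.valuation K (g / u ^ 2 - 1) < WithZero.exp (-(N : ℤ))

/-- `v` is inert in `K(√(1 + 4 s²))`. -/
def Inr (v : Pr K) (s : K) : Prop :=
  v.valuation K s ≤ 1 ∧ ∀ u : K, v.valuation K u ≤ 1 → v.valuation K (u ^ 2 - u - s ^ 2) = 1

/-- `1 + c t²` is represented by `⟨1, -a, a c⟩`. -/
def RR (a c t : K) : Prop :=
  ∃ r z w : K, 1 + c * t ^ 2 = r ^ 2 - a * z ^ 2 + a * c * w ^ 2

end

end Pool.Agent.H57O
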