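import Pool.Agent.Lib.H72O.H1
import Pool.Agent.Lib.H72O.H2

/-! # H57O: second copy of H72O, chunk H3 -/

set_option autoImplicit false

open scoped Quaternion

noncomputable section

namespace H57O

open H72R H72G H72O Filter

theorem Conv_sub {R : ℕ → S3 → S3} {R' : S3 → S3} (hR' : Continuous R') (hc : Conv R R') {κ : ℕ → ℕ}
    (hκ : StrictMono κ) : Conv (fun n => R (κ n)) R' := by
  intro y y' hy
  have hz : Tendsto (Function.extend κ y fun _ => y') atTop (nhds y') := by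
    rw [tendsto_def] at hy ⊢
    intro U hU
    obtain ⟨N, hN⟩ := mem_atTop_sets.1 (hy U hU)
    refine mem_atTop_sets.2 ⟨κ N, fun m hm => ?_⟩
    rw [Set.mem_preimage]
    by_cases h : ∃ n, κ n = m
    · obtain ⟨n, rfl⟩ := h
      rw [hκ.injective.extend_apply]
      exact hN n (hκ.le_iff_le.1 hm)
    · rw [Function.extend_apply' _ _ _ h]
      exact mem_of_mem_nhds hU
  have h1 := (hc _ _ hz).comp hκ.tendsto_atTop
  refine h1.congr fun n => ?_
  simp only [Function.comp_apply]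
  rw [hκ.injective.extend_apply]

theorem bdd {φ : Flow ℝ S3} (hm : MinimalFlow φ) {R : ℕ → S3 → S3} {R' : S3 → S3} (hR : ∀ n, Continuous (R n))
    (hR' : Continuous R') (hp : ∀ n, PreservesOrbits φ (R n)) (hc : Conv R R') (hi : Function.Injective R')
    {x : ℕ → S3} {x' : S3} (hx : Tendsto x atTop (nhds x')) {t s : ℕ → ℝ} {M : ℝ} (ht : ∀ n, 0 ≤ t n ∧ t n ≤ M)
    (h : ∀ n, R n (φ (t n) (x n)) = φ (s n) (R n (x n))) : ¬ Tendsto s atTop atTop := by
  intro hs
  have hM : 0 ≤ M := (ht 0).1.trans (ht 0).2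
  have hphi : ∀ {a : ℕ → ℝ} {a' : ℝ} {z : ℕ → S3} {z' : S3}, Tendsto a atTop (nhds a') →
      Tendsto z atTop (nhds z') → Tendsto (fun n => φ (a n) (z n)) atTop (nhds (φ a' z')) := by
    intro a a' z z' ha hz
    have hcont : Continuous fun p : ℝ × S3 => φ p.1 p.2 := φ.continuous continuous_fst continuous_snd
    exact (hcont.tendsto (a', z')).comp (ha.prodMk_nhds hz)
  have hCc : IsClosed (R' '' ((fun r => φ r x') '' Set.Icc 0 M)) := by
    refine ((isCompact_Icc.image ?_).image hR').isClosed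
    exact φ.continuous continuous_id continuous_const
  have key : ∀ u : ℝ, 0 ≤ u → φ u (R' x') ∈ R' '' ((fun r => φ r x') '' Set.Icc 0 M) := by
    intro u hu
    have hr : ∀ n, ∃ r ∈ Set.Icc 0 M, u ≤ s n → R n (φ r (x n)) = φ u (R n (x n)) := by
      intro n
      by_cases hun : u ≤ s n
      · obtain ⟨r, h1, h2, h3⟩ := ivt hm (hR n) (hp n) (ht n).1 (h n) hu hun
        exact ⟨r, ⟨h1, h2.trans (ht n).2⟩, fun _ => h3⟩
      · exact ⟨0, ⟨le_rfl, hM⟩, fun h1 => absurd h1 hun⟩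
    choose r hr1 hr2 using hr
    obtain ⟨a, ha, ψ, hψ, hlim⟩ := isCompact_Icc.tendsto_subseq hr1
    have hcs := Conv_sub hR' hc hψ
    have hxs : Tendsto (fun n => x (ψ n)) atTop (nhds x') := hx.comp hψ.tendsto_atTop
    have h1 : Tendsto (fun n => R (ψ n) (φ (r (ψ n)) (x (ψ n)))) atTop (nhds (R' (φ a x'))) :=
      hcs _ _ (hphi hlim hxs)
    have h2 : Tendsto (fun n => φ u (R (ψ n) (x (ψ n)))) atTop (nhds (φ u (R' x'))) :=
      hphi tendsto_const_nhds (hcs _ _ hxs)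
    have h3 : (fun n => R (ψ n) (φ (r (ψ n)) (x (ψ n)))) =ᶠ[atTop] fun n => φ u (R (ψ n) (x (ψ n))) := by
      have h4 := (hs.comp hψ.tendsto_atTop).eventually_ge_atTop u
      exact h4.mono fun n hn => hr2 (ψ n) hn
    have h5 := tendsto_nhds_unique_of_eventuallyEq h1 h2 h3
    exact ⟨φ a x', ⟨a, ha, rfl⟩, h5⟩
  have huniv := half_dense hm hCc key
  have hmem : R' (φ (M + 1) x') ∈ R' '' ((fun r => φ r x') '' Set.Icc 0 M) := by
    rw [huniv]
    exact Set.mem_univ _
  obtain ⟨z, ⟨r, hr, rfl⟩, h1⟩ := hmem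
  have h2 := no_period hm x' (hi h1)
  have := hr.2
  linarith

end H57O
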