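import Pool.Agent.Lib.H57O.H3

/-! # H57O: second copy of H72O, chunk H4 -/

set_option autoImplicit false

open scoped Quaternion

noncomputable section

namespace H57O

open H72R H72G H72O Filter

theorem flow_lim (φ : Flow ℝ S3) {a : ℕ → ℝ} {a' : ℝ} {z : ℕ → S3} {z' : S3} (ha : Tendsto a atTop (nhds a'))
    (hz : Tendsto z atTop (nhds z')) : Tendsto (fun n => φ (a n) (z n)) atTop (nhds (φ a' z')) := by
  have hcont : Continuous fun p : ℝ × S3 => φ p.1 p.2 := φ.continuous continuous_fst continuous_snd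
  exact (hcont.tendsto (a', z')).comp (ha.prodMk_nhds hz)

theorem lim_key {φ : Flow ℝ S3} (hm : MinimalFlow φ) {R : ℕ → S3 → S3} {R' : S3 → S3} (hR : ∀ n, Continuous (R n))
    (hR' : Continuous R') (hp : ∀ n, PreservesOrbits φ (R n)) (hc : Conv R R') (hi : Function.Injective R')
    {x : ℕ → S3} {x' : S3} (hx : Tendsto x atTop (nhds x')) {t s : ℕ → ℝ} {t' : ℝ} (ht : Tendsto t atTop (nhds t'))
    (ht0 : ∀ n, 0 ≤ t n) (hs0 : ∀ n, 0 ≤ s n) (h : ∀ n, R n (φ (t n) (x n)) = φ (s n) (R n (x n))) :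
    ∃ s', 0 ≤ s' ∧ Tendsto s atTop (nhds s') ∧ R' (φ t' x') = φ s' (R' x') := by
  obtain ⟨M, hM⟩ := ht.bddAbove_range
  have hM' : ∀ n, t n ≤ M := fun n => hM (Set.mem_range_self n)
  obtain ⟨B, hB⟩ : ∃ B, ∀ n, s n ≤ B := by
    by_contra hcon
    push Not at hcon
    have hfr : ∀ n : ℕ, ∃ᶠ m in atTop, (n : ℝ) ≤ s m := by
      intro n
      by_contra h1
      rw [not_frequently, eventually_atTop] at h1
      obtain ⟨N, hN⟩ := h1
      obtain ⟨m, h2⟩ := hcon (n + ∑ i ∈ Finset.range N, s i)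
      have h3 : 0 ≤ ∑ i ∈ Finset.range N, s i := Finset.sum_nonneg fun i _ => hs0 i
      by_cases h4 : m < N
      · have h5 := Finset.single_le_sum (f := s) (fun i _ => hs0 i) (Finset.mem_range.2 h4)
        have h6 : (0 : ℝ) ≤ n := Nat.cast_nonneg n
        linarith
      · have h5 := hN m (not_lt.1 h4)
        have h6 : s m < n := not_le.1 h5
        linarith
    obtain ⟨κ, hκ, h1⟩ := extraction_forall_of_frequently hfr
    exact bdd hm (fun n => hR (κ n)) hR' (fun n => hp (κ n)) (Conv_sub hR' hc hκ) hi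
      (hx.comp hκ.tendsto_atTop) (t := fun n => t (κ n)) (s := fun n => s (κ n)) (M := M)
      (fun n => ⟨ht0 _, hM' _⟩) (fun n => h (κ n)) (tendsto_atTop_mono h1 tendsto_natCast_atTop_atTop)
  have sub : ∀ κ : ℕ → ℕ, StrictMono κ → ∃ ψ : ℕ → ℕ, StrictMono ψ ∧ ∃ b, 0 ≤ b ∧
      Tendsto (fun n => s (κ (ψ n))) atTop (nhds b) ∧ R' (φ t' x') = φ b (R' x') := by
    intro κ hκ
    obtain ⟨b, hb, ψ, hψ, hlim⟩ := isCompact_Icc.tendsto_subseq
      (x := fun n => s (κ n)) (s := Set.Icc 0 B) (fun n => ⟨hs0 _, hB _⟩)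
    have hκψ : StrictMono fun n => κ (ψ n) := hκ.comp hψ
    have hcs := Conv_sub hR' hc hκψ
    have hxs : Tendsto (fun n => x (κ (ψ n))) atTop (nhds x') := hx.comp hκψ.tendsto_atTop
    have hts : Tendsto (fun n => t (κ (ψ n))) atTop (nhds t') := ht.comp hκψ.tendsto_atTop
    have h1 := hcs _ _ (flow_lim φ hts hxs)
    have h2 := flow_lim φ hlim (hcs _ _ hxs)
    have h3 : (fun n => R (κ (ψ n)) (φ (t (κ (ψ n))) (x (κ (ψ n))))) =
        fun n => φ (((fun n => s (κ n)) ∘ ψ) n) (R (κ (ψ n)) (x (κ (ψ n)))) := by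
      funext n
      exact h (κ (ψ n))
    rw [h3] at h1
    exact ⟨ψ, hψ, b, hb.1, hlim, tendsto_nhds_unique h1 h2⟩
  obtain ⟨-, -, s', hs', -, heq⟩ := sub id strictMono_id
  refine ⟨s', hs', ?_, heq⟩
  refine tendsto_of_subseq_tendsto fun ns hns => ?_
  obtain ⟨ρ, -, hρ⟩ := strictMono_subseq_of_tendsto_atTop hns
  obtain ⟨ψ, hψ, b, hb, hlim, heq'⟩ := sub (ns ∘ ρ) hρ
  have : b = s' := no_period hm (R' x') (heq'.symm.trans heq)
  subst this
  exact ⟨fun n => ρ (ψ n), hlim⟩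

end H57O
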