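import Pool.Agent.Lib.H57O.Defs

/-!
Chunk Q0 (S/M). Elementary facts on valuations of `K` at a prime `v`.
* `exists_int_cong`: every `x` integral at `v` is congruent modulo `v` to an algebraic integer.
  (`x = a / b` with `b` outside `v`: `CFT.frac_prime` in B03 or `IsDedekindDomain`; take `r` with
  `r b ≡ a` modulo `v` because `𝓞 K / v` is a field; or use the residue field of the localization.)
* `val_near_mul`, `val_near_inv`: products and inverses of elements `≡ 1` (see `Ray.mul`, `Ray.inv`
  in D0).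
* `exists_exp_lt`: for `x ≠ 0` some `exp (-N)` is smaller than `v x` (`val_eq`).
* `val_eq_one_of_near`: `v (x - 1) < 1` gives `v x = 1`.
-/

set_option autoImplicit false

open NumberField IsDedekindDomain CFT

namespace Pool.Agent.H57O

section

variable {K : Type} [Field K] [NumberField K]

theorem exists_int_cong (v : Pr K) {x : K} (hx : v.valuation K x ≤ 1) :
    ∃ r : 𝓞 K, v.valuation K (x - (r : K)) < 1 := by
  have hS : ∀ w ∈ ({v} : Finset (Pr K)), 0 ≤ od w x := by
    intro w hw
    rw [Finset.mem_singleton.1 hw]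
    by_cases hx0 : x = 0
    · rw [hx0, od_zero]
    · rw [val_eq v hx0, ← WithZero.exp_zero, WithZero.exp_le_exp] at hx
      omega
  obtain ⟨a, b, hb0, hxab, hb⟩ := frac_prime ({v} : Finset (Pr K)) hS
  have hbv : b ∉ v.asIdeal := hb v (Finset.mem_singleton_self v)
  obtain ⟨c, i, hi, hci⟩ := Ideal.IsMaximal.exists_inv v.isMaximal hbv
  have hb' : (b : K) ≠ 0 := fun h => hb0 (RingOfIntegers.coe_eq_zero_iff.1 h)
  have hv1 : v.valuation K (b : K) = 1 := by
    refine le_antisymm (v.valuation_le_one (K := K) b) ?_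
    rw [← not_lt]
    intro h
    exact hbv ((HeightOneSpectrum.valuation_lt_one_iff_mem (K := K) v b).1 h)
  have hvi : v.valuation K (i : K) < 1 := (HeightOneSpectrum.valuation_lt_one_iff_mem (K := K) v i).2 hi
  have hci' : (c : K) * (b : K) + (i : K) = 1 := by
    have h := congrArg (fun z : 𝓞 K => (z : K)) hci
    simpa using h
  refine ⟨a * c, ?_⟩
  have e : x - ((a * c : 𝓞 K) : K) = (a : K) * (i : K) / (b : K) := by
    have e1 : ((a * c : 𝓞 K) : K) = (a : K) * (c : K) := map_mul (algebraMap (𝓞 K) K) a c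
    rw [hxab, e1, eq_div_iff hb', sub_mul, div_mul_cancel₀ _ hb']
    linear_combination -(a : K) * hci'
  rw [e, map_div₀, map_mul, hv1, div_one]
  calc v.valuation K (a : K) * v.valuation K (i : K) ≤ 1 * v.valuation K (i : K) :=
        mul_le_mul_left (v.valuation_le_one (K := K) a) _
    _ = v.valuation K (i : K) := one_mul _
    _ < 1 := hvi


theorem val_eq_one_of_near (v : Pr K) {x : K} (h : v.valuation K (x - 1) < 1) :
    v.valuation K x = 1 := by
  have h2 : x = 1 + (x - 1) := by ring
  rw [h2]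
  exact Valuation.map_one_add_of_lt _ h


theorem val_near_mul (v : Pr K) {x y : K} {N : ℕ}
    (hx : v.valuation K (x - 1) < WithZero.exp (-(N : ℤ)))
    (hy : v.valuation K (y - 1) < WithZero.exp (-(N : ℤ))) :
    v.valuation K (x * y - 1) < WithZero.exp (-(N : ℤ)) := by
  have hy1 : v.valuation K y = 1 := val_eq_one_of_near v (hy.trans_le (exp_le_one N))
  have e : x * y - 1 = (x - 1) * y + (y - 1) := by ring
  rw [e]
  refine Valuation.map_add_lt _ ?_ hy
  rw [map_mul, hy1, mul_one]
  exact hx


theorem val_near_inv (v : Pr K) {x : K} {N : ℕ}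
    (hx : v.valuation K (x - 1) < WithZero.exp (-(N : ℤ))) :
    v.valuation K (x⁻¹ - 1) < WithZero.exp (-(N : ℤ)) := by
  have hx1 : v.valuation K x = 1 := val_eq_one_of_near v (hx.trans_le (exp_le_one N))
  have hx0 : x ≠ 0 := by
    intro h
    rw [h, map_zero] at hx1
    exact zero_ne_one hx1
  have e : x⁻¹ - 1 = -((x - 1) * x⁻¹) := by
    rw [sub_mul, mul_inv_cancel₀ hx0]
    ring
  rw [e, Valuation.map_neg, map_mul, map_inv₀, hx1, inv_one, mul_one]
  exact hx


theorem exists_exp_lt (v : Pr K) {x : K} (hx : x ≠ 0) :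
    ∃ N : ℕ, WithZero.exp (-(N : ℤ)) < v.valuation K x := by
  refine ⟨(od v x).toNat + 1, ?_⟩
  rw [val_eq v hx, WithZero.exp_lt_exp]
  push_cast
  omega


end

end Pool.Agent.H57O
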