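import Pool.Agent.Lib.H57O.Q0

/-!
Chunk Q1 (M). Newton iteration for square roots inside `K`.
`ls_one_add`: if `v z < v 4` then `1 + z` is a square at `v`. Put `u = 1 + z / 2`: `v (z / 2) < v 2 ≤ 1`,
so `v u = 1`, and `(1 + z) / u² = 1 + z'` with `z' = -(z / 2)² / u²`, `v z' = v(z)² / v(4)`; in orders
`od z' = 2 od z - od 4 ≥ od z + 1` (if `z' ≠ 0`). Induction on `N`: for every `z` with `v z < v 4`
there is `u` with `(1 + z) / u² - 1` of order `> N` (apply the statement for `z'`, multiply the two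
`u`). A convenient form of the induction: for all `N` and all `z` with
`v z < v 4 ∧ (z = 0 ∨ N ≤ od z + k)`, induction on `k`.
`ls_open`: `g = u² (1 + z)`, `z = g / u² - 1`; multiply the approximations by `u`.
-/

set_option autoImplicit false

open NumberField IsDedekindDomain CFT

namespace Pool.Agent.H57O

section

variable {K : Type} [Field K] [NumberField K]

theorem q1_val_two_le (v : Pr K) : v.valuation K (2 : K) ≤ 1 := by
  have e : algebraMap (𝓞 K) K 2 = 2 := map_ofNat (algebraMap (𝓞 K) K) 2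
  rw [← e]
  exact v.valuation_le_one (K := K) (2 : 𝓞 K)

/-- One Newton step. -/
theorem q1_step (v : Pr K) {z : K} (hz0 : z ≠ 0) (hz : v.valuation K z < v.valuation K 4) :
    ∃ u z' : K, u ≠ 0 ∧ (1 + z) / u ^ 2 = 1 + z' ∧ v.valuation K z' < v.valuation K z := by
  have h2 : (2 : K) ≠ 0 := two_ne_zero
  have hv2 : v.valuation K (2 : K) ≠ 0 := (Valuation.ne_zero_iff _).2 h2
  have hvz : v.valuation K z ≠ 0 := (Valuation.ne_zero_iff _).2 hz0
  have h4 : v.valuation K (4 : K) = v.valuation K (2 : K) * v.valuation K (2 : K) := by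
    rw [← map_mul]
    norm_num
  have h4' : v.valuation K (4 : K) ≠ 0 := by
    rw [h4]
    exact mul_ne_zero hv2 hv2
  have hw : v.valuation K (z / 2) < v.valuation K (2 : K) := by
    rw [map_div₀, div_lt_iff₀ (zero_lt_iff.2 hv2), ← h4]
    exact hz
  have hw1 : v.valuation K (z / 2) < 1 := hw.trans_le (q1_val_two_le v)
  have hu1 : v.valuation K (1 + z / 2) = 1 := Valuation.map_one_add_of_lt _ hw1
  have hu0 : 1 + z / 2 ≠ 0 := by
    intro h
    rw [h, map_zero] at hu1
    exact zero_ne_one hu1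
  refine ⟨1 + z / 2, -((z / 2) ^ 2 / (1 + z / 2) ^ 2), hu0, ?_, ?_⟩
  · have h3 : (1 + z / 2) ^ 2 ≠ 0 := pow_ne_zero _ hu0
    rw [div_eq_iff h3, add_mul, one_mul, neg_mul, div_mul_cancel₀ _ h3]
    ring
  · rw [Valuation.map_neg, map_div₀, map_pow (v.valuation K) (1 + z / 2), hu1, one_pow, div_one, map_pow, pow_two]
    have h5 : v.valuation K (z / 2) * v.valuation K (z / 2) = v.valuation K z * (v.valuation K z / v.valuation K 4) := by
      rw [map_div₀, h4, div_mul_div_comm, mul_div_assoc]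
    rw [h5]
    have h6 : v.valuation K z / v.valuation K 4 < 1 := by
      rw [div_lt_iff₀ (zero_lt_iff.2 h4'), one_mul]
      exact hz
    calc v.valuation K z * (v.valuation K z / v.valuation K 4) < v.valuation K z * 1 :=
          mul_lt_mul_of_pos_left h6 (zero_lt_iff.2 hvz)
      _ = v.valuation K z := mul_one _

theorem q1_iter (v : Pr K) (N : ℕ) (k : ℕ) : ∀ z : K, v.valuation K z < v.valuation K 4 →
    (z = 0 ∨ (N : ℤ) < od v z + k) → ∃ u : K, u ≠ 0 ∧ v.valuation K ((1 + z) / u ^ 2 - 1) < WithZero.exp (-(N : ℤ)) := by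
  have hzero : ∀ z : K, z = 0 → ∃ u : K, u ≠ 0 ∧ v.valuation K ((1 + z) / u ^ 2 - 1) < WithZero.exp (-(N : ℤ)) := by
    intro z hz
    refine ⟨1, one_ne_zero, ?_⟩
    rw [hz, add_zero, one_pow, div_one, sub_self, map_zero]
    exact WithZero.zero_lt_coe _
  induction k with
  | zero =>
    intro z hz h
    rcases h with h | h
    · exact hzero z h
    · by_cases hz0 : z = 0
      · exact hzero z hz0
      refine ⟨1, one_ne_zero, ?_⟩
      rw [one_pow, div_one, add_sub_cancel_left, val_lt_iff v hz0]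
      simpa using h
  | succ k ih =>
    intro z hz h
    by_cases hz0 : z = 0
    · exact hzero z hz0
    have h1 : (N : ℤ) < od v z + (k + 1 : ℕ) := h.resolve_left hz0
    obtain ⟨u, z', hu, e, hlt⟩ := q1_step v hz0 hz
    have h2 : z' = 0 ∨ (N : ℤ) < od v z' + k := by
      by_cases hz' : z' = 0
      · exact Or.inl hz'
      · right
        rw [val_eq v hz0, val_lt_iff v hz'] at hlt
        push_cast at h1
        omega
    obtain ⟨u', hu', h3⟩ := ih z' (hlt.trans hz) h2
    refine ⟨u * u', mul_ne_zero hu hu', ?_⟩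
    have e2 : (1 + z) / (u * u') ^ 2 = (1 + z') / u' ^ 2 := by
      rw [← e, mul_pow, div_div]
    rw [e2]
    exact h3

theorem ls_one_add (v : Pr K) {z : K} (hz : v.valuation K z < v.valuation K 4) :
    LS v (1 + z) := by
  intro N
  refine q1_iter v N (N - od v z + 1).toNat z hz (Or.inr ?_)
  have := Int.self_le_toNat (N - od v z + 1)
  omega

theorem ls_open (v : Pr K) {g u : K} (hu : u ≠ 0)
    (h : v.valuation K (g / u ^ 2 - 1) < v.valuation K 4) : LS v g := by
  intro N
  obtain ⟨w, hw, h1⟩ := ls_one_add v h N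
  refine ⟨u * w, mul_ne_zero hu hw, ?_⟩
  have e : g / (u * w) ^ 2 = (1 + (g / u ^ 2 - 1)) / w ^ 2 := by
    rw [add_sub_cancel, mul_pow, div_div]
  rw [e]
  exact h1

end

end Pool.Agent.H57O
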