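import Pool.Agent.Lib.H57O.Q1

/-!
Chunk Q2 (S/M). Closure properties of local squares and local norms. All from the definitions with
`val_near_mul`, `val_near_inv`.
* `LS.ne_zero`: for `g = 0` the valuation is `v (-1) = 1`, not `< exp 0 = 1`.
* norms multiply: `(x² - a y²)(x'² - a y'²) = (x x' + a y y')² - a (x y' + x' y)²`, and
  `1 / (x² - a y²) = (x / n)² - a (y / n)²` with `n = x² - a y²`.
* `LS.even`: `g / u²` has valuation `1` (`val_eq_one_of_near`), so `od v g = 2 od v u`.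
* `ln_of_ls_right`: `u² = u² - a 0²`.
* `ln_open`: `c = n (1 + z)`, `n = x² - a y²`, `1 + z` is a local square.
* `ln_left_sq`: substitute `y → y g` or `y → y / g`.
-/

set_option autoImplicit false

open NumberField IsDedekindDomain CFT

namespace Pool.Agent.H57O

section

variable {K : Type} [Field K] [NumberField K]

theorem q2_zero_lt (N : ℕ) : (0 : WithZero (Multiplicative ℤ)) < WithZero.exp (-(N : ℤ)) :=
  WithZero.zero_lt_coe _

theorem q2_self (v : Pr K) {x : K} (hx : x ≠ 0) (N : ℕ) :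
    v.valuation K (x / x - 1) < WithZero.exp (-(N : ℤ)) := by
  rw [div_self hx, sub_self, map_zero]
  exact q2_zero_lt N

theorem q2_neg_one (v : Pr K) {x : K} (hx : v.valuation K ((0 : K) / x - 1) < WithZero.exp (-((0 : ℕ) : ℤ))) : False := by
  rw [zero_div, zero_sub, Valuation.map_neg, map_one] at hx
  simp at hx

theorem LS.ne_zero {v : Pr K} {g : K} (h : LS v g) : g ≠ 0 := by
  rintro rfl
  obtain ⟨u, _, h1⟩ := h 0
  exact q2_neg_one v h1

theorem ls_sq (v : Pr K) {g : K} (hg : g ≠ 0) : LS v (g ^ 2) :=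
  fun N => ⟨g, hg, q2_self v (pow_ne_zero 2 hg) N⟩

theorem LS.mul {v : Pr K} {g h : K} (hg : LS v g) (hh : LS v h) : LS v (g * h) := by
  intro N
  obtain ⟨u, hu, h1⟩ := hg N
  obtain ⟨w, hw, h2⟩ := hh N
  refine ⟨u * w, mul_ne_zero hu hw, ?_⟩
  have e : g * h / (u * w) ^ 2 = (g / u ^ 2) * (h / w ^ 2) := by
    rw [mul_pow, mul_div_mul_comm]
  rw [e]
  exact val_near_mul v h1 h2

theorem LS.inv {v : Pr K} {g : K} (hg : LS v g) : LS v g⁻¹ := by
  intro N
  obtain ⟨u, hu, h1⟩ := hg N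
  refine ⟨u⁻¹, inv_ne_zero hu, ?_⟩
  have e : g⁻¹ / u⁻¹ ^ 2 = (g / u ^ 2)⁻¹ := by
    rw [inv_div, inv_pow, div_inv_eq_mul, div_eq_mul_inv, mul_comm]
  rw [e]
  exact val_near_inv v h1

theorem LS.even {v : Pr K} {g : K} (hg : LS v g) : Even (od v g) := by
  obtain ⟨u, hu, h1⟩ := hg 0
  have h2 : v.valuation K (g / u ^ 2) = 1 := by
    apply val_eq_one_of_near
    simpa using h1
  have h3 : v.valuation K g = v.valuation K (u ^ 2) := by
    have h4 : g = g / u ^ 2 * u ^ 2 := by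
      field_simp
    rw [h4, map_mul, h2, one_mul]
  have h5 : od v g = od v (u ^ 2) := by
    unfold od
    rw [h3]
  rw [h5, pow_two, od_mul v hu hu]
  exact ⟨_, rfl⟩

theorem LN.ne_zero {v : Pr K} {a c : K} (h : LN v a c) : c ≠ 0 := by
  rintro rfl
  obtain ⟨x, y, _, h1⟩ := h 0
  exact q2_neg_one v h1

theorem ln_norm (v : Pr K) {a x y : K} (h : x ^ 2 - a * y ^ 2 ≠ 0) :
    LN v a (x ^ 2 - a * y ^ 2) :=
  fun N => ⟨x, y, h, q2_self v h N⟩

theorem LN.mul {v : Pr K} {a c d : K} (hc : LN v a c) (hd : LN v a d) : LN v a (c * d) := by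
  intro N
  obtain ⟨x, y, hn, h1⟩ := hc N
  obtain ⟨x', y', hn', h2⟩ := hd N
  have e0 : (x * x' + a * y * y') ^ 2 - a * (x * y' + x' * y) ^ 2 =
      (x ^ 2 - a * y ^ 2) * (x' ^ 2 - a * y' ^ 2) := by ring
  refine ⟨x * x' + a * y * y', x * y' + x' * y, ?_, ?_⟩
  · rw [e0]
    exact mul_ne_zero hn hn'
  · rw [e0, mul_div_mul_comm]
    exact val_near_mul v h1 h2

theorem LN.inv {v : Pr K} {a c : K} (hc : LN v a c) : LN v a c⁻¹ := by
  intro N
  obtain ⟨x, y, hn, h1⟩ := hc N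
  have e0 : (x / (x ^ 2 - a * y ^ 2)) ^ 2 - a * (y / (x ^ 2 - a * y ^ 2)) ^ 2 = (x ^ 2 - a * y ^ 2)⁻¹ := by
    rw [div_pow, div_pow, mul_div_assoc', ← sub_div, pow_two (x ^ 2 - a * y ^ 2), div_mul_eq_div_div, div_self hn, one_div]
  refine ⟨x / (x ^ 2 - a * y ^ 2), y / (x ^ 2 - a * y ^ 2), ?_, ?_⟩
  · rw [e0]
    exact inv_ne_zero hn
  · have e : c⁻¹ / (x ^ 2 - a * y ^ 2)⁻¹ = (c / (x ^ 2 - a * y ^ 2))⁻¹ := by
      rw [inv_div, div_inv_eq_mul, div_eq_mul_inv, mul_comm]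
    rw [e0, e]
    exact val_near_inv v h1

theorem ln_of_ls_right {v : Pr K} (a : K) {g : K} (hg : LS v g) : LN v a g := by
  intro N
  obtain ⟨u, hu, h1⟩ := hg N
  have e : u ^ 2 - a * 0 ^ 2 = u ^ 2 := by ring
  refine ⟨u, 0, ?_, ?_⟩
  · rw [e]
    exact pow_ne_zero 2 hu
  · rw [e]
    exact h1

theorem ln_open (v : Pr K) {a c x y : K} (h0 : x ^ 2 - a * y ^ 2 ≠ 0)
    (h : v.valuation K (c / (x ^ 2 - a * y ^ 2) - 1) < v.valuation K 4) : LN v a c := by
  have h1 := ls_one_add v h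
  rw [add_sub_cancel] at h1
  have h2 := (ln_norm v h0).mul (ln_of_ls_right a h1)
  rwa [mul_div_cancel₀ c h0] at h2

theorem ln_left_sq {v : Pr K} {a c g : K} (hg : g ≠ 0) : LN v (a * g ^ 2) c ↔ LN v a c := by
  constructor
  · intro h N
    obtain ⟨x, y, hn, h1⟩ := h N
    have e : x ^ 2 - a * (g * y) ^ 2 = x ^ 2 - a * g ^ 2 * y ^ 2 := by ring
    exact ⟨x, g * y, by rw [e]; exact hn, by rw [e]; exact h1⟩
  · intro h N
    obtain ⟨x, y, hn, h1⟩ := h N
    have e : x ^ 2 - a * g ^ 2 * (y / g) ^ 2 = x ^ 2 - a * y ^ 2 := by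
      field_simp
    exact ⟨x, y / g, by rw [e]; exact hn, by rw [e]; exact h1⟩

end

end Pool.Agent.H57O
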