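import Pool.Agent.Lib.H57O.Defs

/-!
Chunk R1 (S/M). Pure algebra in a field of characteristic `≠ 2`.
* `descent_alg`: let `c = X² - a Y²` in `K(√d)`, `X = x₁ + x₂ √d`, `Y = y₁ + y₂ √d`. Then `d` is
  represented by `⟨a, c, -ac⟩` over `K`, or `c` is a norm from `K(√a)`. Put `n = x₂² - a y₂²`,
  `n₁ = x₁² - a y₁²`; the hypotheses are `c = n₁ + d n` and `x₁ x₂ = a y₁ y₂`. If `n ≠ 0`:
  `κ = y₁ x₂ - x₁ y₂`, `n₁ n = (x₁ x₂ - a y₁ y₂)² - a κ² = -a κ²`, so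
  `d = (c - n₁) / n = a (κ / n)² + c (x₂ / n)² - a c (y₂ / n)²`. If `n = 0` and `y₂ ≠ 0`: `a = g²`,
  `g = x₂ / y₂ ≠ 0`, and `c = ((c + 1) / 2)² - a ((c - 1) / (2 g))²`. If `y₂ = 0 = n` then `x₂ = 0`,
  `c = x₁² - a y₁²`.
* `rr_of_rep`: `c δ = a α² + c β² - a c γ²`, `δ = 1 + c t²`: `δ = β² - a γ² + a c (α / c)²`.
* `rr_of_rep'`: `a δ = a α² + c β² - a c γ²`, `δ = 1 + a t²`: `δ = α² - c γ² + a c (β / a)²`.
* `rr_of_norm`, `rr_of_norm'`: if `c = x² - a y²` the forms are isotropic: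
  `⟨1, -a, ac⟩` at `(a y, x, 1)`, `⟨1, -c, ac⟩` at `(c, x, y)`; an isotropic form `q` with isotropic `e`
  and `f` with `B(e, f) ≠ 0` takes the value `τ` at `λ e + f`, `λ = (τ - q f) / (2 B(e, f))`; take for
  `f` the first or the second unit vector (`B(e, f) = a y` or `-a x`; for the second form `c`).
-/

set_option autoImplicit false

namespace Pool.Agent.H57O

section

variable {K : Type} [Field K]

theorem r1_sq {a c g : K} (h2 : (2 : K) ≠ 0) (hg : g ≠ 0) (ha : a = g ^ 2) :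
    ∃ x y : K, c = x ^ 2 - a * y ^ 2 := by
  refine ⟨(c + 1) / 2, (c - 1) / (2 * g), ?_⟩
  rw [ha]
  field_simp
  ring

theorem descent_alg {a c d x₁ x₂ y₁ y₂ : K} (h2 : (2 : K) ≠ 0) (ha : a ≠ 0)
    (h1 : c = x₁ ^ 2 + d * x₂ ^ 2 - a * (y₁ ^ 2 + d * y₂ ^ 2)) (h0 : x₁ * x₂ = a * (y₁ * y₂)) :
    (∃ α β γ : K, d = a * α ^ 2 + c * β ^ 2 - a * c * γ ^ 2) ∨ ∃ x y : K, c = x ^ 2 - a * y ^ 2 := by
  by_cases hn : x₂ ^ 2 - a * y₂ ^ 2 = 0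
  · right
    by_cases hy : y₂ = 0
    · have hx : x₂ = 0 := by
        have : x₂ ^ 2 = 0 := by rw [hy] at hn; linear_combination hn
        exact pow_eq_zero_iff (two_ne_zero) |>.mp this
      refine ⟨x₁, y₁, ?_⟩
      rw [h1, hx, hy]
      ring
    · have hg : a = (x₂ / y₂) ^ 2 := by
        field_simp
        linear_combination -hn
      have hg0 : x₂ / y₂ ≠ 0 := by
        intro h
        rw [h] at hg
        exact ha (by rw [hg]; ring)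
      exact r1_sq h2 hg0 hg
  · left
    set n := x₂ ^ 2 - a * y₂ ^ 2 with hn'
    refine ⟨(y₁ * x₂ - x₁ * y₂) / n, x₂ / n, y₂ / n, ?_⟩
    have key : d * n ^ 2 = a * (y₁ * x₂ - x₁ * y₂) ^ 2 + c * x₂ ^ 2 - a * c * y₂ ^ 2 := by
      have e1 : c = (x₁ ^ 2 - a * y₁ ^ 2) + d * n := by
        rw [h1, hn']
        ring
      have e2 : (x₁ ^ 2 - a * y₁ ^ 2) * n = -a * (y₁ * x₂ - x₁ * y₂) ^ 2 := by
        rw [hn']
        linear_combination (x₁ * x₂ - a * y₁ * y₂) * h0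
      have e3 : a * (y₁ * x₂ - x₁ * y₂) ^ 2 + c * x₂ ^ 2 - a * c * y₂ ^ 2
          = a * (y₁ * x₂ - x₁ * y₂) ^ 2 + c * n := by
        rw [hn']
        ring
      rw [e3]
      linear_combination (-n) * e1 - e2
    have hn2 : n ^ 2 ≠ 0 := pow_ne_zero 2 hn
    have : a * ((y₁ * x₂ - x₁ * y₂) / n) ^ 2 + c * (x₂ / n) ^ 2 - a * c * (y₂ / n) ^ 2
        = (a * (y₁ * x₂ - x₁ * y₂) ^ 2 + c * x₂ ^ 2 - a * c * y₂ ^ 2) / n ^ 2 := by
      field_simp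
    rw [this, ← key]
    field_simp

theorem rr_of_rep {a c t α β γ : K} (hc : c ≠ 0)
    (h : c * (1 + c * t ^ 2) = a * α ^ 2 + c * β ^ 2 - a * c * γ ^ 2) :
    ∃ r z w : K, 1 + c * t ^ 2 = r ^ 2 - a * z ^ 2 + a * c * w ^ 2 := by
  refine ⟨β, γ, α / c, ?_⟩
  apply mul_left_cancel₀ hc
  rw [h]
  field_simp
  ring

theorem rr_of_rep' {a c t α β γ : K} (ha : a ≠ 0)
    (h : a * (1 + a * t ^ 2) = a * α ^ 2 + c * β ^ 2 - a * c * γ ^ 2) :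
    ∃ r z w : K, 1 + a * t ^ 2 = r ^ 2 - c * z ^ 2 + c * a * w ^ 2 := by
  refine ⟨α, γ, β / a, ?_⟩
  apply mul_left_cancel₀ ha
  rw [h]
  field_simp
  ring

theorem rr_of_norm {a c x y : K} (h2 : (2 : K) ≠ 0) (ha : a ≠ 0) (hc : c ≠ 0)
    (h : c = x ^ 2 - a * y ^ 2) (τ : K) : ∃ r z w : K, τ = r ^ 2 - a * z ^ 2 + a * c * w ^ 2 := by
  by_cases hy : y = 0
  · have hx : x ≠ 0 := by
      rintro rfl
      exact hc (by rw [h, hy]; ring)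
    -- `f = (0, 1, 0)`, `q f = -a`, `B(e, f) = -a x`, `λ = -(τ + a) / (2 a x)`
    refine ⟨-(τ + a) / (2 * a * x) * (a * y), -(τ + a) / (2 * a * x) * x + 1,
      -(τ + a) / (2 * a * x), ?_⟩
    rw [h, hy]
    field_simp
    ring
  · -- `f = (1, 0, 0)`, `q f = 1`, `B(e, f) = a y`, `λ = (τ - 1) / (2 a y)`
    refine ⟨(τ - 1) / (2 * a * y) * (a * y) + 1, (τ - 1) / (2 * a * y) * x,
      (τ - 1) / (2 * a * y), ?_⟩
    rw [h]
    field_simp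
    ring

theorem rr_of_norm' {a c x y : K} (h2 : (2 : K) ≠ 0) (hc : c ≠ 0)
    (h : c = x ^ 2 - a * y ^ 2) (τ : K) : ∃ r z w : K, τ = r ^ 2 - c * z ^ 2 + c * a * w ^ 2 := by
  -- `e = (c, x, y)`, `f = (1, 0, 0)`, `λ = (τ - 1) / (2 c)`
  refine ⟨(τ - 1) / (2 * c) * c + 1, (τ - 1) / (2 * c) * x, (τ - 1) / (2 * c) * y, ?_⟩
  have e : ((τ - 1) / (2 * c) * c + 1) ^ 2 - c * ((τ - 1) / (2 * c) * x) ^ 2
      + c * a * ((τ - 1) / (2 * c) * y) ^ 2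
      = ((τ - 1) / (2 * c) * c + 1) ^ 2 - c * ((τ - 1) / (2 * c)) ^ 2 * (x ^ 2 - a * y ^ 2) := by
    ring
  rw [e, ← h]
  field_simp
  ring

end

end Pool.Agent.H57O
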