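import Pool.Agent.Lib.H57O.R1
import Pool.Agent.Lib.H57O.R2
import Pool.Agent.Lib.H57O.C1

/-!
Chunk R3 (M). From the extension back to `K`. `M ∋ δ`, `δ² = d`, every element of `M` is
`x₁ + x₂ δ`, `1, δ` independent over `K` (because `d` is not a square in `K`: if `p + q δ = 0` with
`q ≠ 0` then `δ` is in `K`). `hasse_quad` for `M`, `s ↦ algebraMap s` gives `c = X² - a Y²` in `M`;
compare coefficients and apply `descent_alg`.
-/

set_option autoImplicit false

open NumberField IsDedekindDomain CFT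

namespace Pool.Agent.H57O

section

variable {K : Type} [Field K] [NumberField K]

theorem descent {d s c : K} (hd : ∀ g : K, g ^ 2 ≠ d) (ha : 1 + 4 * s ^ 2 ≠ 0) (hc : c ≠ 0)
    {M : Type} [Field M] [NumberField M] [Algebra K M] {δ : M} (hδ : δ ^ 2 = algebraMap K M d)
    (hM : ∀ X : M, ∃ x₁ x₂ : K, X = algebraMap K M x₁ + algebraMap K M x₂ * δ)
    (h : ∀ W : Pr M, LN W (1 + 4 * (algebraMap K M s) ^ 2) (algebraMap K M c)) :
    (∃ α β γ : K, d = (1 + 4 * s ^ 2) * α ^ 2 + c * β ^ 2 - (1 + 4 * s ^ 2) * c * γ ^ 2) ∨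
      ∃ x y : K, c = x ^ 2 - (1 + 4 * s ^ 2) * y ^ 2 := by
  have hδK : ∀ x : K, algebraMap K M x ≠ δ := by
    intro x hx
    apply hd x
    apply (algebraMap K M).injective
    rw [map_pow, hx, hδ]
  have hind : ∀ p q : K, algebraMap K M p + algebraMap K M q * δ = 0 → p = 0 ∧ q = 0 := by
    intro p q h0
    have hq : q = 0 := by
      by_contra hq
      have hq' : algebraMap K M q ≠ 0 := (map_ne_zero _).mpr hq
      apply hδK (-p / q)
      rw [map_div₀, map_neg]
      field_simp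
      linear_combination -h0
    refine ⟨?_, hq⟩
    rw [hq, map_zero, zero_mul, add_zero] at h0
    exact (map_eq_zero _).mp h0
  have ha' : 1 + 4 * (algebraMap K M s) ^ 2 ≠ 0 := by
    have e : 1 + 4 * (algebraMap K M s) ^ 2 = algebraMap K M (1 + 4 * s ^ 2) := by
      rw [map_add, map_mul, map_pow, map_one, map_ofNat]
    rw [e]
    exact (map_ne_zero _).mpr ha
  have hc' : algebraMap K M c ≠ 0 := (map_ne_zero _).mpr hc
  obtain ⟨X, Y, hXY⟩ := hasse_quad (algebraMap K M s) (algebraMap K M c) ha' hc' h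
  obtain ⟨x₁, x₂, rfl⟩ := hM X
  obtain ⟨y₁, y₂, rfl⟩ := hM Y
  set a := 1 + 4 * s ^ 2 with hadef
  have e1 : algebraMap K M (x₁ ^ 2 + d * x₂ ^ 2 - a * (y₁ ^ 2 + d * y₂ ^ 2) - c)
      + algebraMap K M (2 * (x₁ * x₂ - a * (y₁ * y₂))) * δ = 0 := by
    have e2 : algebraMap K M a = 1 + 4 * (algebraMap K M s) ^ 2 := by
      rw [hadef]
      rw [map_add, map_mul, map_pow, map_one, map_ofNat]
    rw [← e2] at hXY
    simp only [map_sub, map_add, map_mul, map_pow, map_ofNat]
    rw [← hδ]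
    linear_combination -hXY
  obtain ⟨h3, h4⟩ := hind _ _ e1
  have h2 : (2 : K) ≠ 0 := two_ne_zero
  have h5 : x₁ * x₂ = a * (y₁ * y₂) := by
    have := (mul_eq_zero.mp h4).resolve_left h2
    linear_combination this
  exact descent_alg h2 ha (by linear_combination -h3) h5

end

end Pool.Agent.H57O
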